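import Mathlib

set_option autoImplicit false
set_option linter.unusedSectionVars false

open scoped ComplexOrder Matrix

namespace Pool.Agent.Lib.P74fcff

/-- Compactness: if `f ≥ 0` on a compact set and `g > 0` on the zero set of `f`, then
`M f + g > 0` on the compact set for all large `M`. -/
lemma compact_pos {X : Type*} [TopologicalSpace X] {K : Set X} (hK : IsCompact K)
    {f g : X → ℝ} (hf : ContinuousOn f K) (hg : ContinuousOn g K) (hf0 : ∀ x ∈ K, 0 ≤ f x)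
    (hfg : ∀ x ∈ K, f x = 0 → 0 < g x) :
    ∃ N : ℝ, 0 < N ∧ ∀ M : ℝ, N ≤ M → ∀ x ∈ K, 0 < M * f x + g x := by
  by_cases hne : K.Nonempty
  swap
  · refine ⟨1, one_pos, fun M _ x hx => ?_⟩
    exact absurd ⟨x, hx⟩ hne
  -- lower bound for g
  obtain ⟨x₀, hx₀, hx₀min⟩ := hK.exists_isMinOn hne hg
  -- the compact set where g ≤ 0
  set K' : Set X := K ∩ g ⁻¹' (Set.Iic 0) with hK'
  have hK'c : IsCompact K' := by
    have : IsClosed (Subtype.val ⁻¹' (g ⁻¹' (Set.Iic 0)) : Set K) := by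
      have hc : Continuous (fun x : K => g x) := continuousOn_iff_continuous_domRestrict.mp hg
      exact isClosed_Iic.preimage hc
    have h2 : IsCompact (Set.univ : Set K) := isCompact_iff_isCompact_univ.mp hK
    have h3 : IsCompact (Subtype.val ⁻¹' (g ⁻¹' (Set.Iic 0)) : Set K) :=
      h2.of_isClosed_subset this (Set.subset_univ _)
    have h4 := h3.image continuous_subtype_val
    rwa [Subtype.image_preimage_coe] at h4
  by_cases hne' : K'.Nonempty
  swap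
  · refine ⟨1, one_pos, fun M hM x hx => ?_⟩
    have h1 : 0 < g x := by
      by_contra h
      exact hne' ⟨x, hx, not_lt.mp h⟩
    have h2 : 0 ≤ M * f x := mul_nonneg (by linarith) (hf0 x hx)
    linarith
  obtain ⟨x₁, hx₁, hx₁min⟩ := hK'c.exists_isMinOn hne' (hf.mono Set.inter_subset_left)
  have hc : 0 < f x₁ := by
    rcases (hf0 x₁ hx₁.1).lt_or_eq with h | h
    · exact h
    · exact absurd (hfg x₁ hx₁.1 h.symm) (not_lt.mpr hx₁.2)
  refine ⟨(|g x₀| + 1) / f x₁, by positivity, fun M hM x hx => ?_⟩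
  have hM0 : 0 < M := lt_of_lt_of_le (by positivity) hM
  by_cases hgx : g x ≤ 0
  · have h1 : f x₁ ≤ f x := hx₁min ⟨hx, hgx⟩
    have h2 : g x₀ ≤ g x := hx₀min hx
    have h3 : |g x₀| + 1 ≤ M * f x₁ := by
      rw [div_le_iff₀ hc] at hM; exact hM
    have h4 : M * f x₁ ≤ M * f x := mul_le_mul_of_nonneg_left h1 hM0.le
    have h5 : -|g x₀| ≤ g x₀ := neg_abs_le _
    linarith
  · have h2 : 0 ≤ M * f x := mul_nonneg hM0.le (hf0 x hx)
    linarith [not_le.mp hgx]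

section matrices

variable {κ : Type*} [Fintype κ] [DecidableEq κ]

/-- the real number `v* X v` -/
noncomputable def qf (X : Matrix κ κ ℂ) (v : κ → ℂ) : ℝ := (star v ⬝ᵥ (X *ᵥ v)).re

lemma qf_add (X Y : Matrix κ κ ℂ) (v : κ → ℂ) : qf (X + Y) v = qf X v + qf Y v := by
  simp [qf, Matrix.add_mulVec, dotProduct_add]

lemma qf_smul (c : ℝ) (X : Matrix κ κ ℂ) (v : κ → ℂ) : qf (c • X) v = c * qf X v := by
  simp [qf, Matrix.smul_mulVec, dotProduct_smul]

lemma qf_smul_vec (X : Matrix κ κ ℂ) (c : ℝ) (v : κ → ℂ) : qf X (c • v) = c ^ 2 * qf X v := by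
  simp [qf, Matrix.mulVec_smul, dotProduct_smul, star_smul, smul_dotProduct]
  ring

lemma continuous_qf (X : Matrix κ κ ℂ) : Continuous (qf X) := by
  unfold qf
  apply Complex.continuous_re.comp
  unfold dotProduct Matrix.mulVec dotProduct
  fun_prop

lemma qf_nonneg_of_posSemidef {X : Matrix κ κ ℂ} (h : X.PosSemidef) (v : κ → ℂ) : 0 ≤ qf X v :=
  h.re_dotProduct_nonneg v

lemma herm_dot_im {X : Matrix κ κ ℂ} (h : X.IsHermitian) (v : κ → ℂ) :
    (star v ⬝ᵥ (X *ᵥ v)).im = 0 := by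
  have h1 : star (star v ⬝ᵥ (X *ᵥ v)) = star v ⬝ᵥ (X *ᵥ v) := by
    conv_lhs => rw [← Matrix.star_dotProduct_star, star_star, Matrix.star_mulVec, h.eq,
      ← Matrix.dotProduct_mulVec, dotProduct_comm]
    rw [dotProduct_comm]
  have := congrArg Complex.im h1
  simp at this
  linarith

lemma posSemidef_of_qf {X : Matrix κ κ ℂ} (h : X.IsHermitian) (h2 : ∀ v, 0 ≤ qf X v) :
    X.PosSemidef := by
  refine Matrix.PosSemidef.of_dotProduct_mulVec_nonneg h fun v => ?_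
  rw [Complex.le_def]
  exact ⟨h2 v, by simpa using (herm_dot_im h v).symm⟩

lemma posDef_of_qf {X : Matrix κ κ ℂ} (h : X.IsHermitian) (h2 : ∀ v, v ≠ 0 → 0 < qf X v) :
    X.PosDef := by
  refine Matrix.PosDef.of_dotProduct_mulVec_pos h fun v hv => ?_
  rw [Complex.lt_def]
  exact ⟨h2 v hv, by simpa using (herm_dot_im h v).symm⟩

/-- `w w*` -/
noncomputable def rk1 (w : κ → ℂ) : Matrix κ κ ℂ := Matrix.vecMulVec w (star w)

lemma rk1_herm (w : κ → ℂ) : (rk1 w).IsHermitian := by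
  unfold rk1
  rw [Matrix.IsHermitian, Matrix.conjTranspose_vecMulVec, star_star]

lemma rk1_mulVec (w v : κ → ℂ) : rk1 w *ᵥ v = (star w ⬝ᵥ v) • w := by
  unfold rk1
  rw [Matrix.vecMulVec_mulVec]
  ext i
  simp [mul_comm]

lemma qf_rk1 (w v : κ → ℂ) : qf (rk1 w) v = ‖star w ⬝ᵥ v‖ ^ 2 := by
  unfold qf
  rw [rk1_mulVec, dotProduct_smul]
  have : star v ⬝ᵥ w = star (star w ⬝ᵥ v) := by
    rw [Matrix.star_dotProduct]
  rw [this, smul_eq_mul]
  simp only [Complex.star_def, Complex.mul_conj]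
  rw [Complex.ofReal_re, Complex.normSq_eq_norm_sq]

lemma rk1_posSemidef (w : κ → ℂ) : (rk1 w).PosSemidef :=
  posSemidef_of_qf (rk1_herm w) fun v => by rw [qf_rk1]; positivity

lemma qf_one (v : κ → ℂ) : qf (1 : Matrix κ κ ℂ) v = ∑ i, ‖v i‖ ^ 2 := by
  unfold qf
  rw [Matrix.one_mulVec]
  simp only [dotProduct, Complex.re_sum, Pi.star_apply, Complex.star_def]
  refine Finset.sum_congr rfl fun i _ => ?_
  rw [mul_comm, Complex.mul_conj, Complex.ofReal_re, Complex.normSq_eq_norm_sq]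

lemma qf_one_pos {v : κ → ℂ} (hv : v ≠ 0) : 0 < qf (1 : Matrix κ κ ℂ) v := by
  rw [qf_one]
  obtain ⟨i, hi⟩ := Function.ne_iff.mp hv
  refine Finset.sum_pos' (fun i _ => by positivity) ⟨i, Finset.mem_univ _, ?_⟩
  have : 0 < ‖v i‖ := norm_pos_iff.mpr hi
  positivity

/-- the Euclidean unit sphere -/
def sph (κ : Type*) [Fintype κ] : Set (κ → ℂ) := {v | ∑ i, ‖v i‖ ^ 2 = 1}

lemma isCompact_sph : IsCompact (sph κ) := by
  apply Metric.isCompact_of_isClosed_isBounded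
  · apply isClosed_eq _ continuous_const
    fun_prop
  · rw [Metric.isBounded_iff_subset_closedBall (0 : κ → ℂ)]
    refine ⟨1, fun v hv => ?_⟩
    rw [mem_closedBall_zero_iff, pi_norm_le_iff_of_nonneg zero_le_one]
    intro i
    have h1 : ‖v i‖ ^ 2 ≤ ∑ j, ‖v j‖ ^ 2 :=
      Finset.single_le_sum (f := fun j => ‖v j‖ ^ 2) (fun j _ => by positivity)
        (Finset.mem_univ i)
    rw [show ∑ j, ‖v j‖ ^ 2 = 1 from hv] at h1
    exact (sq_le_one_iff₀ (norm_nonneg _)).mp h1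

lemma sph_ne_zero {v : κ → ℂ} (hv : v ∈ sph κ) : v ≠ 0 := by
  rintro rfl
  simp [sph] at hv

lemma exists_sph {v : κ → ℂ} (hv : v ≠ 0) : ∃ (r : ℝ) (u : κ → ℂ), 0 < r ∧ u ∈ sph κ ∧ v = r • u := by
  have h := qf_one_pos hv
  rw [qf_one] at h
  set R := ∑ i, ‖v i‖ ^ 2 with hR
  have hr : 0 < √R := Real.sqrt_pos.mpr h
  refine ⟨√R, (√R)⁻¹ • v, hr, ?_, ?_⟩
  · simp only [sph, Set.mem_setOf_eq, Pi.smul_apply, norm_smul, mul_pow, ← Finset.mul_sum, ← hR]
    rw [Real.norm_of_nonneg (by positivity), inv_pow, Real.sq_sqrt h.le]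
    exact inv_mul_cancel₀ h.ne'
  · rw [smul_smul, mul_inv_cancel₀ hr.ne', one_smul]

lemma posDef_of_sph {X : Matrix κ κ ℂ} (h : X.IsHermitian) (h2 : ∀ v ∈ sph κ, 0 < qf X v) :
    X.PosDef := by
  refine posDef_of_qf h fun v hv => ?_
  obtain ⟨r, u, hr, hu, rfl⟩ := exists_sph hv
  rw [qf_smul_vec]
  have := h2 u hu
  positivity

lemma posSemidef_of_sph {X : Matrix κ κ ℂ} (h : X.IsHermitian) (h2 : ∀ v ∈ sph κ, 0 ≤ qf X v) :
    X.PosSemidef := by
  refine posSemidef_of_qf h fun v => ?_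
  by_cases hv : v = 0
  · subst hv; simp [qf]
  obtain ⟨r, u, hr, hu, rfl⟩ := exists_sph hv
  rw [qf_smul_vec]
  have := h2 u hu
  positivity

lemma qf_pos_of_posDef {X : Matrix κ κ ℂ} (h : X.PosDef) {v : κ → ℂ} (hv : v ≠ 0) :
    0 < qf X v := by
  have := h.re_dotProduct_pos hv
  exact this

/-- If `M + d w w*` annihilates `p`, where `w* p = 1`, and `M ≥ 0` on `w^⊥` then
`M + d w w* ≥ 0`. -/
lemma qf_decomp {X : Matrix κ κ ℂ} (hX : X.IsHermitian) {p : κ → ℂ} (hp : X *ᵥ p = 0)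
    (a : ℂ) (c : κ → ℂ) : qf X (a • p + c) = qf X c := by
  have h1 : X *ᵥ (a • p + c) = X *ᵥ c := by
    rw [Matrix.mulVec_add, Matrix.mulVec_smul, hp, smul_zero, zero_add]
  have h2 : star p ⬝ᵥ (X *ᵥ c) = 0 := by
    have : star p ⬝ᵥ (X *ᵥ c) = star (X *ᵥ p) ⬝ᵥ c := by
      rw [Matrix.star_mulVec, hX.eq, ← Matrix.dotProduct_mulVec]
    rw [this, hp]; simp
  unfold qf
  rw [h1, star_add, star_smul, add_dotProduct, smul_dotProduct, h2, smul_zero, zero_add]

/-- Schur complement lemma. -/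
lemma schur {M : Matrix κ κ ℂ} (hM : M.IsHermitian) {w : κ → ℂ} (hw : w ≠ 0)
    (hpos : ∀ c, c ≠ 0 → star w ⬝ᵥ c = 0 → 0 < qf M c) :
    ∃ (d : ℝ) (p : κ → ℂ), star w ⬝ᵥ p = 1 ∧ (M + d • rk1 w) *ᵥ p = 0 ∧
      (M + d • rk1 w).PosSemidef := by
  obtain ⟨N, hN0, hN⟩ := compact_pos (isCompact_sph (κ := κ)) (f := qf (rk1 w)) (g := qf M)
    (continuous_qf _).continuousOn (continuous_qf _).continuousOn
    (fun v _ => qf_nonneg_of_posSemidef (rk1_posSemidef w) v)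
    (fun v hv h0 => by
      rw [qf_rk1] at h0
      have : star w ⬝ᵥ v = 0 := by simpa using h0
      exact hpos v (sph_ne_zero hv) this)
  have hsm : ∀ d : ℝ, (d • rk1 w).IsHermitian := fun d => by
    have h := rk1_herm w
    rw [Matrix.IsHermitian] at h ⊢
    rw [Matrix.conjTranspose_smul, h]; simp
  set Q := M + N • rk1 w with hQ
  have hQh : Q.IsHermitian := hM.add (hsm N)
  have hQpd : Q.PosDef := posDef_of_sph hQh fun v hv => by
    have := hN N le_rfl v hv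
    rw [hQ, qf_add, qf_smul]; linarith
  have hdet : IsUnit Q.det := (Matrix.isUnit_iff_isUnit_det Q).mp hQpd.isUnit
  set u := Q⁻¹ *ᵥ w with hu
  have hQu : Q *ᵥ u = w := by
    rw [hu, Matrix.mulVec_mulVec, Matrix.mul_nonsing_inv _ hdet, Matrix.one_mulVec]
  have hu0 : u ≠ 0 := by
    intro h; rw [h, Matrix.mulVec_zero] at hQu; exact hw hQu.symm
  have hb : 0 < qf Q u := qf_pos_of_posDef hQpd hu0
  have hbu : star u ⬝ᵥ w = ((qf Q u : ℝ) : ℂ) := by
    apply Complex.ext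
    · rw [Complex.ofReal_re, qf, hQu]
    · rw [Complex.ofReal_im]
      have := herm_dot_im hQh u
      rwa [hQu] at this
  have hbw : star w ⬝ᵥ u = ((qf Q u : ℝ) : ℂ) := by
    rw [Matrix.star_dotProduct, hbu]; simp
  set β := qf Q u with hβ
  have hβC : (β : ℂ) ≠ 0 := by exact_mod_cast hb.ne'
  set p := (β : ℂ)⁻¹ • u with hp
  have hwp : star w ⬝ᵥ p = 1 := by
    rw [hp, dotProduct_smul, hbw, smul_eq_mul, inv_mul_cancel₀ hβC]
  have hMp : (M + (N - β⁻¹) • rk1 w) *ᵥ p = 0 := by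
    have : M + (N - β⁻¹) • rk1 w = Q - β⁻¹ • rk1 w := by
      rw [hQ, sub_smul]; abel
    rw [this, Matrix.sub_mulVec, Matrix.smul_mulVec, rk1_mulVec, hwp, one_smul, hp,
      Matrix.mulVec_smul, hQu]
    ext i
    simp
  have hherm : (M + (N - β⁻¹) • rk1 w).IsHermitian := hM.add (hsm _)
  refine ⟨N - β⁻¹, p, hwp, hMp, posSemidef_of_qf hherm fun v => ?_⟩
  have hv : v = (star w ⬝ᵥ v) • p + (v - (star w ⬝ᵥ v) • p) := by abel
  rw [hv, qf_decomp hherm hMp]
  set c := v - (star w ⬝ᵥ v) • p with hc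
  have hwc : star w ⬝ᵥ c = 0 := by
    rw [hc, dotProduct_sub, dotProduct_smul, hwp, smul_eq_mul, mul_one, sub_self]
  rw [qf_add, qf_smul, qf_rk1, hwc]
  by_cases hc0 : c = 0
  · simp [hc0, qf]
  · have := hpos c hc0 hwc
    simpa using this.le

end matrices

end Pool.Agent.Lib.P74fcff
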