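import Pool.Agent.Lib.P74fcff.Suff2

set_option autoImplicit false
set_option linter.unusedSectionVars false

open scoped ComplexOrder Matrix MatrixOrder TensorProduct

universe u

namespace Pool.Agent.Lib.P74fcff

section

variable {K : Type u} [NormedAddCommGroup K] [InnerProductSpace ℂ K]

variable {ι κ : Type} [Fintype ι] [DecidableEq ι] [Fintype κ] [DecidableEq κ]

lemma dilV_rect {A : Matrix ι ι ℂ} {U : Matrix ι κ ℂ} (hU : Uᴴ * U = 1) {T : K →ₗ[ℂ] K}
    (h : DilV (Uᴴ * A * U) T) : DilV A T := by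
  obtain ⟨L, i1, i2, i3, V, hV1, hV2⟩ := h
  have key : ∀ (M : Matrix ι ι ℂ) (x y : K),
      ∑ i, ∑ j, M i j * inner ℂ ((∑ a, U i a • V a) x) ((∑ b, U j b • V b) y) =
      ∑ a, ∑ b, (Uᴴ * M * U) a b * inner ℂ (V a x) (V b y) := by
    intro M x y
    have e1 : ∀ i j, inner ℂ ((∑ a, U i a • V a) x) ((∑ b, U j b • V b) y) =
        ∑ a, ∑ b, star (U i a) * U j b * inner ℂ (V a x) (V b y) := by
      intro i j
      simp only [LinearMap.sum_apply, LinearMap.smul_apply, sum_inner, inner_sum,
        inner_smul_left, inner_smul_right, Complex.star_def, Finset.mul_sum]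
      rw [Finset.sum_comm]
      refine Finset.sum_congr rfl fun a _ => Finset.sum_congr rfl fun b _ => ?_
      ring
    simp only [e1, Matrix.mul_apply, Matrix.conjTranspose_apply, Finset.mul_sum, Finset.sum_mul]
    rw [Finset.sum_congr rfl fun i _ => Finset.sum_comm]
    rw [Finset.sum_comm]
    refine Finset.sum_congr rfl fun a _ => ?_
    rw [Finset.sum_congr rfl fun i _ => Finset.sum_comm]
    rw [Finset.sum_comm]
    refine Finset.sum_congr rfl fun b _ => ?_
    rw [Finset.sum_comm]
    refine Finset.sum_congr rfl fun j _ => ?_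
    refine Finset.sum_congr rfl fun i _ => ?_
    ring
  refine ⟨L, i1, i2, i3, fun i => ∑ a, U i a • V a, fun x y => ?_, fun x y => ?_⟩
  · have h1 := key 1 x y
    rw [Matrix.mul_one, hU] at h1
    have e2 : ∀ (ι : Type) [Fintype ι] [DecidableEq ι] (g : ι → ι → ℂ),
        ∑ i, ∑ j, (1 : Matrix ι ι ℂ) i j * g i j = ∑ i, g i i := by
      intro ι _ _ g
      refine Finset.sum_congr rfl fun i _ => ?_
      rw [Finset.sum_eq_single i]
      · simp
      · intro j _ hj
        rw [Matrix.one_apply_ne hj.symm, zero_mul]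
      · intro h; exact absurd (Finset.mem_univ i) h
    rw [e2, e2, hV1] at h1
    exact h1
  · rw [key, hV2]

end

/-- Sufficiency for compressions with the same numerical range. -/
theorem propertyV_of_compression {n m : ℕ} (hm : 2 ≤ m) {A : Matrix (Fin n) (Fin n) ℂ}
    {J : Matrix (Fin n) (Fin m) ℂ} (hJ : Jᴴ * J = 1)
    (hW : numRange (Matrix.toEuclideanCLM (𝕜 := ℂ) A) ⊆
      numRange (Matrix.toEuclideanCLM (𝕜 := ℂ) (Jᴴ * A * J)))
    (h : RankOne (Jᴴ * A * J)) : PropertyV.{u} A := by
  intro K _ _ _ T hT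
  have hab : (⟨0, by omega⟩ : Fin m) ≠ ⟨1, by omega⟩ := by
    intro h; simp at h
  exact dilV_rect hJ (dilV_of_rankOne hab h (posHyp_of_numRange (hT.trans hW)))

end Pool.Agent.Lib.P74fcff
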