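import Pool.Agent.Lib.P74fcff.Suff

set_option autoImplicit false
set_option linter.unusedSectionVars false

open scoped ComplexOrder Matrix MatrixOrder TensorProduct

universe u

namespace Pool.Agent.Lib.P74fcff

/-- The numerical range `{⟨Tx,x⟩ : ‖x‖ = 1}`. -/
def numRange {K : Type*} [NormedAddCommGroup K] [InnerProductSpace ℂ K] (T : K →L[ℂ] K) : Set ℂ :=
  {z | ∃ x : K, ‖x‖ = 1 ∧ inner ℂ x (T x) = z}

/-- Property (D). -/
def PropertyD {n : ℕ} (A : Matrix (Fin n) (Fin n) ℂ) : Prop :=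
  ∀ (K : Type u) [NormedAddCommGroup K] [InnerProductSpace ℂ K] [CompleteSpace K]
    (T : K →L[ℂ] K), numRange T ⊆ numRange (Matrix.toEuclideanCLM (𝕜 := ℂ) A) →
    ∃ (L : Type u) (_ : NormedAddCommGroup L) (_ : InnerProductSpace ℂ L) (_ : CompleteSpace L)
      (X : K →ₗᵢ[ℂ] (L ⊗[ℂ] EuclideanSpace ℂ (Fin n))),
      ∀ x y : K, inner ℂ x (T y) =
        inner ℂ (X x) (LinearMap.lTensor L (Matrix.toEuclideanLin A) (X y))

section

variable {K : Type u} [NormedAddCommGroup K] [InnerProductSpace ℂ K]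

/-- dilation in coordinates -/
def DilV {ι : Type} [Fintype ι] (A : Matrix ι ι ℂ) (T : K →ₗ[ℂ] K) : Prop :=
  ∃ (L : Type u) (_ : NormedAddCommGroup L) (_ : InnerProductSpace ℂ L)
      (_ : CompleteSpace L) (V : ι → K →ₗ[ℂ] L),
      (∀ x y, ∑ i, inner ℂ (V i x) (V i y) = inner ℂ x y) ∧
      (∀ x y, ∑ i, ∑ j, A i j * inner ℂ (V i x) (V j y) = inner ℂ x (T y))

/-- affine functionals that are nonnegative on `W(A)` are nonnegative on `W(T)` -/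
def PosHyp {ι : Type} [Fintype ι] [DecidableEq ι] (A : Matrix ι ι ℂ) (T : K →ₗ[ℂ] K) : Prop :=
  ∀ (c : ℂ) (t : ℝ), (∀ v : ι → ℂ, 0 ≤ t * qf 1 v + (c * (star v ⬝ᵥ (A *ᵥ v))).re) →
    ∀ k : K, 0 ≤ t * ‖k‖ ^ 2 + (c * inner ℂ k (T k)).re

lemma toEuclideanCLM_inner {n : ℕ} (A : Matrix (Fin n) (Fin n) ℂ) (v : EuclideanSpace ℂ (Fin n)) :
    inner ℂ v (Matrix.toEuclideanCLM (𝕜 := ℂ) A v) = star v.ofLp ⬝ᵥ (A *ᵥ v.ofLp) := by
  rw [EuclideanSpace.inner_eq_star_dotProduct, dotProduct_comm]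
  simp

lemma qf_one_eq_norm {n : ℕ} (v : EuclideanSpace ℂ (Fin n)) : qf 1 v.ofLp = ‖v‖ ^ 2 := by
  rw [qf_one, EuclideanSpace.norm_sq_eq]

lemma posHyp_of_numRange {n : ℕ} {A : Matrix (Fin n) (Fin n) ℂ} {T : K →L[ℂ] K}
    (h : numRange T ⊆ numRange (Matrix.toEuclideanCLM (𝕜 := ℂ) A)) :
    PosHyp A (T : K →ₗ[ℂ] K) := by
  intro c t hpos k
  by_cases hk : k = 0
  · subst hk; simp
  have hk' : 0 < ‖k‖ := norm_pos_iff.mpr hk
  set k' : K := ((‖k‖⁻¹ : ℝ) : ℂ) • k with hk'def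
  have hn : ‖k'‖ = 1 := by
    rw [hk'def, norm_smul, Complex.norm_real, Real.norm_of_nonneg (by positivity)]
    exact inv_mul_cancel₀ hk'.ne'
  obtain ⟨v, hv1, hv2⟩ := h ⟨k', hn, rfl⟩
  have h1 := hpos v.ofLp
  rw [← toEuclideanCLM_inner, hv2, qf_one_eq_norm, hv1] at h1
  have h2 : inner ℂ k' (T k') = ((‖k‖⁻¹ ^ 2 : ℝ) : ℂ) * inner ℂ k (T k) := by
    rw [hk'def, map_smul, inner_smul_left, inner_smul_right, Complex.conj_ofReal]
    push_cast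
    ring
  rw [h2] at h1
  have h3 : (c * (((‖k‖⁻¹ ^ 2 : ℝ) : ℂ) * inner ℂ k (T k))).re =
      ‖k‖⁻¹ ^ 2 * (c * inner ℂ k (T k)).re := by
    rw [mul_left_comm, Complex.re_ofReal_mul]
  rw [h3] at h1
  have h4 : t * ‖k‖ ^ 2 + (c * inner ℂ k (T k)).re =
      ‖k‖ ^ 2 * (t * 1 ^ 2 + ‖k‖⁻¹ ^ 2 * (c * inner ℂ k (T k)).re) := by
    field_simp
  change 0 ≤ t * ‖k‖ ^ 2 + (c * inner ℂ k (T k)).re
  rw [h4]
  positivity

/-- the isometry assembled from its components -/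
lemma exists_isometry {n : ℕ} {A : Matrix (Fin n) (Fin n) ℂ} {T : K →ₗ[ℂ] K}
    (h : DilV A T) : ∃ (L : Type u) (_ : NormedAddCommGroup L) (_ : InnerProductSpace ℂ L)
      (_ : CompleteSpace L) (X : K →ₗᵢ[ℂ] (L ⊗[ℂ] EuclideanSpace ℂ (Fin n))),
      ∀ x y : K, inner ℂ x (T y) =
        inner ℂ (X x) (LinearMap.lTensor L (Matrix.toEuclideanLin A) (X y)) := by
  obtain ⟨L, i1, i2, i3, V, hV1, hV2⟩ := h
  set e : Fin n → EuclideanSpace ℂ (Fin n) := fun j => EuclideanSpace.single j 1 with he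
  have hee : ∀ i j, inner ℂ (e i) (e j) = if i = j then (1 : ℂ) else 0 := by
    intro i j
    rw [he]
    simp [EuclideanSpace.inner_single_left]
  set X0 : K →ₗ[ℂ] (L ⊗[ℂ] EuclideanSpace ℂ (Fin n)) :=
    ∑ j, ((TensorProduct.mk ℂ L (EuclideanSpace ℂ (Fin n))).flip (e j)) ∘ₗ V j with hX0
  have hX0a : ∀ k, X0 k = ∑ j, (V j k) ⊗ₜ[ℂ] (e j) := by
    intro k
    rw [hX0, LinearMap.sum_apply]
    rfl
  have hX0i : ∀ x y, inner ℂ (X0 x) (X0 y) = inner ℂ x y := by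
    intro x y
    rw [hX0a, hX0a, sum_inner, ← hV1]
    refine Finset.sum_congr rfl fun i _ => ?_
    rw [inner_sum, Finset.sum_eq_single i]
    · rw [TensorProduct.inner_tmul, hee, if_pos rfl, mul_one]
    · intro j _ hj
      rw [TensorProduct.inner_tmul, hee, if_neg hj.symm, mul_zero]
    · intro h; exact absurd (Finset.mem_univ i) h
  have hX0n : ∀ k, ‖X0 k‖ = ‖k‖ := by
    intro k
    have h1 := hX0i k k
    have h0 := inner_self_eq_norm_sq_to_K (𝕜 := ℂ) (X0 k)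
    have h0' := inner_self_eq_norm_sq_to_K (𝕜 := ℂ) k
    have h1' := (h0.symm.trans h1).trans h0'
    have h2 : ‖X0 k‖ ^ 2 = ‖k‖ ^ 2 := by
      have h3 : ((‖X0 k‖ ^ 2 : ℝ) : ℂ) = ((‖k‖ ^ 2 : ℝ) : ℂ) := by
        push_cast
        exact h1'
      exact_mod_cast h3
    exact (sq_eq_sq₀ (norm_nonneg _) (norm_nonneg _)).mp h2
  refine ⟨L, i1, i2, i3, ⟨X0, hX0n⟩, fun x y => ?_⟩
  change _ = inner ℂ (X0 x) (LinearMap.lTensor L (Matrix.toEuclideanLin A) (X0 y))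
  rw [hX0a, hX0a, map_sum, sum_inner, ← hV2]
  refine Finset.sum_congr rfl fun i _ => ?_
  rw [inner_sum]
  refine Finset.sum_congr rfl fun j _ => ?_
  rw [LinearMap.lTensor_tmul, TensorProduct.inner_tmul]
  have : inner ℂ (e i) (Matrix.toEuclideanLin A (e j)) = A i j := by
    rw [he, EuclideanSpace.inner_single_left]
    simp
  rw [this, mul_comm]

end

end Pool.Agent.Lib.P74fcff
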