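import Pool.Agent.Lib.P74fcff.Basic

set_option autoImplicit false
set_option linter.unusedSectionVars false

open scoped ComplexOrder Matrix

universe u

namespace Pool.Agent.Lib.P74fcff

/-- A vector space with a semi-inner product maps isometrically to a Hilbert space. -/
lemma exists_hilbert {U : Type u} [AddCommGroup U] [Module ℂ U]
    (c : PreInnerProductSpace.Core ℂ U) :
    ∃ (L : Type u) (_ : NormedAddCommGroup L) (_ : InnerProductSpace ℂ L)
      (_ : CompleteSpace L) (F : U →ₗ[ℂ] L), ∀ x y, inner ℂ (F x) (F y) = c.inner x y := by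
  let _ : SeminormedAddCommGroup U := @InnerProductSpace.Core.toSeminormedAddCommGroup ℂ U _ _ _ c
  let _ : InnerProductSpace ℂ U := InnerProductSpace.ofCore c
  refine ⟨UniformSpace.Completion U, inferInstance, inferInstance, inferInstance,
    (UniformSpace.Completion.toComplₗᵢ (𝕜 := ℂ) (E := U)).toLinearMap, fun x y => ?_⟩
  change inner ℂ (x : UniformSpace.Completion U) (y : UniformSpace.Completion U) = _
  rw [UniformSpace.Completion.inner_coe]

/-- A sesquilinear map vanishing on the diagonal is zero. -/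
lemma sesq_zero {E : Type*} [AddCommGroup E] [Module ℂ E] (S : E → E → ℂ)
    (hadd1 : ∀ x y z, S (x + y) z = S x z + S y z) (hadd2 : ∀ x y z, S x (y + z) = S x y + S x z)
    (hs1 : ∀ x y, S (Complex.I • x) y = -Complex.I * S x y)
    (hs2 : ∀ x y, S x (Complex.I • y) = Complex.I * S x y)
    (h0 : ∀ x, S x x = 0) (x y : E) : S x y = 0 := by
  have h1 := h0 (x + y)
  rw [hadd1, hadd2, hadd2, h0, h0] at h1
  have h2 := h0 (x + Complex.I • y)
  rw [hadd1, hadd2, hadd2, hs1, hs1, hs2, hs2, h0, h0] at h2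
  have h3 : S x y + S y x = 0 := by linear_combination h1
  have h4 : Complex.I * (S x y - S y x) = 0 := by linear_combination h2
  have h5 : S x y - S y x = 0 := by
    rcases mul_eq_zero.mp h4 with h | h
    · exact absurd h Complex.I_ne_zero
    · exact h
  linear_combination (h3 + h5) / 2

section ext

variable {ι : Type} [Fintype ι] [DecidableEq ι] {K : Type u} [NormedAddCommGroup K]
  [InnerProductSpace ℂ K]

/-- `(⟪z_j, k⟫)_j` -/
noncomputable def om (z : ι → K) (k : K) : ι → ℂ := fun j => inner ℂ (z j) k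

/-- the function on `ι → K` attached to a finitely supported family of pencil elements -/
noncomputable def pm (H W : Matrix ι ι ℂ) : (K →₀ ℝ × ℝ × ℝ) →ₗ[ℝ] ((ι → K) → ℝ) :=
  Finsupp.lsum ℝ fun k =>
    { toFun := fun c z => c.1 * qf 1 (om z k) + c.2.1 * qf H (om z k) + c.2.2 * qf W (om z k)
      map_add' := fun c d => by
        ext z; simp only [Prod.fst_add, Prod.snd_add, Pi.add_apply]; ring
      map_smul' := fun r c => by
        ext z
        simp only [Prod.smul_fst, Prod.smul_snd, smul_eq_mul, RingHom.id_apply, Pi.smul_apply]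
        ring }

lemma pm_single (H W : Matrix ι ι ℂ) (k : K) (c : ℝ × ℝ × ℝ) (z : ι → K) :
    pm H W (Finsupp.single k c) z =
      c.1 * qf 1 (om z k) + c.2.1 * qf H (om z k) + c.2.2 * qf W (om z k) := by
  unfold pm
  rw [Finsupp.lsum_single]
  rfl

/-- dominated functions -/
def dom (ι : Type) [Fintype ι] (K : Type u) [NormedAddCommGroup K] [InnerProductSpace ℂ K] :
    Submodule ℝ ((ι → K) → ℝ) where
  carrier := {φ | ∃ (C : ℝ) (s : Finset K), 0 ≤ C ∧
    ∀ z : ι → K, |φ z| ≤ C * ∑ k ∈ s, ∑ i, ‖inner ℂ (z i) k‖ ^ 2}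
  zero_mem' := ⟨0, ∅, le_rfl, fun z => by simp⟩
  add_mem' := by
    classical
    rintro φ ψ ⟨C, s, hC, h⟩ ⟨D, t, hD, h'⟩
    refine ⟨C + D, s ∪ t, add_nonneg hC hD, fun z => ?_⟩
    have h1 : ∑ k ∈ s, ∑ i, ‖inner ℂ (z i) k‖ ^ 2 ≤ ∑ k ∈ s ∪ t, ∑ i, ‖inner ℂ (z i) k‖ ^ 2 :=
      Finset.sum_le_sum_of_subset_of_nonneg Finset.subset_union_left
        fun i _ _ => by positivity
    have h2 : ∑ k ∈ t, ∑ i, ‖inner ℂ (z i) k‖ ^ 2 ≤ ∑ k ∈ s ∪ t, ∑ i, ‖inner ℂ (z i) k‖ ^ 2 :=
      Finset.sum_le_sum_of_subset_of_nonneg Finset.subset_union_right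
        fun i _ _ => by positivity
    calc |(φ + ψ) z| ≤ |φ z| + |ψ z| := abs_add_le _ _
      _ ≤ C * _ + D * _ := add_le_add ((h z).trans (mul_le_mul_of_nonneg_left h1 hC))
          ((h' z).trans (mul_le_mul_of_nonneg_left h2 hD))
      _ = _ := by ring
  smul_mem' := by
    rintro c φ ⟨C, s, hC, h⟩
    refine ⟨|c| * C, s, mul_nonneg (abs_nonneg _) hC, fun z => ?_⟩
    rw [Pi.smul_apply, smul_eq_mul, abs_mul, mul_assoc]
    exact mul_le_mul_of_nonneg_left (h z) (abs_nonneg _)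

/-- the cone for the extension theorem -/
noncomputable def cone (H W : Matrix ι ι ℂ) : PointedCone ℝ ((dom ι K) × (K →₀ ℝ × ℝ × ℝ)) where
  carrier := {p | ∀ z, 0 ≤ p.1.1 z + pm H W p.2 z}
  zero_mem' := fun z => by simp
  add_mem' := by
    intro p q hp hq z
    have h1 := hp z
    have h2 := hq z
    simp only [Prod.fst_add, Prod.snd_add, Submodule.coe_add, map_add, Pi.add_apply]
    linarith
  smul_mem' := by
    rintro ⟨c, hc⟩ p hp z
    have h1 := hp z
    have h2 := mul_nonneg hc h1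
    have e : (((⟨c, hc⟩ : {c : ℝ // 0 ≤ c}) • p).1.1 z + pm H W ((⟨c, hc⟩ : {c : ℝ // 0 ≤ c}) • p).2 z)
        = c * (p.1.1 z + pm H W p.2 z) := by
      have e1 : ((⟨c, hc⟩ : {c : ℝ // 0 ≤ c}) • p) = c • p := rfl
      rw [e1, Prod.smul_fst, Prod.smul_snd, map_smul]
      simp only [Submodule.coe_smul, Pi.smul_apply, smul_eq_mul]
      ring
    rw [e]
    exact h2

lemma mem_cone {H W : Matrix ι ι ℂ} {p : (dom ι K) × (K →₀ ℝ × ℝ × ℝ)} :
    p ∈ cone H W ↔ ∀ z, 0 ≤ p.1.1 z + pm H W p.2 z := Iff.rfl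

/-- positive extension -/
lemma exists_functional (H W : Matrix ι ι ℂ) (f : (K →₀ ℝ × ℝ × ℝ) →ₗ[ℝ] ℝ)
    (sep : ∀ b : K →₀ ℝ × ℝ × ℝ, (∀ z, 0 ≤ pm H W b z) → 0 ≤ f b) :
    ∃ G : dom ι K →ₗ[ℝ] ℝ, (∀ φ : dom ι K, (∀ z, 0 ≤ φ.1 z) → 0 ≤ G φ) ∧
      ∀ (φ : dom ι K) (b : K →₀ ℝ × ℝ × ℝ), (∀ z, φ.1 z = pm H W b z) → G φ = f b := by
  set f' : ((dom ι K) × (K →₀ ℝ × ℝ × ℝ)) →ₗ.[ℝ] ℝ :=
    ⟨Submodule.prod ⊥ ⊤, (f ∘ₗ LinearMap.snd ℝ _ _) ∘ₗ (Submodule.subtype _)⟩ with hf'
  have hf'a : ∀ x : f'.domain, f' x = f x.1.2 := fun x => rfl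
  have hdom : ∀ x : f'.domain, x.1.1 = 0 := fun x => x.2.1
  obtain ⟨g, hg1, hg2⟩ := riesz_extension (cone H W) f' (by
    intro x hx
    rw [hf'a]
    apply sep
    intro z
    have := mem_cone.mp hx z
    rw [hdom x] at this
    simpa using this) (by
    rintro ⟨φ, b⟩
    obtain ⟨C, s, hC, h⟩ := φ.2
    refine ⟨⟨(0, (∑ k ∈ s, Finsupp.single k ((C, 0, 0) : ℝ × ℝ × ℝ)) - b), ⟨rfl, trivial⟩⟩, ?_⟩
    rw [mem_cone]
    intro z
    have h1 := h z
    have e : ((0 : dom ι K), (∑ k ∈ s, Finsupp.single k ((C, 0, 0) : ℝ × ℝ × ℝ)) - b) + (φ, b) =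
        (φ, ∑ k ∈ s, Finsupp.single k ((C, 0, 0) : ℝ × ℝ × ℝ)) := by
      simp
    rw [e]
    simp only
    have e2 : pm H W (∑ k ∈ s, Finsupp.single k ((C, 0, 0) : ℝ × ℝ × ℝ)) z =
        C * ∑ k ∈ s, ∑ i, ‖inner ℂ (z i) k‖ ^ 2 := by
      rw [map_sum, Finset.sum_apply, Finset.mul_sum]
      refine Finset.sum_congr rfl fun k _ => ?_
      rw [pm_single, qf_one]
      simp [om]
    rw [e2]
    have := neg_abs_le (φ.1 z)
    linarith)
  have hgf : ∀ b, g (0, b) = f b := fun b => by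
    have := hg1 ⟨(0, b), ⟨rfl, trivial⟩⟩
    rw [this, hf'a]
  refine ⟨g ∘ₗ LinearMap.inl ℝ _ _, fun φ hφ => ?_, fun φ b hφ => ?_⟩
  · rw [LinearMap.comp_apply, LinearMap.inl_apply]
    apply hg2
    rw [mem_cone]
    intro z
    simpa using hφ z
  · rw [LinearMap.comp_apply, LinearMap.inl_apply]
    have h1 : 0 ≤ g (φ, -b) := hg2 _ (mem_cone.mpr fun z => by
      rw [map_neg]; simp [hφ z])
    have h2 : 0 ≤ g (-φ, b) := hg2 _ (mem_cone.mpr fun z => by
      simp [hφ z])
    have e1 : ((φ, -b) : (dom ι K) × (K →₀ ℝ × ℝ × ℝ)) = (φ, 0) - (0, b) := by simp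
    have e2 : ((-φ, b) : (dom ι K) × (K →₀ ℝ × ℝ × ℝ)) = (0, b) - (φ, 0) := by simp
    rw [e1, map_sub, hgf] at h1
    rw [e2, map_sub, hgf] at h2
    linarith

/-- the inner product on `ι → K` -/
noncomputable def ip (z u : ι → K) : ℂ := ∑ j, inner ℂ (z j) (u j)

lemma ip_add (z u v : ι → K) : ip z (u + v) = ip z u + ip z v := by
  simp [ip, Finset.sum_add_distrib]

lemma ip_smul (z u : ι → K) (c : ℂ) : ip z (c • u) = c * ip z u := by
  simp [ip, Finset.mul_sum]

lemma ip_single (z : ι → K) (i : ι) (x : K) : ip z (Pi.single i x) = om z x i := by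
  unfold ip om
  rw [Finset.sum_eq_single i]
  · simp
  · intro j _ hj
    rw [Pi.single_eq_of_ne hj, inner_zero_right]
  · intro h; exact absurd (Finset.mem_univ i) h

lemma ip_sq_le (z u : ι → K) (s : Finset K) (hs : ∀ j, u j ∈ s) :
    ‖ip z u‖ ^ 2 ≤ Fintype.card ι * ∑ k ∈ s, ∑ i, ‖inner ℂ (z i) k‖ ^ 2 := by
  have h1 : ‖ip z u‖ ≤ ∑ j, ‖inner ℂ (z j) (u j)‖ := norm_sum_le _ _
  have h2 : (∑ j, ‖inner ℂ (z j) (u j)‖) ^ 2 ≤
      Fintype.card ι * ∑ j, ‖inner ℂ (z j) (u j)‖ ^ 2 := by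
    have := sq_sum_le_card_mul_sum_sq (s := (Finset.univ : Finset ι))
      (f := fun j => ‖inner ℂ (z j) (u j)‖)
    simpa using this
  have h3 : ∑ j, ‖inner ℂ (z j) (u j)‖ ^ 2 ≤ ∑ k ∈ s, ∑ i, ‖inner ℂ (z i) k‖ ^ 2 := by
    rw [Finset.sum_comm]
    refine Finset.sum_le_sum fun j _ => ?_
    exact Finset.single_le_sum (f := fun k => ‖inner ℂ (z j) k‖ ^ 2)
      (fun k _ => by positivity) (hs j)
  calc ‖ip z u‖ ^ 2 ≤ (∑ j, ‖inner ℂ (z j) (u j)‖) ^ 2 :=
        pow_le_pow_left₀ (norm_nonneg _) h1 2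
    _ ≤ _ := h2.trans (mul_le_mul_of_nonneg_left h3 (Nat.cast_nonneg _))

lemma norm_prod_le (z u v : ι → K) (s : Finset K) (hs : ∀ j, u j ∈ s) (ht : ∀ j, v j ∈ s) :
    ‖star (ip z u) * ip z v‖ ≤ Fintype.card ι * ∑ k ∈ s, ∑ i, ‖inner ℂ (z i) k‖ ^ 2 := by
  have h1 := ip_sq_le z u s hs
  have h2 := ip_sq_le z v s ht
  rw [norm_mul, norm_star]
  nlinarith [sq_nonneg (‖ip z u‖ - ‖ip z v‖)]

lemma re_mem (u v : ι → K) : (fun z => (star (ip z u) * ip z v).re) ∈ dom ι K := by
  classical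
  refine ⟨Fintype.card ι, Finset.univ.image u ∪ Finset.univ.image v, Nat.cast_nonneg _,
    fun z => ?_⟩
  refine (Complex.abs_re_le_norm _).trans (norm_prod_le z u v _ ?_ ?_)
  · intro j; simp
  · intro j; simp

lemma im_mem (u v : ι → K) : (fun z => (star (ip z u) * ip z v).im) ∈ dom ι K := by
  classical
  refine ⟨Fintype.card ι, Finset.univ.image u ∪ Finset.univ.image v, Nat.cast_nonneg _,
    fun z => ?_⟩
  refine (Complex.abs_im_le_norm _).trans (norm_prod_le z u v _ ?_ ?_)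
  · intro j; simp
  · intro j; simp

/-- real part function -/
noncomputable def pRe (u v : ι → K) : dom ι K := ⟨_, re_mem u v⟩

/-- imaginary part function -/
noncomputable def pIm (u v : ι → K) : dom ι K := ⟨_, im_mem u v⟩

/-- the semi-inner product obtained from a positive functional -/
@[instance_reducible]
noncomputable def coreOf (G : dom ι K →ₗ[ℝ] ℝ) (hG : ∀ φ : dom ι K, (∀ z, 0 ≤ φ.1 z) → 0 ≤ G φ) :
    PreInnerProductSpace.Core ℂ (ι → K) where
  inner u v := ⟨G (pRe u v), G (pIm u v)⟩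
  conj_inner_symm := by
    intro u v
    have h1 : pRe v u = pRe u v := by
      apply Subtype.ext; ext z
      simp only [pRe, Complex.star_def, Complex.mul_re, Complex.conj_re, Complex.conj_im]; ring
    have h2 : pIm v u = - pIm u v := by
      apply Subtype.ext; ext z
      simp only [pIm, Complex.star_def, Complex.mul_im, Complex.conj_re, Complex.conj_im,
        NegMemClass.coe_neg, Pi.neg_apply]; ring
    apply Complex.ext
    · simp [h1]
    · simp [h2]
  re_inner_nonneg := by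
    intro u
    apply hG
    intro z
    simp only [pRe, Complex.star_def, Complex.mul_re, Complex.conj_re, Complex.conj_im]
    nlinarith [sq_nonneg (ip z u).re, sq_nonneg (ip z u).im]
  add_left := by
    intro u v w
    have h1 : pRe (u + v) w = pRe u w + pRe v w := by
      apply Subtype.ext; ext z
      simp only [pRe, ip_add, Complex.star_def, Complex.mul_re, Complex.conj_re, Complex.conj_im,
        Complex.add_re, Complex.add_im, Submodule.coe_add, Pi.add_apply]; ring
    have h2 : pIm (u + v) w = pIm u w + pIm v w := by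
      apply Subtype.ext; ext z
      simp only [pIm, ip_add, Complex.star_def, Complex.mul_im, Complex.conj_re, Complex.conj_im,
        Complex.add_re, Complex.add_im, Submodule.coe_add, Pi.add_apply]; ring
    apply Complex.ext
    · simp [h1]
    · simp [h2]
  smul_left := by
    intro u v r
    have h1 : pRe (r • u) v = r.re • pRe u v + r.im • pIm u v := by
      apply Subtype.ext; ext z
      simp only [pRe, pIm, ip_smul, Complex.star_def, Complex.mul_re, Complex.mul_im,
        Complex.conj_re, Complex.conj_im, Submodule.coe_add, Submodule.coe_smul, Pi.add_apply,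
        Pi.smul_apply, smul_eq_mul]
      ring
    have h2 : pIm (r • u) v = r.re • pIm u v - r.im • pRe u v := by
      apply Subtype.ext; ext z
      simp only [pRe, pIm, ip_smul, Complex.star_def, Complex.mul_re, Complex.mul_im,
        Complex.conj_re, Complex.conj_im, Submodule.coe_sub, Submodule.coe_smul, Pi.sub_apply,
        Pi.smul_apply, smul_eq_mul]
      ring
    apply Complex.ext
    · simp [h1]
    · simp [h2]; ring

lemma coreOf_inner (G : dom ι K →ₗ[ℝ] ℝ) (hG : ∀ φ : dom ι K, (∀ z, 0 ≤ φ.1 z) → 0 ≤ G φ)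
    (u v : ι → K) : (coreOf G hG).inner u v = ⟨G (pRe u v), G (pIm u v)⟩ := rfl

/-- From a separation property to a dilation. -/
theorem gns {H W : Matrix ι ι ℂ} (hH : H.IsHermitian) (hW : W.IsHermitian)
    {T1 T2 : K →ₗ[ℂ] K} (hT1 : ∀ x y, inner ℂ x (T1 y) = inner ℂ (T1 x) y)
    (hT2 : ∀ x y, inner ℂ x (T2 y) = inner ℂ (T2 x) y)
    (sep : ∀ b : K →₀ ℝ × ℝ × ℝ, (∀ z, 0 ≤ pm H W b z) →
      0 ≤ b.sum fun k c => c.1 * ‖k‖ ^ 2 + c.2.1 * (inner ℂ k (T1 k)).re +
        c.2.2 * (inner ℂ k (T2 k)).re) :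
    ∃ (L : Type u) (_ : NormedAddCommGroup L) (_ : InnerProductSpace ℂ L)
      (_ : CompleteSpace L) (V : ι → K →ₗ[ℂ] L),
      (∀ x y, ∑ i, inner ℂ (V i x) (V i y) = inner ℂ x y) ∧
      (∀ x y, ∑ i, ∑ j, H i j * inner ℂ (V i x) (V j y) = inner ℂ x (T1 y)) ∧
      (∀ x y, ∑ i, ∑ j, W i j * inner ℂ (V i x) (V j y) = inner ℂ x (T2 y)) := by
  set f : (K →₀ ℝ × ℝ × ℝ) →ₗ[ℝ] ℝ := Finsupp.lsum ℝ fun k =>
    { toFun := fun c => c.1 * ‖k‖ ^ 2 + c.2.1 * (inner ℂ k (T1 k)).re +
        c.2.2 * (inner ℂ k (T2 k)).re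
      map_add' := fun c d => by
        simp only [Prod.fst_add, Prod.snd_add]; ring
      map_smul' := fun r c => by
        simp only [Prod.smul_fst, Prod.smul_snd, smul_eq_mul, RingHom.id_apply]
        ring } with hf
  have hfs : ∀ k c, f (Finsupp.single k c) = c.1 * ‖k‖ ^ 2 + c.2.1 * (inner ℂ k (T1 k)).re +
        c.2.2 * (inner ℂ k (T2 k)).re := fun k c => by
    rw [hf, Finsupp.lsum_single]; rfl
  obtain ⟨G, hG1, hG2⟩ := exists_functional H W f (fun b hb => sep b hb)
  obtain ⟨L, i1, i2, i3, F, hF⟩ := exists_hilbert (coreOf G hG1)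
  have hV : ∀ (x y : K) (i j : ι), inner ℂ (F (Pi.single i x)) (F (Pi.single j y)) =
      (⟨G (pRe (Pi.single i x) (Pi.single j y)), G (pIm (Pi.single i x) (Pi.single j y))⟩ : ℂ) :=
    fun x y i j => by rw [hF, coreOf_inner]
  have key1 : ∀ (M : Matrix ι ι ℂ) (hM : M.IsHermitian) (c : ℝ × ℝ × ℝ)
      (hc : ∀ ω, qf M ω = c.1 * qf 1 ω + c.2.1 * qf H ω + c.2.2 * qf W ω) (k : K),
      ∑ i, ∑ j, M i j * inner ℂ (F (Pi.single i k)) (F (Pi.single j k)) =
        ((f (Finsupp.single k c) : ℝ) : ℂ) := by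
    intro M hM c hc k
    apply Complex.ext
    · rw [Complex.ofReal_re]
      have e1 : (∑ i, ∑ j, M i j * inner ℂ (F (Pi.single i k)) (F (Pi.single j k))).re =
          G (∑ i, ∑ j, ((M i j).re • pRe (Pi.single i k) (Pi.single j k) -
            (M i j).im • pIm (Pi.single i k) (Pi.single j k))) := by
        rw [map_sum, Complex.re_sum]
        refine Finset.sum_congr rfl fun i _ => ?_
        rw [map_sum, Complex.re_sum]
        refine Finset.sum_congr rfl fun j _ => ?_
        rw [hV, map_sub, map_smul, map_smul, Complex.mul_re, smul_eq_mul, smul_eq_mul]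
      rw [e1]
      apply hG2
      intro z
      rw [pm_single, ← hc]
      simp only [Submodule.coe_sum, Finset.sum_apply, Submodule.coe_sub, Submodule.coe_smul,
        Pi.sub_apply, Pi.smul_apply, smul_eq_mul, pRe, pIm, ip_single, qf, dotProduct,
        Matrix.mulVec, Complex.re_sum, Finset.mul_sum, Pi.star_apply]
      refine Finset.sum_congr rfl fun i _ => ?_
      refine Finset.sum_congr rfl fun j _ => ?_
      simp only [Complex.star_def, Complex.mul_re, Complex.mul_im, Complex.conj_re,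
        Complex.conj_im]
      ring
    · rw [Complex.ofReal_im]
      have e1 : star (∑ i, ∑ j, M i j * inner ℂ (F (Pi.single i k)) (F (Pi.single j k))) =
          ∑ i, ∑ j, M i j * inner ℂ (F (Pi.single i k)) (F (Pi.single j k)) := by
        rw [star_sum]
        simp only [star_sum, star_mul']
        rw [Finset.sum_comm]
        refine Finset.sum_congr rfl fun i _ => ?_
        refine Finset.sum_congr rfl fun j _ => ?_
        rw [hM.apply i j]
        congr 1
        exact inner_conj_symm _ _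
      have := congrArg Complex.im e1
      simp only [Complex.star_def, Complex.conj_im] at this
      linarith
  have key2 : ∀ (M : Matrix ι ι ℂ) (hM : M.IsHermitian) (c : ℝ × ℝ × ℝ)
      (hc : ∀ ω, qf M ω = c.1 * qf 1 ω + c.2.1 * qf H ω + c.2.2 * qf W ω)
      (T : K →ₗ[ℂ] K) (hT : ∀ k, ((f (Finsupp.single k c) : ℝ) : ℂ) = inner ℂ k (T k)) (x y : K),
      ∑ i, ∑ j, M i j * inner ℂ (F (Pi.single i x)) (F (Pi.single j y)) = inner ℂ x (T y) := by
    intro M hM c hc T hT x y
    have := sesq_zero (fun x y => ∑ i, ∑ j, M i j *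
      inner ℂ (F (Pi.single i x)) (F (Pi.single j y)) - inner ℂ x (T y)) ?_ ?_ ?_ ?_ ?_ x y
    · exact sub_eq_zero.mp this
    · intro x y z
      simp only [Pi.single_add, map_add, inner_add_left, mul_add, Finset.sum_add_distrib]
      ring
    · intro x y z
      simp only [Pi.single_add, map_add, inner_add_right, mul_add, Finset.sum_add_distrib]
      ring
    · intro x y
      simp only [Pi.single_smul, map_smul, inner_smul_left, Complex.conj_I, mul_sub,
        Finset.mul_sum]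
      congr 1
      refine Finset.sum_congr rfl fun i _ => Finset.sum_congr rfl fun j _ => ?_
      ring
    · intro x y
      simp only [Pi.single_smul, map_smul, inner_smul_right, mul_sub, Finset.mul_sum]
      congr 1
      refine Finset.sum_congr rfl fun i _ => Finset.sum_congr rfl fun j _ => ?_
      ring
    · intro k
      rw [key1 M hM c hc k, hT k, sub_self]
  have him : ∀ (T : K →ₗ[ℂ] K) (hT : ∀ x y, inner ℂ x (T y) = inner ℂ (T x) y) (k : K),
      (((inner ℂ k (T k)).re : ℝ) : ℂ) = inner ℂ k (T k) := by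
    intro T hT k
    apply Complex.ext
    · rw [Complex.ofReal_re]
    · rw [Complex.ofReal_im]
      have h1 : star (inner ℂ k (T k)) = inner ℂ k (T k) := by
        conv_rhs => rw [hT]
        exact inner_conj_symm _ _
      have := congrArg Complex.im h1
      simp only [Complex.star_def, Complex.conj_im] at this
      linarith
  refine ⟨L, i1, i2, i3, fun i => F ∘ₗ LinearMap.single ℂ (fun _ => K) i, ?_, ?_, ?_⟩
  · intro x y
    have h := key2 1 Matrix.isHermitian_one (1, 0, 0) (fun ω => by simp) LinearMap.id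
      (fun k => by
        rw [hfs, LinearMap.id_apply, inner_self_eq_norm_sq_to_K]
        simp) x y
    rw [LinearMap.id_apply] at h
    rw [← h]
    refine Finset.sum_congr rfl fun i _ => ?_
    rw [Finset.sum_eq_single i]
    · simp
    · intro j _ hj
      rw [Matrix.one_apply_ne hj.symm, zero_mul]
    · intro h; exact absurd (Finset.mem_univ i) h
  · intro x y
    exact key2 H hH (0, 1, 0) (fun ω => by simp) T1 (fun k => by
      rw [hfs, ← him T1 hT1 k]; simp) x y
  · intro x y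
    exact key2 W hW (0, 0, 1) (fun ω => by simp) T2 (fun k => by
      rw [hfs, ← him T2 hT2 k]; simp) x y

end ext

end Pool.Agent.Lib.P74fcff
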