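import Mathlib

set_option autoImplicit false

open scoped Matrix

universe u

namespace Pool.Agent.Lib.P74fcff.Statement

/-- The numerical range `W(T) = {⟨Tx,x⟩ : ‖x‖ = 1}` of a bounded operator `T` on a complex inner
product space. (Mathlib's `inner ℂ x y` is conjugate linear in `x` and linear in `y`, so `⟨Tx,x⟩` is
`inner ℂ x (T x)`.) -/
def numRange {K : Type*} [NormedAddCommGroup K] [InnerProductSpace ℂ K] (T : K →L[ℂ] K) : Set ℂ :=
  {z | ∃ x : K, ‖x‖ = 1 ∧ inner ℂ x (T x) = z}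

/-- The numerical range `W(A) = {v*Av : v*v = 1}` of an `n × n` matrix, regarded as an operator on
`ℂ^n`. -/
def matRange {n : ℕ} (A : Matrix (Fin n) (Fin n) ℂ) : Set ℂ :=
  {z | ∃ v : Fin n → ℂ, star v ⬝ᵥ v = 1 ∧ star v ⬝ᵥ (A *ᵥ v) = z}

/-- The operator `I_H ⊗ A` on `H ⊗ ℂ^n`. The Hilbert space `H ⊗ ℂ^n` is realised as
`PiLp 2 (fun _ : Fin n => H)`, the Hilbert space direct sum of `n` copies of `H`, where `h ⊗ e_j` is
`h` in the `j`-th place; `I_H ⊗ A` sends `(h_j)_j` to `(∑_j A i j • h_j)_i`. -/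
noncomputable def ampl {H : Type*} [NormedAddCommGroup H] [InnerProductSpace ℂ H] {n : ℕ}
    (A : Matrix (Fin n) (Fin n) ℂ) (v : PiLp 2 fun _ : Fin n => H) : PiLp 2 fun _ : Fin n => H :=
  WithLp.toLp 2 fun i => ∑ j, A i j • v j

/-- The number `⟨(I_H ⊗ A) w, v⟩` for `v, w` in `H ⊗ ℂ^n`. -/
noncomputable def amplForm {H : Type*} [NormedAddCommGroup H] [InnerProductSpace ℂ H] {n : ℕ}
    (A : Matrix (Fin n) (Fin n) ℂ) (v w : PiLp 2 fun _ : Fin n => H) : ℂ :=
  inner ℂ v (ampl A w)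

/-- `T = X* (I_H ⊗ A) X`, where `X : K → H ⊗ ℂ^n` is a linear isometry (that is, `X* X = I_K`). -/
def IsDilation {K H : Type*} [NormedAddCommGroup K] [InnerProductSpace ℂ K]
    [NormedAddCommGroup H] [InnerProductSpace ℂ H] {n : ℕ} (A : Matrix (Fin n) (Fin n) ℂ)
    (T : K →L[ℂ] K) (X : K →ₗᵢ[ℂ] PiLp 2 fun _ : Fin n => H) : Prop :=
  ∀ x y : K, inner ℂ x (T y) = amplForm A (X x) (X y)

/-- Property (D) of an `n × n` matrix `A`: for every Hilbert space `K` and every bounded operator `T`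
on `K` with `W(T) ⊆ W(A)` there are a Hilbert space `H` and a linear isometry `X : K → H ⊗ ℂ^n` with
`T = X* (I_H ⊗ A) X`. -/
def PropertyD {n : ℕ} (A : Matrix (Fin n) (Fin n) ℂ) : Prop :=
  ∀ (K : Type u) [NormedAddCommGroup K] [InnerProductSpace ℂ K] [CompleteSpace K]
    (T : K →L[ℂ] K), numRange T ⊆ matRange A →
    ∃ (H : Type u) (_ : NormedAddCommGroup H) (_ : InnerProductSpace ℂ H) (_ : CompleteSpace H)
      (X : K →ₗᵢ[ℂ] PiLp 2 fun _ : Fin n => H), IsDilation A T X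

end Pool.Agent.Lib.P74fcff.Statement
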