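import Pool.Agent.Lib.P74fcff.Defs
import Pool.Agent.Lib.P74fcff.Statement

set_option autoImplicit false
set_option linter.unusedSectionVars false

open scoped ComplexOrder Matrix MatrixOrder

universe u

namespace Pool.Agent.Lib.P74fcff

/-- coordinate version of property (D) -/
def PropertyV {n : ℕ} (A : Matrix (Fin n) (Fin n) ℂ) : Prop :=
  ∀ (K : Type u) [NormedAddCommGroup K] [InnerProductSpace ℂ K] [CompleteSpace K]
    (T : K →L[ℂ] K), numRange T ⊆ numRange (Matrix.toEuclideanCLM (𝕜 := ℂ) A) →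
      DilV A (T : K →ₗ[ℂ] K)

lemma matRange_eq {n : ℕ} (A : Matrix (Fin n) (Fin n) ℂ) :
    Statement.matRange A = numRange (Matrix.toEuclideanCLM (𝕜 := ℂ) A) := by
  ext z
  constructor
  · rintro ⟨v, hv, hz⟩
    refine ⟨WithLp.toLp 2 v, ?_, ?_⟩
    · have h1 := qf_one_eq_norm (WithLp.toLp 2 v : EuclideanSpace ℂ (Fin n))
      have h2 : qf 1 v = 1 := by
        unfold qf; rw [Matrix.one_mulVec, hv]; simp
      have h4 : ‖(WithLp.toLp 2 v : EuclideanSpace ℂ (Fin n))‖ ^ 2 = 1 := by
        rw [← h1]; exact h2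
      exact (pow_eq_one_iff_of_nonneg (norm_nonneg _) two_ne_zero).mp h4
    · rw [toEuclideanCLM_inner]; exact hz
  · rintro ⟨x, hx, hz⟩
    refine ⟨x.ofLp, ?_, ?_⟩
    · have h1 := qf_one_eq_norm x
      have h2 := herm_dot_eq (herm_one (κ := Fin n)) x.ofLp
      rw [Matrix.one_mulVec] at h2
      rw [h2, h1, hx]
      simp
    · rw [← toEuclideanCLM_inner]; exact hz

lemma dilV_iff {n : ℕ} {A : Matrix (Fin n) (Fin n) ℂ} {K : Type u} [NormedAddCommGroup K]
    [InnerProductSpace ℂ K] {T : K →L[ℂ] K} :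
    DilV A (T : K →ₗ[ℂ] K) ↔
    ∃ (H : Type u) (_ : NormedAddCommGroup H) (_ : InnerProductSpace ℂ H) (_ : CompleteSpace H)
      (X : K →ₗᵢ[ℂ] PiLp 2 fun _ : Fin n => H), Statement.IsDilation A T X := by
  have hform : ∀ {H : Type u} [NormedAddCommGroup H] [InnerProductSpace ℂ H]
      (v w : PiLp 2 fun _ : Fin n => H), Statement.amplForm A v w =
      ∑ i, ∑ j, A i j * inner ℂ (v i) (w j) := by
    intro H _ _ v w
    unfold Statement.amplForm Statement.ampl
    rw [PiLp.inner_apply]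
    refine Finset.sum_congr rfl fun i _ => ?_
    simp only [inner_sum, inner_smul_right]
  constructor
  · rintro ⟨L, i1, i2, i3, V, hV1, hV2⟩
    set X0 : K →ₗ[ℂ] PiLp 2 fun _ : Fin n => L :=
      { toFun := fun k => WithLp.toLp 2 fun i => V i k
        map_add' := fun x y => by
          ext i; simp
        map_smul' := fun c x => by
          ext i; simp } with hX0
    have hX0n : ∀ k, ‖X0 k‖ = ‖k‖ := by
      intro k
      have h1 : inner ℂ (X0 k) (X0 k) = inner ℂ k k := by
        rw [PiLp.inner_apply, ← hV1]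
        rfl
      have h0 := inner_self_eq_norm_sq_to_K (𝕜 := ℂ) (X0 k)
      have h0' := inner_self_eq_norm_sq_to_K (𝕜 := ℂ) k
      have h1' := (h0.symm.trans h1).trans h0'
      have h2 : ‖X0 k‖ ^ 2 = ‖k‖ ^ 2 := by
        have h3 : ((‖X0 k‖ ^ 2 : ℝ) : ℂ) = ((‖k‖ ^ 2 : ℝ) : ℂ) := by
          push_cast
          exact h1'
        exact_mod_cast h3
      exact (sq_eq_sq₀ (norm_nonneg _) (norm_nonneg _)).mp h2
    refine ⟨L, i1, i2, i3, ⟨X0, hX0n⟩, fun x y => ?_⟩
    rw [hform]
    exact (hV2 x y).symm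
  · rintro ⟨L, i1, i2, i3, X, hX⟩
    refine ⟨L, i1, i2, i3, fun i =>
      { toFun := fun k => X k i
        map_add' := fun x y => by simp
        map_smul' := fun c x => by simp }, fun x y => ?_, fun x y => ?_⟩
    · have h1 : inner ℂ (X x) (X y) = inner ℂ x y := X.inner_map_map _ _
      rw [← h1, PiLp.inner_apply]
      rfl
    · have h1 := hX x y
      rw [hform] at h1
      exact h1.symm

lemma propertyD_iff {n : ℕ} (A : Matrix (Fin n) (Fin n) ℂ) :
    Statement.PropertyD.{u} A ↔ PropertyV.{u} A := by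
  constructor
  · intro h K _ _ _ T hT
    rw [dilV_iff]
    apply h K T
    rw [matRange_eq]
    exact hT
  · intro h K _ _ _ T hT
    rw [matRange_eq] at hT
    exact dilV_iff.mp (h K T hT)

end Pool.Agent.Lib.P74fcff
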