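import Pool.Agent.Lib.P74fcff.Defs

set_option autoImplicit false
set_option linter.unusedSectionVars false

open scoped ComplexOrder Matrix MatrixOrder TensorProduct

universe u

namespace Pool.Agent.Lib.P74fcff

section TH

variable {K : Type u} [NormedAddCommGroup K] [InnerProductSpace ℂ K]

/-- Toeplitz-Hausdorff, normalised form. -/
lemma th_aux (S : K →L[ℂ] K) {x y : K} (hx : ‖x‖ = 1) (hy : ‖y‖ = 1)
    (hx0 : inner ℂ x (S x) = 0) (hy1 : inner ℂ y (S y) = 1) {s : ℝ} (hs0 : 0 ≤ s) (hs1 : s ≤ 1) :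
    ∃ z : K, ‖z‖ = 1 ∧ inner ℂ z (S z) = s := by
  set p := inner ℂ x (S y) with hp
  set q := inner ℂ y (S x) with hq
  -- choice of the phase
  obtain ⟨ω, hω, hωim⟩ : ∃ ω : ℂ, ‖ω‖ = 1 ∧ (ω * p + star ω * q).im = 0 := by
    have him : ∀ ω : ℂ, (ω * p + star ω * q).im = (ω * (p - star q)).im := by
      intro ω
      simp only [Complex.star_def, Complex.add_im, Complex.mul_im, Complex.conj_re,
        Complex.conj_im, Complex.sub_re, Complex.sub_im]
      ring
    by_cases h : p - star q = 0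
    · refine ⟨1, by simp, ?_⟩
      rw [him, h]; simp
    · have hn : ‖p - star q‖ ≠ 0 := norm_ne_zero_iff.mpr h
      refine ⟨star (p - star q) * ((‖p - star q‖⁻¹ : ℝ) : ℂ), ?_, ?_⟩
      · rw [norm_mul, norm_star, Complex.norm_real, Real.norm_of_nonneg (by positivity)]
        exact mul_inv_cancel₀ hn
      · rw [him, mul_right_comm, mul_comm (star _), Complex.star_def, Complex.mul_conj]
        rw [← Complex.ofReal_mul, Complex.ofReal_im]
  set z : ℝ → K := fun t => ((1 - t : ℝ) : ℂ) • x + ((t : ℂ) * ω) • y with hz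
  have hval : ∀ t : ℝ, inner ℂ (z t) (S (z t)) =
      ((t ^ 2 + (1 - t) * t * (ω * p + star ω * q).re : ℝ) : ℂ) := by
    intro t
    have e1 : inner ℂ (z t) (S (z t)) = (t ^ 2 : ℂ) * (star ω * ω) +
        ((1 - t) * t : ℂ) * (ω * p + star ω * q) := by
      simp only [hz, map_add, map_smul, inner_add_left, inner_add_right, inner_smul_left,
        inner_smul_right, hx0, hy1, ← hp, ← hq, Complex.conj_ofReal, map_mul, Complex.star_def]
      push_cast
      ring
    have e2 : star ω * ω = 1 := by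
      rw [Complex.star_def, Complex.conj_mul', hω]; simp
    have e3 : ω * p + star ω * q = (((ω * p + star ω * q).re : ℝ) : ℂ) := by
      apply Complex.ext
      · simp
      · rw [Complex.ofReal_im]; exact hωim
    rw [e1, e2, mul_one]
    conv_lhs => rw [e3]
    push_cast
    ring
  set h : ℝ → ℝ := fun t => (t ^ 2 + (1 - t) * t * (ω * p + star ω * q).re) - s * ‖z t‖ ^ 2
    with hh
  have hzc : Continuous z := by rw [hz]; fun_prop
  have hcont : Continuous h := by rw [hh]; fun_prop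
  have h0 : h 0 = -s := by simp [hh, hz, hx]
  have h1 : h 1 = 1 - s := by simp [hh, hz, norm_smul, hω, hy]
  obtain ⟨t, -, ht⟩ : (0 : ℝ) ∈ h '' Set.Icc 0 1 := by
    apply intermediate_value_Icc zero_le_one hcont.continuousOn
    rw [h0, h1]
    constructor <;> linarith
  have hz0 : z t ≠ 0 := by
    intro hzt
    have e1 : ((1 - t : ℝ) : ℂ) • x = -(((t : ℂ) * ω) • y) := eq_neg_of_add_eq_zero_left hzt
    have e2 : |1 - t| = |t| := by
      have := congrArg norm e1
      rw [norm_neg, norm_smul, norm_smul, norm_mul, hω, hx, hy, Complex.norm_real,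
        Complex.norm_real, mul_one, mul_one, mul_one] at this
      simpa only [Real.norm_eq_abs] using this
    have e3 : inner ℂ (((1 - t : ℝ) : ℂ) • x) (S (((1 - t : ℝ) : ℂ) • x)) =
        inner ℂ (-(((t : ℂ) * ω) • y)) (S (-(((t : ℂ) * ω) • y))) := by rw [e1]
    simp only [map_smul, map_neg, inner_neg_left, inner_neg_right, inner_smul_left,
      inner_smul_right, hx0, hy1, mul_zero, mul_one, map_mul, Complex.conj_ofReal] at e3
    have e4 : (t : ℂ) * ω * ((t : ℂ) * (starRingEnd ℂ) ω) = (t : ℂ) ^ 2 := by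
      have : (starRingEnd ℂ) ω * ω = 1 := by rw [Complex.conj_mul', hω]; simp
      linear_combination ((t : ℂ) ^ 2) * this
    have e5 : (t : ℂ) ^ 2 = 0 := by
      rw [← e4]
      linear_combination -e3
    have e6 : t = 0 := by exact_mod_cast pow_eq_zero_iff (two_ne_zero) |>.mp e5
    rw [e6] at e2
    norm_num at e2
  have hzn : ‖z t‖ ≠ 0 := norm_ne_zero_iff.mpr hz0
  refine ⟨((‖z t‖⁻¹ : ℝ) : ℂ) • z t, ?_, ?_⟩
  · rw [norm_smul, Complex.norm_real, Real.norm_of_nonneg (by positivity)]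
    exact inv_mul_cancel₀ hzn
  · rw [map_smul, inner_smul_left, inner_smul_right, hval, Complex.conj_ofReal]
    have e1 : t ^ 2 + (1 - t) * t * (ω * p + star ω * q).re = s * ‖z t‖ ^ 2 := by
      rw [hh] at ht; linarith
    rw [e1, ← Complex.ofReal_mul, ← Complex.ofReal_mul]
    congr 1
    field_simp

/-- The Toeplitz-Hausdorff theorem. -/
theorem convex_numRange (T : K →L[ℂ] K) : Convex ℝ (numRange T) := by
  rintro a ⟨x, hx, hxa⟩ b ⟨y, hy, hyb⟩ r s hr hs hrs
  by_cases hab : a = b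
  · subst hab
    refine ⟨x, hx, ?_⟩
    rw [hxa, ← add_smul, hrs, one_smul]
  have hba : b - a ≠ 0 := sub_ne_zero.mpr (Ne.symm hab)
  have hxx : inner ℂ x x = (1 : ℂ) := by
    rw [inner_self_eq_norm_sq_to_K, hx]; simp
  have hyy : inner ℂ y y = (1 : ℂ) := by
    rw [inner_self_eq_norm_sq_to_K, hy]; simp
  set S : K →L[ℂ] K := (b - a)⁻¹ • (T - a • 1) with hS
  have hSv : ∀ v, inner ℂ v (S v) = (b - a)⁻¹ * (inner ℂ v (T v) - a * inner ℂ v v) := by
    intro v
    simp [hS]
  obtain ⟨z, hz, hzs⟩ := th_aux S hx hy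
    (by rw [hSv, hxa, hxx]; simp) (by rw [hSv, hyb, hyy]; field_simp) hs (by linarith)
  have hzz : inner ℂ z z = (1 : ℂ) := by
    rw [inner_self_eq_norm_sq_to_K, hz]; simp
  refine ⟨z, hz, ?_⟩
  rw [hSv, hzz, mul_one] at hzs
  have h1 : inner ℂ z (T z) = a + (b - a) * s := by
    have h2 : inner ℂ z (T z) - a = (b - a) * s := by
      rw [← hzs, mul_inv_cancel_left₀ hba]
    linear_combination h2
  rw [h1]
  have h2 : (r : ℂ) = 1 - s := by
    have : r = 1 - s := by linarith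
    rw [this]; push_cast; ring
  simp only [Complex.real_smul]
  rw [h2]
  ring

lemma isCompact_numRange {n : ℕ} (A : Matrix (Fin n) (Fin n) ℂ) :
    IsCompact (numRange (Matrix.toEuclideanCLM (𝕜 := ℂ) A)) := by
  have h1 : numRange (Matrix.toEuclideanCLM (𝕜 := ℂ) A) =
      (fun x : EuclideanSpace ℂ (Fin n) => inner ℂ x (Matrix.toEuclideanCLM (𝕜 := ℂ) A x)) ''
        Metric.sphere 0 1 := by
    ext z
    simp [numRange]
  rw [h1]
  apply (isCompact_sphere (0 : EuclideanSpace ℂ (Fin n)) 1).image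
  fun_prop

/-- separation -/
lemma numRange_subset {n : ℕ} {A : Matrix (Fin n) (Fin n) ℂ} {T : K →L[ℂ] K}
    (h : PosHyp A (T : K →ₗ[ℂ] K)) :
    numRange T ⊆ numRange (Matrix.toEuclideanCLM (𝕜 := ℂ) A) := by
  rintro z ⟨k, hk, hkz⟩
  by_contra hz
  obtain ⟨f, u, hf1, hf2⟩ := geometric_hahn_banach_closed_point
    (convex_numRange (Matrix.toEuclideanCLM (𝕜 := ℂ) A)) (isCompact_numRange A).isClosed hz
  set c : ℂ := (f 1 : ℂ) - f Complex.I * Complex.I with hc
  have hfc : ∀ w : ℂ, f w = (c * w).re := by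
    intro w
    have h1 : w = w.re • (1 : ℂ) + w.im • Complex.I := by
      apply Complex.ext <;> simp
    conv_lhs => rw [h1]
    rw [map_add, map_smul, map_smul, hc]
    simp
    ring
  have h1 := h (-c) u (fun v => by
    by_cases hv : v = 0
    · subst hv; simp [qf]
    obtain ⟨r, w, hr, hw, rfl⟩ := exists_sph hv
    have h2 : inner ℂ (WithLp.toLp 2 w : EuclideanSpace ℂ (Fin n))
        (Matrix.toEuclideanCLM (𝕜 := ℂ) A (WithLp.toLp 2 w)) ∈
        numRange (Matrix.toEuclideanCLM (𝕜 := ℂ) A) := by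
      refine ⟨WithLp.toLp 2 w, ?_, rfl⟩
      have h3 := qf_one_eq_norm (WithLp.toLp 2 w : EuclideanSpace ℂ (Fin n))
      rw [qf_one] at h3
      have h4 : ‖(WithLp.toLp 2 w : EuclideanSpace ℂ (Fin n))‖ ^ 2 = 1 := by
        rw [← h3]; exact hw
      exact (pow_eq_one_iff_of_nonneg (norm_nonneg _) two_ne_zero).mp h4
    have h3 := hf1 _ h2
    rw [toEuclideanCLM_inner, hfc] at h3
    have h4 : star (r • w) ⬝ᵥ (A *ᵥ (r • w)) = ((r ^ 2 : ℝ) : ℂ) * (star w ⬝ᵥ (A *ᵥ w)) := by
      rw [star_smul, Matrix.mulVec_smul, smul_dotProduct, dotProduct_smul]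
      simp
      ring
    have h5 : qf 1 w = 1 := by rw [qf_one]; exact hw
    have h7 : (c * (((r ^ 2 : ℝ) : ℂ) * (star w ⬝ᵥ (A *ᵥ w)))).re =
        r ^ 2 * (c * (star w ⬝ᵥ (A *ᵥ w))).re := by
      rw [mul_left_comm, Complex.re_ofReal_mul]
    rw [h4, qf_smul_vec, h5, neg_mul, Complex.neg_re, h7]
    have h6 : (c * (star w ⬝ᵥ (A *ᵥ w))).re ≤ u := h3.le
    nlinarith [sq_nonneg r, mul_le_mul_of_nonneg_left h6 (sq_nonneg r)]) k
  rw [hk, ContinuousLinearMap.coe_coe, hkz, neg_mul, Complex.neg_re, ← hfc] at h1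
  linarith

end TH

end Pool.Agent.Lib.P74fcff
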