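import Pool.Agent.Lib.P74fcff.Red
import Pool.Agent.Lib.P74fcff.TH

set_option autoImplicit false
set_option linter.unusedSectionVars false

open scoped ComplexOrder Matrix MatrixOrder TensorProduct

universe u

namespace Pool.Agent.Lib.P74fcff

/-- three by three matrices -/
abbrev M3 := Matrix (Fin 3) (Fin 3) ℂ

/-- the pencil `t + cA + (cA)*` -/
noncomputable def sp (A : M3) (t : ℝ) (c : ℂ) : M3 := t • 1 + (c • A + (c • A)ᴴ)

lemma NA_herm (A : M3) (c : ℂ) : (c • A + (c • A)ᴴ).IsHermitian := by
  rw [Matrix.IsHermitian, Matrix.conjTranspose_add, Matrix.conjTranspose_conjTranspose,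
    add_comm]

lemma sp_herm (A : M3) (t : ℝ) (c : ℂ) : (sp A t c).IsHermitian :=
  (herm_smul herm_one t).add (NA_herm A c)

lemma dot_conjTranspose {ι : Type*} [Fintype ι] [DecidableEq ι] (M : Matrix ι ι ℂ) (v : ι → ℂ) :
    star v ⬝ᵥ (Mᴴ *ᵥ v) = star (star v ⬝ᵥ (M *ᵥ v)) := by
  rw [← Matrix.star_dotProduct_star, star_star, Matrix.star_mulVec, dotProduct_comm,
    ← Matrix.dotProduct_mulVec, dotProduct_comm]

lemma qf_NA (A : M3) (c : ℂ) (v : Fin 3 → ℂ) :
    qf (c • A + (c • A)ᴴ) v = 2 * (c * (star v ⬝ᵥ (A *ᵥ v))).re := by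
  rw [qf_add]
  unfold qf
  rw [dot_conjTranspose, Complex.star_def, Complex.conj_re, Matrix.smul_mulVec, dotProduct_smul,
    smul_eq_mul]
  ring

lemma qf_sp (A : M3) (t : ℝ) (c : ℂ) (v : Fin 3 → ℂ) :
    qf (sp A t c) v = t * qf 1 v + 2 * (c * (star v ⬝ᵥ (A *ᵥ v))).re := by
  unfold sp
  rw [qf_add, qf_smul, qf_NA]

lemma sp_smul (A : M3) (r t : ℝ) (c : ℂ) : sp A (r * t) ((r : ℂ) * c) = r • sp A t c := by
  ext i j
  simp only [sp, Matrix.add_apply, Matrix.smul_apply, Matrix.conjTranspose_apply, smul_eq_mul,
    star_mul', Complex.star_def, Complex.conj_ofReal, Complex.real_smul]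
  push_cast
  ring

/-- if all two by two minors vanish then the rank is at most one -/
lemma rank_le_one_of_adj {M : M3} (h : M.adjugate = 0) : M.rank ≤ 1 := by
  by_cases h0 : M = 0
  · rw [h0, Matrix.rank_zero]; exact zero_le_one
  have hex : ∃ k l, M k l ≠ 0 := by
    by_contra hcon
    push Not at hcon
    exact h0 (Matrix.ext hcon)
  obtain ⟨k, l, hkl⟩ := hex
  rw [Matrix.adjugate_fin_three] at h
  have e : ∀ a b, _ := fun a b => congrFun (congrFun h a) b
  have e00 := e 0 0
  have e01 := e 0 1
  have e02 := e 0 2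
  have e10 := e 1 0
  have e11 := e 1 1
  have e12 := e 1 2
  have e20 := e 2 0
  have e21 := e 2 1
  have e22 := e 2 2
  simp at e00 e01 e02 e10 e11 e12 e20 e21 e22
  have key : ∀ i j, M i j * M k l = M i l * M k j := by
    intro i j
    clear hkl h e
    fin_cases k <;> fin_cases l <;> fin_cases i <;> fin_cases j <;> simp <;>
      first
      | ring1
      | linear_combination e00
      | linear_combination e01
      | linear_combination e02
      | linear_combination e10
      | linear_combination e11
      | linear_combination e12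
      | linear_combination e20
      | linear_combination e21
      | linear_combination e22
      | linear_combination -e00
      | linear_combination -e01
      | linear_combination -e02
      | linear_combination -e10
      | linear_combination -e11
      | linear_combination -e12
      | linear_combination -e20
      | linear_combination -e21
      | linear_combination -e22
  have hM : M = Matrix.vecMulVec (fun i => M i l) (fun j => M k j / M k l) := by
    ext i j
    rw [Matrix.vecMulVec_apply, ← mul_div_assoc, eq_div_iff hkl, key]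
  rw [hM]
  exact Matrix.rank_vecMulVec_le _ _

lemma ker_unique {M : M3} (hr : 2 ≤ M.rank) {η v : Fin 3 → ℂ} (hη : η ≠ 0) (h1 : M *ᵥ η = 0)
    (h2 : M *ᵥ v = 0) : ∃ a : ℂ, v = a • η := by
  by_contra hcon
  push Not at hcon
  have hlin : LinearIndependent ℂ ![η, v] := by
    apply lin_two
    intro a b hab
    have hb : b = 0 := by
      by_contra hb
      apply hcon (-(b⁻¹ * a))
      have : v = b⁻¹ • (b • v) := by rw [smul_smul, inv_mul_cancel₀ hb, one_smul]
      rw [this, eq_neg_of_add_eq_zero_right hab, smul_neg, smul_smul, neg_smul]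
    refine ⟨?_, hb⟩
    rw [hb, zero_smul, add_zero] at hab
    rcases smul_eq_zero.mp hab with h | h
    · exact h
    · exact absurd h hη
  have := rank_add_le (k := 2) M _ hlin (fun i => by
    fin_cases i
    · exact h1
    · exact h2)
  simp only [Fintype.card_fin] at this
  omega

lemma adj_form {M : M3} (hM : M.IsHermitian) (hr : 2 ≤ M.rank) {η : Fin 3 → ℂ} (hη : η ≠ 0)
    (h1 : M *ᵥ η = 0) : ∃ κ : ℝ, κ ≠ 0 ∧ M.adjugate = κ • rk1 η := by
  have hdet : M.det = 0 := Matrix.exists_mulVec_eq_zero_iff.mp ⟨η, hη, h1⟩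
  have hMa : M * M.adjugate = 0 := by rw [Matrix.mul_adjugate, hdet, zero_smul]
  have haM : M.adjugate * M = 0 := by rw [Matrix.adjugate_mul, hdet, zero_smul]
  have hcol : ∀ j, ∃ a : ℂ, M.adjugate.col j = a • η := by
    intro j
    apply ker_unique hr hη h1
    rw [← Matrix.mulVec_single_one, Matrix.mulVec_mulVec, hMa, Matrix.zero_mulVec]
  choose a ha using hcol
  have hadj : ∀ i j, M.adjugate i j = a j * η i := by
    intro i j
    have := congrFun (ha j) i
    simpa using this
  obtain ⟨i0, hi0⟩ := Function.ne_iff.mp hη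
  have hi0' : η i0 ≠ 0 := hi0
  have hrow : M *ᵥ (star a) = 0 := by
    have h2 : a ᵥ* M = 0 := by
      ext j
      have h3 := congrFun (congrFun haM i0) j
      rw [Matrix.mul_apply] at h3
      simp only [hadj, Matrix.zero_apply] at h3
      have h4 : η i0 * (a ᵥ* M) j = 0 := by
        rw [← h3, Matrix.vecMul, dotProduct, Finset.mul_sum]
        refine Finset.sum_congr rfl fun k _ => by ring
      rcases mul_eq_zero.mp h4 with h | h
      · exact absurd h hi0'
      · exact h
    have h5 : star (a ᵥ* M) = Mᴴ *ᵥ star a := Matrix.star_vecMul _ _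
    rw [h2, hM.eq, star_zero] at h5
    exact h5.symm
  obtain ⟨b, hb⟩ := ker_unique hr hη h1 hrow
  have ha2 : ∀ j, a j = star b * star (η j) := by
    intro j
    have := congrFun hb j
    have h2 : star (a j) = b * η j := by simpa using this
    rw [← star_star (a j), h2, star_mul']
  have hadj2 : M.adjugate = star b • rk1 η := by
    ext i j
    rw [hadj, ha2, Matrix.smul_apply, rk1, Matrix.vecMulVec_apply, smul_eq_mul, Pi.star_apply]
    ring
  have hadjH : (M.adjugate)ᴴ = M.adjugate := by
    rw [Matrix.adjugate_conjTranspose, hM.eq]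
  have hbreal : star b = ((b.re : ℝ) : ℂ) := by
    have h2 := congrFun (congrFun hadjH i0) i0
    rw [Matrix.conjTranspose_apply, hadj2, Matrix.smul_apply, rk1, Matrix.vecMulVec_apply,
      smul_eq_mul, Pi.star_apply, star_mul', star_star, Complex.star_def, Complex.mul_conj] at h2
    simp only [Complex.conj_ofReal] at h2
    have h3 : (Complex.normSq (η i0) : ℂ) ≠ 0 := by
      exact_mod_cast (Complex.normSq_pos.mpr hi0').ne'
    have h4 : b = (starRingEnd ℂ) b := mul_right_cancel₀ h3 h2
    have h5 := congrArg Complex.im h4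
    rw [Complex.conj_im] at h5
    apply Complex.ext
    · simp
    · simp; linarith
  refine ⟨b.re, ?_, ?_⟩
  · intro h
    rw [h] at hbreal
    rw [hbreal] at hadj2
    have : M.adjugate = 0 := by rw [hadj2]; simp
    have := rank_le_one_of_adj this
    omega
  · rw [hadj2, hbreal]
    ext i j
    simp

end Pool.Agent.Lib.P74fcff
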