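import Pool.Agent.Lib.P74fcff.Nec1

set_option autoImplicit false
set_option linter.unusedSectionVars false

open scoped ComplexOrder Matrix MatrixOrder TensorProduct

universe u

namespace Pool.Agent.Lib.P74fcff

/-- `D ↦ tr (D M)` -/
noncomputable def trM (M : M3) : M3 →ₗ[ℝ] ℂ where
  toFun D := (D * M).trace
  map_add' := fun D E => by rw [Matrix.add_mul, Matrix.trace_add]
  map_smul' := fun r D => by
    rw [Matrix.smul_mul, Matrix.trace_smul, RingHom.id_apply]

/-- `D ↦ R - R*`, where `R = D* A + D A*` -/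
noncomputable def sk (A : M3) : M3 →ₗ[ℝ] M3 where
  toFun D := (Dᴴ * A + D * Aᴴ) - (Dᴴ * A + D * Aᴴ)ᴴ
  map_add' := fun D E => by
    simp only [Matrix.conjTranspose_add, Matrix.add_mul, Matrix.conjTranspose_mul]
    abel
  map_smul' := fun r D => by
    have h : (r • D)ᴴ = r • Dᴴ := by
      rw [Matrix.conjTranspose_smul]; simp
    simp only [RingHom.id_apply, h, Matrix.smul_mul, ← smul_add]
    rw [Matrix.conjTranspose_smul, smul_sub]
    simp

lemma trM_apply (M D : M3) : trM M D = (D * M).trace := rfl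

lemma sk_apply (A D : M3) : sk A D = (Dᴴ * A + D * Aᴴ) - (Dᴴ * A + D * Aᴴ)ᴴ := rfl

/-- entries -/
def ent (i j : Fin 3) : M3 →ₗ[ℝ] ℂ where
  toFun D := D i j
  map_add' := fun _ _ => rfl
  map_smul' := fun _ _ => rfl

/-- the first and second generator of the pencil -/
noncomputable def N1 (A : M3) : M3 := A + Aᴴ
noncomputable def N2 (A : M3) : M3 := Complex.I • A + (Complex.I • A)ᴴ
/-- mixed adjugate -/
noncomputable def N12 (A : M3) : M3 :=
  (N1 A + N2 A).adjugate - (N1 A).adjugate - (N2 A).adjugate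

/-- real part, imaginary part -/
noncomputable def rl : ℂ →ₗ[ℝ] ℝ := Complex.reLm
noncomputable def il : ℂ →ₗ[ℝ] ℝ := Complex.imLm

/-- the 17 linear conditions -/
noncomputable def cond (A : M3) : M3 →ₗ[ℝ] ((Fin 2 → ℝ) × (Fin 3 → ℂ) × (Fin 9 → ℝ)) :=
  LinearMap.prod
    (LinearMap.pi ![il ∘ₗ ent 0 0 ∘ₗ sk A, il ∘ₗ ent 1 1 ∘ₗ sk A])
    (LinearMap.prod
      (LinearMap.pi ![ent 0 1 ∘ₗ sk A, ent 0 2 ∘ₗ sk A, ent 1 2 ∘ₗ sk A])
      (LinearMap.pi ![rl ∘ₗ trM 1, il ∘ₗ trM 1,
        rl ∘ₗ trM ((N1 A).trace • 1 - N1 A),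
        rl ∘ₗ trM ((N2 A).trace • 1 - N2 A) - il ∘ₗ trM ((N1 A).trace • 1 - N1 A),
        il ∘ₗ trM ((N2 A).trace • 1 - N2 A),
        rl ∘ₗ trM (N1 A).adjugate,
        rl ∘ₗ trM (N12 A) - il ∘ₗ trM (N1 A).adjugate,
        rl ∘ₗ trM (N2 A).adjugate - il ∘ₗ trM (N12 A),
        il ∘ₗ trM (N2 A).adjugate]))

lemma adj_expand (M N : M3) (t x y : ℂ) :
    (t • (1 : M3) + (x • M + y • N)).adjugate =
      (t ^ 2) • (1 : M3) + (t * x) • (M.trace • (1 : M3) - M) +
      (t * y) • (N.trace • (1 : M3) - N) + x ^ 2 • M.adjugate +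
      (x * y) • ((M + N).adjugate - M.adjugate - N.adjugate) + y ^ 2 • N.adjugate := by
  simp only [Matrix.adjugate_fin_three, Matrix.trace_fin_three]
  ext i j
  fin_cases i <;> fin_cases j <;> simp <;> ring

lemma sp_expand (A : M3) (t : ℝ) (c : ℂ) :
    sp A t c = (t : ℂ) • (1 : M3) + ((c.re : ℂ) • N1 A + (c.im : ℂ) • N2 A) := by
  ext i j
  have hc : c = c.re + c.im * Complex.I := (Complex.re_add_im c).symm
  have hs : (starRingEnd ℂ) c = c.re - c.im * Complex.I := by
    apply Complex.ext <;> simp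
  simp only [sp, N1, N2, Matrix.add_apply, Matrix.smul_apply, Matrix.conjTranspose_apply,
    smul_eq_mul, star_mul', Complex.star_def, Complex.conj_I, Complex.real_smul]
  rw [hs]
  linear_combination (A i j) * hc

/-- the two consequences of the linear conditions -/
theorem exists_delta (A : M3) : ∃ D : M3, D ≠ 0 ∧ (Dᴴ * A + D * Aᴴ).IsHermitian ∧
    ∀ (t : ℝ) (c : ℂ), (c * (D * (sp A t c).adjugate).trace).re = 0 := by
  have hker : LinearMap.ker (cond A) ≠ ⊥ := by
    apply LinearMap.ker_ne_bot_of_finrank_lt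
    rw [Module.finrank_prod, Module.finrank_prod, Module.finrank_fintype_fun_eq_card,
      Module.finrank_fintype_fun_eq_card, Module.finrank_matrix,
      Module.finrank_pi_fintype]
    simp
  obtain ⟨D, hD, hD0⟩ := (Submodule.ne_bot_iff _).mp hker
  rw [LinearMap.mem_ker] at hD
  have h1 := congrArg Prod.fst hD
  have h2 := congrArg (fun p => p.2.1) hD
  have h3 := congrArg (fun p => p.2.2) hD
  have a0 := congrFun h1 0
  have a1 := congrFun h1 1
  have b0 := congrFun h2 0
  have b1 := congrFun h2 1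
  have b2 := congrFun h2 2
  have c0 := congrFun h3 0
  have c1 := congrFun h3 1
  have c2 := congrFun h3 2
  have c3 := congrFun h3 3
  have c4 := congrFun h3 4
  have c5 := congrFun h3 5
  have c6 := congrFun h3 6
  have c7 := congrFun h3 7
  have c8 := congrFun h3 8
  change (sk A D 0 0).im = 0 at a0
  change (sk A D 1 1).im = 0 at a1
  change sk A D 0 1 = 0 at b0
  change sk A D 0 2 = 0 at b1
  change sk A D 1 2 = 0 at b2
  change (trM 1 D).re = 0 at c0
  change (trM 1 D).im = 0 at c1
  change (trM ((N1 A).trace • 1 - N1 A) D).re = 0 at c2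
  change (trM ((N2 A).trace • 1 - N2 A) D).re - (trM ((N1 A).trace • 1 - N1 A) D).im = 0 at c3
  change (trM ((N2 A).trace • 1 - N2 A) D).im = 0 at c4
  change (trM (N1 A).adjugate D).re = 0 at c5
  change (trM (N12 A) D).re - (trM (N1 A).adjugate D).im = 0 at c6
  change (trM (N2 A).adjugate D).re - (trM (N12 A) D).im = 0 at c7
  change (trM (N2 A).adjugate D).im = 0 at c8
  refine ⟨D, hD0, ?_, fun t c => ?_⟩
  · -- Hermitian
    have hsk : ∀ i j, sk A D j i = - star (sk A D i j) := by
      intro i j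
      rw [sk_apply]
      simp only [Matrix.sub_apply, Matrix.conjTranspose_apply, star_sub, star_star]
      ring
    have hre : ∀ i, (sk A D i i).re = 0 := by
      intro i
      have := congrArg Complex.re (hsk i i)
      simp only [Complex.neg_re, Complex.star_def, Complex.conj_re] at this
      linarith
    have htr : (sk A D).trace = 0 := by
      rw [sk_apply, Matrix.trace_sub, Matrix.conjTranspose_add, Matrix.conjTranspose_mul,
        Matrix.conjTranspose_mul, Matrix.conjTranspose_conjTranspose,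
        Matrix.conjTranspose_conjTranspose, Matrix.trace_add, Matrix.trace_add,
        Matrix.trace_mul_comm Dᴴ A, Matrix.trace_mul_comm D Aᴴ]
      ring
    have h22 : (sk A D 2 2).im = 0 := by
      have := congrArg Complex.im htr
      rw [Matrix.trace_fin_three] at this
      simp only [Complex.add_im, Complex.zero_im, a0, a1] at this
      linarith
    have hz : sk A D = 0 := by
      ext i j
      rw [Matrix.zero_apply]
      fin_cases i <;> fin_cases j
      · exact Complex.ext (hre 0) a0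
      · exact b0
      · exact b1
      · change sk A D 1 0 = 0
        rw [hsk 0 1, b0]; simp
      · exact Complex.ext (hre 1) a1
      · exact b2
      · change sk A D 2 0 = 0
        rw [hsk 0 2, b1]; simp
      · change sk A D 2 1 = 0
        rw [hsk 1 2, b2]; simp
      · exact Complex.ext (hre 2) h22
    rw [sk_apply, sub_eq_zero] at hz
    exact hz.symm
  · have e1 : (D * (sp A t c).adjugate).trace =
        (t : ℂ) ^ 2 * trM 1 D + (t * c.re) * trM ((N1 A).trace • 1 - N1 A) D +
        (t * c.im) * trM ((N2 A).trace • 1 - N2 A) D + (c.re : ℂ) ^ 2 * trM (N1 A).adjugate D +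
        (c.re * c.im) * trM (N12 A) D + (c.im : ℂ) ^ 2 * trM (N2 A).adjugate D := by
      rw [sp_expand, adj_expand]
      simp only [trM_apply, Matrix.mul_add, Matrix.trace_add, Matrix.mul_smul, Matrix.trace_smul,
        smul_eq_mul, N12]
    rw [e1]
    have e2 : ∀ z : ℂ, z = z.re + z.im * Complex.I := fun z => (Complex.re_add_im z).symm
    rw [Complex.mul_re]
    simp only [Complex.add_re, Complex.add_im, Complex.mul_re, Complex.mul_im,
      Complex.ofReal_re, Complex.ofReal_im, ← Complex.ofReal_pow, c0, c1]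
    linear_combination (t * c.re ^ 2) * c2 + (t * c.re * c.im) * c3 - (t * c.im ^ 2) * c4 +
      c.re ^ 3 * c5 + c.re ^ 2 * c.im * c6 + c.re * c.im ^ 2 * c7 - c.im ^ 3 * c8

end Pool.Agent.Lib.P74fcff
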