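import Pool.Agent.Lib.P74fcff.Nec2

set_option autoImplicit false
set_option linter.unusedSectionVars false

open scoped ComplexOrder Matrix MatrixOrder TensorProduct

universe u

namespace Pool.Agent.Lib.P74fcff

/-- contact data -/
def Contact (A : M3) (t : ℝ) (c : ℂ) (η : Fin 3 → ℂ) : Prop :=
  c ≠ 0 ∧ (sp A t c).PosSemidef ∧ η ≠ 0 ∧ sp A t c *ᵥ η = 0

lemma rank_sp {A : M3} (hR : ¬ RankOne A) (t : ℝ) {c : ℂ} (hc : c ≠ 0) : 2 ≤ (sp A t c).rank := by
  by_contra hcon
  apply hR
  refine ⟨c, hc, -t, ?_⟩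
  have : c • A + (c • A)ᴴ - ((-t : ℝ) : ℂ) • 1 = sp A t c := by
    unfold sp
    ext i j
    simp
    ring
  rw [this]
  omega

/-- the top value -/
noncomputable def tf (A : M3) (c : ℂ) : ℝ :=
  sSup ((fun v => - qf (c • A + (c • A)ᴴ) v) '' sph (Fin 3))

lemma continuous_pencil (A : M3) : Continuous (fun c : ℂ => c • A + (c • A)ᴴ) := by
  fun_prop

lemma continuous_tf (A : M3) : Continuous (tf A) := by
  unfold tf
  apply IsCompact.continuous_sSup (f := fun (c : ℂ) (v : Fin 3 → ℂ) => - qf (c • A + (c • A)ᴴ) v)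
    isCompact_sph
  have : (Function.uncurry fun (c : ℂ) (v : Fin 3 → ℂ) => - qf (c • A + (c • A)ᴴ) v) =
      fun p : ℂ × (Fin 3 → ℂ) => - (2 * (p.1 * (star p.2 ⬝ᵥ (A *ᵥ p.2))).re) := by
    ext p
    simp only [Function.uncurry, qf_NA]
  change Continuous (Function.uncurry fun (c : ℂ) (v : Fin 3 → ℂ) => - qf (c • A + (c • A)ᴴ) v)
  rw [this]
  fun_prop

lemma sph_nonempty : (sph (Fin 3)).Nonempty := by
  refine ⟨Pi.single 0 1, ?_⟩
  simp [sph, Fin.sum_univ_three]

lemma sp_tf_psd (A : M3) (c : ℂ) : (sp A (tf A c) c).PosSemidef := by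
  refine posSemidef_of_sph (sp_herm A _ c) fun v hv => ?_
  unfold sp
  have h1 : qf 1 v = 1 := by rw [qf_one]; exact hv
  rw [qf_add, qf_smul, h1]
  have h2 : - qf (c • A + (c • A)ᴴ) v ≤ tf A c := by
    apply le_csSup
    · exact (isCompact_sph.image (continuous_qf _).neg).bddAbove
    · exact ⟨v, hv, rfl⟩
  linarith

lemma exists_contact (A : M3) {c : ℂ} (hc : c ≠ 0) : ∃ η, Contact A (tf A c) c η := by
  obtain ⟨v, hv, hmax⟩ := isCompact_sph.exists_isMaxOn sph_nonempty
    (f := fun v => - qf (c • A + (c • A)ᴴ) v) (continuous_qf _).neg.continuousOn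
  have h1 : tf A c = - qf (c • A + (c • A)ᴴ) v := by
    apply le_antisymm
    · apply csSup_le (sph_nonempty.image _)
      rintro _ ⟨w, hw, rfl⟩
      exact hmax hw
    · apply le_csSup
      · exact (isCompact_sph.image (continuous_qf _).neg).bddAbove
      · exact ⟨v, hv, rfl⟩
  refine ⟨v, hc, sp_tf_psd A c, sph_ne_zero hv, ?_⟩
  rw [← (sp_tf_psd A c).dotProduct_mulVec_zero_iff, herm_dot_eq (sp_herm A _ c)]
  have h2 : qf 1 v = 1 := by rw [qf_one]; exact hv
  have h3 : qf (sp A (tf A c) c) v = 0 := by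
    unfold sp
    rw [qf_add, qf_smul, h2, h1]
    ring
  rw [h3]; simp

lemma trace_rk1 {η : Fin 3 → ℂ} : (rk1 η).trace = ((qf 1 η : ℝ) : ℂ) := by
  rw [← herm_dot_eq herm_one, Matrix.one_mulVec, rk1, Matrix.trace_vecMulVec, dotProduct_comm]

lemma mul_rk1_eq {M : M3} {η : Fin 3 → ℂ} {a : ℂ} (h : M *ᵥ η = a • η) :
    M * rk1 η = a • rk1 η := by
  unfold rk1
  rw [Matrix.mul_vecMulVec, h, Matrix.smul_vecMulVec]

/-- the key uniqueness statement -/
theorem scalar_of_contact {A : M3} (hR : ¬ RankOne A) (hC : ¬ CommonEigenvector A) {Y : M3}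
    (hY : ∀ t c η, Contact A t c η → qf (sp A t c) (Y *ᵥ η) = 0) : ∃ y : ℂ, Y = y • 1 := by
  -- each contact vector is an eigenvector
  have heig : ∀ t c η, Contact A t c η → ∃ a : ℂ, Y *ᵥ η = a • η := by
    intro t c η h
    have h0 := hY t c η h
    obtain ⟨hc, hpsd, hη, hk⟩ := h
    have h1 : sp A t c *ᵥ (Y *ᵥ η) = 0 := by
      rw [← hpsd.dotProduct_mulVec_zero_iff, herm_dot_eq (sp_herm A _ c), h0]; simp
    exact ker_unique (rank_sp hR t hc) hη hk h1
  set E : ℂ → M3 := fun c => (sp A (tf A c) c).adjugate with hE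
  have hEc : Continuous E := by
    have h1 := continuous_tf A
    have h2 := continuous_pencil A
    rw [hE]
    apply Continuous.matrix_adjugate
    unfold sp
    fun_prop
  have hEform : ∀ c, c ≠ 0 → ∀ η, Contact A (tf A c) c η → ∃ κ : ℝ, κ ≠ 0 ∧ E c = κ • rk1 η := by
    intro c hc η h
    exact adj_form (sp_herm A _ c) (rank_sp hR _ hc) h.2.2.1 h.2.2.2
  have htrE : ∀ c, c ≠ 0 → (E c).trace ≠ 0 := by
    intro c hc
    obtain ⟨η, hη⟩ := exists_contact A hc
    obtain ⟨κ, hκ, h1⟩ := hEform c hc η hη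
    rw [h1, Matrix.trace_smul, trace_rk1]
    have h2 := (qf_one_pos hη.2.2.1).ne'
    simp [hκ, h2]
  set y : ℂ → ℂ := fun c => (Y * E c).trace / (E c).trace with hy
  have hycont : ContinuousOn y (Metric.sphere 0 1) := by
    intro c hc
    have hc0 : c ≠ 0 := by
      rintro rfl
      simp at hc
    apply ContinuousWithinAt.div
    · exact (Continuous.matrix_trace (continuous_const.matrix_mul hEc)).continuousWithinAt
    · exact (Continuous.matrix_trace hEc).continuousWithinAt
    · exact htrE c hc0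
  have hyeig : ∀ c, c ≠ 0 → ∀ η, Contact A (tf A c) c η → Y *ᵥ η = y c • η := by
    intro c hc η h
    obtain ⟨a, ha⟩ := heig _ _ _ h
    obtain ⟨κ, hκ, h1⟩ := hEform c hc η h
    have h2 : y c = a := by
      simp only [hy]
      rw [h1, Matrix.mul_smul, mul_rk1_eq ha, Matrix.trace_smul, Matrix.trace_smul,
        Matrix.trace_smul, trace_rk1, smul_eq_mul]
      have h3 : ((qf 1 η : ℝ) : ℂ) ≠ 0 := by exact_mod_cast (qf_one_pos h.2.2.1).ne'
      have h4 : (κ : ℂ) ≠ 0 := by exact_mod_cast hκ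
      rw [Complex.real_smul, Complex.real_smul]
      field_simp
    rw [h2, ha]
  have hyspec : ∀ c ∈ Metric.sphere (0 : ℂ) 1, y c ∈ spectrum ℂ Y := by
    intro c hc
    have hc0 : c ≠ 0 := by
      rintro rfl
      simp at hc
    obtain ⟨η, hη⟩ := exists_contact A hc0
    have h1 := hyeig c hc0 η hη
    rw [spectrum.mem_iff]
    intro hu
    rw [Matrix.isUnit_iff_isUnit_det, isUnit_iff_ne_zero] at hu
    apply hu
    apply Matrix.exists_mulVec_eq_zero_iff.mp
    refine ⟨η, hη.2.2.1, ?_⟩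
    rw [Matrix.sub_mulVec, h1, Algebra.algebraMap_eq_smul_one, Matrix.smul_mulVec,
      Matrix.one_mulVec, sub_self]
  have hsub : (y '' Metric.sphere (0 : ℂ) 1).Subsingleton := by
    rw [← Set.not_nontrivial_iff]
    intro hnt
    have hpre : IsPreconnected (y '' Metric.sphere (0 : ℂ) 1) :=
      (isPreconnected_sphere (by rw [Complex.rank_real_complex]; norm_num) 0 1).image y hycont
    have hinf := hpre.infinite_of_nontrivial hnt
    apply hinf
    apply (Matrix.finite_spectrum Y).subset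
    rintro _ ⟨c, hc, rfl⟩
    exact hyspec c hc
  have h1mem : (1 : ℂ) ∈ Metric.sphere (0 : ℂ) 1 := by simp
  have hyconst : ∀ c ∈ Metric.sphere (0 : ℂ) 1, y c = y 1 := fun c hc =>
    hsub ⟨c, hc, rfl⟩ ⟨1, h1mem, rfl⟩
  refine ⟨y 1, ?_⟩
  by_contra hne
  have hY0 : Y - y 1 • 1 ≠ 0 := sub_ne_zero.mpr hne
  obtain ⟨i, hi⟩ : ∃ i, (Y - y 1 • 1) i ≠ 0 := by
    by_contra hcon
    push Not at hcon
    exact hY0 (by ext i j; rw [hcon i]; rfl)
  set u : Fin 3 → ℂ := star ((Y - y 1 • (1 : M3)) i) with hu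
  have hu0 : u ≠ 0 := by
    rw [hu]; simpa using hi
  have huperp : ∀ c ∈ Metric.sphere (0 : ℂ) 1, ∀ η, Contact A (tf A c) c η →
      star η ⬝ᵥ u = 0 := by
    intro c hc η hη
    have hc0 : c ≠ 0 := by
      rintro rfl
      simp at hc
    have h1 := hyeig c hc0 η hη
    rw [hyconst c hc] at h1
    have h2 : (Y - y 1 • (1 : M3)) *ᵥ η = 0 := by
      rw [Matrix.sub_mulVec, h1, Matrix.smul_mulVec, Matrix.one_mulVec, sub_self]
    have h3 := congrFun h2 i
    rw [Matrix.star_dotProduct, hu, star_star]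
    have h4 : ((Y - y 1 • (1 : M3)) i) ⬝ᵥ η = 0 := h3
    rw [h4]; simp
  -- u is an eigenvector of every element of the pencil
  have hueig : ∀ c ∈ Metric.sphere (0 : ℂ) 1, ∃ a : ℂ, (c • A + (c • A)ᴴ) *ᵥ u = a • u := by
    intro c hc
    have hc0 : c ≠ 0 := by
      rintro rfl
      simp at hc
    have hcn : -c ∈ Metric.sphere (0 : ℂ) 1 := by simpa using hc
    obtain ⟨η, hη⟩ := exists_contact A hc0
    obtain ⟨η', hη'⟩ := exists_contact A (neg_ne_zero.mpr hc0)
    set N := c • A + (c • A)ᴴ with hN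
    have hNh : N.IsHermitian := NA_herm A c
    have hNneg : (-c) • A + ((-c) • A)ᴴ = -N := by
      rw [hN, neg_smul, Matrix.conjTranspose_neg]; abel
    set t := tf A c with ht
    set t' := tf A (-c) with ht'
    have h1 : N *ᵥ η = (-t : ℂ) • η := by
      have := hη.2.2.2
      unfold sp at this
      rw [Matrix.add_mulVec, ← hN, Matrix.smul_mulVec, Matrix.one_mulVec] at this
      rw [eq_neg_of_add_eq_zero_right this]
      ext j; simp
    have h2 : N *ᵥ η' = (t' : ℂ) • η' := by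
      have := hη'.2.2.2
      unfold sp at this
      rw [hNneg, Matrix.add_mulVec, Matrix.smul_mulVec, Matrix.one_mulVec, Matrix.neg_mulVec,
        ← sub_eq_add_neg, sub_eq_zero] at this
      rw [← this]
      ext j; simp
    have htt : t + t' ≠ 0 := by
      intro h
      have h3 : sp A t' (-c) = - sp A t c := by
        unfold sp
        rw [hNneg, ← hN]
        have : t' = -t := by linarith
        rw [this, neg_smul]
        abel
      have h4 : (0 : M3) ≤ sp A t c := hη.2.1.nonneg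
      have h5 : (0 : M3) ≤ - sp A t c := by
        rw [← h3]; exact hη'.2.1.nonneg
      have h6 : sp A t c = 0 := le_antisymm (by simpa using h5) h4
      have h7 := rank_sp hR t hc0
      rw [h6, Matrix.rank_zero] at h7
      omega
    have hdotN : ∀ x z : Fin 3 → ℂ, star x ⬝ᵥ (N *ᵥ z) = star (N *ᵥ x) ⬝ᵥ z := by
      intro x z
      rw [Matrix.star_mulVec, hNh.eq, ← Matrix.dotProduct_mulVec]
    have hperp : star η ⬝ᵥ η' = 0 := by
      have h3 := hdotN η η'
      rw [h1, h2, dotProduct_smul, star_smul, smul_dotProduct, smul_eq_mul, smul_eq_mul] at h3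
      have h4 : ((t + t' : ℝ) : ℂ) * (star η ⬝ᵥ η') = 0 := by
        push_cast
        simp only [star_neg, Complex.star_def, Complex.conj_ofReal] at h3
        linear_combination h3
      rcases mul_eq_zero.mp h4 with h | h
      · exact absurd (by exact_mod_cast h) htt
      · exact h
    have hperp' : star η' ⬝ᵥ η = 0 := by
      rw [Matrix.star_dotProduct, hperp]; simp
    have hu1 := huperp c hc η hη
    have hu2 := huperp (-c) hcn η' hη'
    set M' : M3 := rk1 η + rk1 η' with hM'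
    have hM'1 : M' *ᵥ η = (star η ⬝ᵥ η) • η := by
      rw [hM', Matrix.add_mulVec, rk1_mulVec, rk1_mulVec, hperp']; simp
    have hM'2 : M' *ᵥ η' = (star η' ⬝ᵥ η') • η' := by
      rw [hM', Matrix.add_mulVec, rk1_mulVec, rk1_mulVec, hperp]; simp
    have hne : ∀ x : Fin 3 → ℂ, x ≠ 0 → star x ⬝ᵥ x ≠ 0 := by
      intro x hx
      have h3 := herm_dot_eq herm_one x
      rw [Matrix.one_mulVec] at h3
      rw [h3]
      exact_mod_cast (qf_one_pos hx).ne'
    have hrank : 2 ≤ M'.rank := by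
      have hlin : LinearIndependent ℂ ![(⟨M' *ᵥ η, ⟨η, rfl⟩⟩ : LinearMap.range M'.mulVecLin),
          (⟨M' *ᵥ η', ⟨η', rfl⟩⟩ : LinearMap.range M'.mulVecLin)] := by
        rw [LinearIndependent.pair_iff]
        intro a b hab
        have hab' := congrArg Subtype.val hab
        have h3 : a • (M' *ᵥ η) + b • (M' *ᵥ η') = 0 := hab'
        rw [hM'1, hM'2] at h3
        have h4 := congrArg (fun z => star η ⬝ᵥ z) h3
        have h5 := congrArg (fun z => star η' ⬝ᵥ z) h3
        simp only [dotProduct_add, dotProduct_smul, hperp, hperp', smul_eq_mul, mul_zero,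
          add_zero, zero_add, dotProduct_zero] at h4 h5
        have h6 := hne η hη.2.2.1
        have h7 := hne η' hη'.2.2.1
        constructor
        · rcases mul_eq_zero.mp h4 with h | h
          · exact h
          · exact absurd h (mul_ne_zero h6 h6)
        · rcases mul_eq_zero.mp h5 with h | h
          · exact h
          · exact absurd h (mul_ne_zero h7 h7)
      have := hlin.fintype_card_le_finrank
      have h8 : 2 ≤ Module.finrank ℂ (LinearMap.range M'.mulVecLin) := by simpa using this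
      exact h8
    refine ker_unique hrank hu0 ?_ ?_
    · rw [hM', Matrix.add_mulVec, rk1_mulVec, rk1_mulVec, hu1, hu2]; simp
    · rw [hM', Matrix.add_mulVec, rk1_mulVec, rk1_mulVec, hdotN, hdotN, h1, h2, star_smul,
        star_smul, smul_dotProduct, smul_dotProduct, hu1, hu2]
      simp
  obtain ⟨a1, ha1⟩ := hueig 1 h1mem
  obtain ⟨a2, ha2⟩ := hueig Complex.I (by simp)
  rw [one_smul, Matrix.add_mulVec] at ha1
  rw [Matrix.conjTranspose_smul, Complex.star_def, Complex.conj_I, Matrix.add_mulVec,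
    Matrix.smul_mulVec, Matrix.smul_mulVec] at ha2
  have hAu : A *ᵥ u = ((a1 - Complex.I * a2) / 2) • u := by
    ext j
    have e1 := congrFun ha1 j
    have e2 := congrFun ha2 j
    simp only [Pi.add_apply, Pi.smul_apply, smul_eq_mul] at e1 e2 ⊢
    linear_combination (e1 - Complex.I * e2) / 2 +
      ((A *ᵥ u) j - (Aᴴ *ᵥ u) j) / 2 * Complex.I_sq
  have hAu' : Aᴴ *ᵥ u = ((a1 + Complex.I * a2) / 2) • u := by
    ext j
    have e1 := congrFun ha1 j
    have e2 := congrFun ha2 j
    simp only [Pi.add_apply, Pi.smul_apply, smul_eq_mul] at e1 e2 ⊢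
    linear_combination (e1 + Complex.I * e2) / 2 -
      ((A *ᵥ u) j - (Aᴴ *ᵥ u) j) / 2 * Complex.I_sq
  apply hC
  refine ⟨u, hu0, _, hAu, ?_⟩
  rw [hAu']
  congr 1
  have h1 := dot_conjTranspose A u
  rw [hAu, hAu', dotProduct_smul, dotProduct_smul, smul_eq_mul, smul_eq_mul] at h1
  have huu : star u ⬝ᵥ u = ((qf 1 u : ℝ) : ℂ) := by
    have := herm_dot_eq herm_one u
    rwa [Matrix.one_mulVec] at this
  have huu0 : ((qf 1 u : ℝ) : ℂ) ≠ 0 := by exact_mod_cast (qf_one_pos hu0).ne'
  rw [huu, star_mul'] at h1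
  simp only [Complex.star_def, Complex.conj_ofReal] at h1 ⊢
  exact mul_right_cancel₀ huu0 h1

end Pool.Agent.Lib.P74fcff
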