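import Pool.Agent.Lib.P74fcff.Nec3

set_option autoImplicit false
set_option linter.unusedSectionVars false

open scoped ComplexOrder Matrix MatrixOrder TensorProduct

universe u

namespace Pool.Agent.Lib.P74fcff

/-- the type of contact data -/
def CD (A : M3) : Type := {p : ℝ × ℂ × (Fin 3 → ℂ) // Contact A p.1 p.2.1 p.2.2}

/-- the positive form attached to finitely many contacts -/
noncomputable def pF (A : M3) (F : Finset (CD A)) (V : M3) : ℝ :=
  ∑ p ∈ F, qf (sp A p.1.1 p.1.2.1) (V *ᵥ p.1.2.2)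

/-- the form attached to a direction `D` -/
noncomputable def QD (A D V : M3) : ℝ :=
  -(1 / 2) * ((Dᴴ * A + D * Aᴴ) * (Vᴴ * V)).trace.re + (Dᴴ * (Vᴴ * A * V)).trace.re

lemma trace_star (M : M3) : (Mᴴ).trace.re = M.trace.re := by
  rw [Matrix.trace_conjTranspose, Complex.star_def, Complex.conj_re]

lemma QD_shift {A D : M3} (hD : (Dᴴ * A + D * Aᴴ).IsHermitian) (a : ℂ) (Y : M3) :
    QD A D (a • 1 + Y) = QD A D Y := by
  set B := Dᴴ * A + D * Aᴴ with hB
  have e1 : (a • (1 : M3) + Y)ᴴ * (a • 1 + Y) =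
      (star a * a) • (1 : M3) + star a • Y + a • Yᴴ + Yᴴ * Y := by
    rw [Matrix.conjTranspose_add, Matrix.conjTranspose_smul, Matrix.conjTranspose_one]
    simp only [Matrix.add_mul, Matrix.mul_add, Matrix.smul_mul, Matrix.mul_smul, Matrix.one_mul,
      Matrix.mul_one]
    module
  have e2 : (a • (1 : M3) + Y)ᴴ * A * (a • 1 + Y) =
      (star a * a) • A + star a • (A * Y) + a • (Yᴴ * A) + Yᴴ * A * Y := by
    rw [Matrix.conjTranspose_add, Matrix.conjTranspose_smul, Matrix.conjTranspose_one]
    simp only [Matrix.add_mul, Matrix.mul_add, Matrix.smul_mul, Matrix.mul_smul, Matrix.one_mul,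
      Matrix.mul_one]
    module
  have h1 : (B * Yᴴ).trace = star (B * Y).trace := by
    rw [← Matrix.trace_conjTranspose, Matrix.conjTranspose_mul, hD.eq, Matrix.trace_mul_comm]
  have h2 : (Dᴴ * (Yᴴ * A)).trace = star (D * Aᴴ * Y).trace := by
    rw [← Matrix.trace_conjTranspose, Matrix.conjTranspose_mul, Matrix.conjTranspose_mul,
      Matrix.conjTranspose_conjTranspose, Matrix.trace_mul_comm Dᴴ, Matrix.mul_assoc]
  have h3 : (B * Y).trace = (Dᴴ * (A * Y)).trace + (D * Aᴴ * Y).trace := by
    rw [hB, Matrix.add_mul, Matrix.trace_add, Matrix.mul_assoc Dᴴ]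
  have h4 : B.trace.re = 2 * (Dᴴ * A).trace.re := by
    rw [hB, Matrix.trace_add, Complex.add_re]
    have : (D * Aᴴ).trace.re = (Dᴴ * A).trace.re := by
      rw [← trace_star, Matrix.conjTranspose_mul, Matrix.conjTranspose_conjTranspose,
        Matrix.trace_mul_comm]
    rw [this]; ring
  unfold QD
  rw [← hB, e1, e2]
  simp only [Matrix.mul_add, Matrix.mul_smul, Matrix.mul_one, Matrix.trace_add,
    Matrix.trace_smul, smul_eq_mul, Complex.add_re, h1, h2, h3]
  have h5 : star a * a = ((Complex.normSq a : ℝ) : ℂ) := by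
    rw [mul_comm, Complex.star_def, Complex.mul_conj]
  rw [h5, Complex.re_ofReal_mul, Complex.re_ofReal_mul, h4]
  simp only [Complex.star_def, Complex.mul_re, Complex.add_re, Complex.add_im, Complex.conj_re,
    Complex.conj_im]
  ring

lemma QD_smul (A D : M3) (r : ℝ) (V : M3) : QD A D (r • V) = r ^ 2 * QD A D V := by
  unfold QD
  have h : (r • V)ᴴ = r • Vᴴ := by
    rw [Matrix.conjTranspose_smul]; simp
  rw [h]
  simp only [Matrix.smul_mul, Matrix.mul_smul, smul_smul, Matrix.trace_smul, Complex.real_smul,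
    Complex.re_ofReal_mul]
  ring

lemma pF_shift {A : M3} (F : Finset (CD A)) (a : ℂ) (Y : M3) : pF A F (a • 1 + Y) = pF A F Y := by
  unfold pF
  refine Finset.sum_congr rfl fun p _ => ?_
  rw [Matrix.add_mulVec, Matrix.smul_mulVec, Matrix.one_mulVec]
  exact qf_decomp (sp_herm A _ _) p.2.2.2.2 a _

lemma pF_smul {A : M3} (F : Finset (CD A)) (r : ℝ) (Y : M3) : pF A F (r • Y) = r ^ 2 * pF A F Y := by
  unfold pF
  rw [Finset.mul_sum]
  refine Finset.sum_congr rfl fun p _ => ?_
  rw [Matrix.smul_mulVec, qf_smul_vec]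

lemma pF_nonneg {A : M3} (F : Finset (CD A)) (Y : M3) : 0 ≤ pF A F Y :=
  Finset.sum_nonneg fun p _ => qf_nonneg_of_posSemidef p.2.2.1 _

/-- matrix from coordinates -/
def toM (v : Fin 3 × Fin 3 → ℂ) : M3 := Matrix.of fun i j => v (i, j)

lemma continuous_toM : Continuous toM := by
  unfold toM
  fun_prop

theorem exists_forms {A : M3} (hR : ¬ RankOne A) (hC : ¬ CommonEigenvector A) {D : M3}
    (hD : (Dᴴ * A + D * Aᴴ).IsHermitian) :
    ∃ (F : Finset (CD A)) (N : ℝ), 0 < N ∧ ∀ V, 0 ≤ N * pF A F V - QD A D V := by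
  set C : Set (Fin 3 × Fin 3 → ℂ) := sph (Fin 3 × Fin 3) ∩ {v | (toM v).trace = 0} with hCdef
  have hCc : IsCompact C := by
    apply isCompact_sph.inter_right
    exact isClosed_eq (Continuous.matrix_trace continuous_toM) continuous_const
  set U : CD A → Set (Fin 3 × Fin 3 → ℂ) := fun p =>
    {v | 0 < qf (sp A p.1.1 p.1.2.1) (toM v *ᵥ p.1.2.2)} with hU
  have hUo : ∀ p, IsOpen (U p) := by
    intro p
    apply isOpen_lt continuous_const
    exact (continuous_qf _).comp (continuous_toM.matrix_mulVec continuous_const)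
  have hcov : C ⊆ ⋃ p, U p := by
    rintro v ⟨hv, hv0⟩
    by_contra hcon
    rw [Set.mem_iUnion, not_exists] at hcon
    obtain ⟨y, hy⟩ := scalar_of_contact hR hC (Y := toM v) (fun t c η h => by
      have h1 := hcon ⟨(t, c, η), h⟩
      have h2 : 0 ≤ qf (sp A t c) (toM v *ᵥ η) := qf_nonneg_of_posSemidef h.2.1 _
      have h3 : ¬ 0 < qf (sp A t c) (toM v *ᵥ η) := h1
      linarith)
    have h4 : (toM v).trace = 3 * y := by
      rw [hy, Matrix.trace_smul, Matrix.trace_one, smul_eq_mul]
      simp; ring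
    have h5 : y = 0 := by
      have h6 : (3 : ℂ) * y = 0 := by rw [← h4]; exact hv0
      rcases mul_eq_zero.mp h6 with h | h
      · norm_num at h
      · exact h
    apply sph_ne_zero hv
    ext p
    have h7 : toM v p.1 p.2 = 0 := by rw [hy, h5]; simp
    exact h7
  obtain ⟨F, hF⟩ := hCc.elim_finite_subcover U hUo hcov
  have hpos : ∀ v ∈ C, 0 < pF A F (toM v) := by
    intro v hv
    obtain ⟨p, hp, hvp⟩ := Set.mem_iUnion₂.mp (hF hv)
    unfold pF
    exact Finset.sum_pos' (fun q _ => qf_nonneg_of_posSemidef q.2.2.1 _) ⟨p, hp, hvp⟩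
  have hcont1 : Continuous fun v => pF A F (toM v) := by
    unfold pF
    refine continuous_finsetSum _ fun p _ => ?_
    exact (continuous_qf _).comp (continuous_toM.matrix_mulVec continuous_const)
  have hcont2 : Continuous fun v => - QD A D (toM v) := by
    unfold QD
    have := continuous_toM
    apply Continuous.neg
    apply Continuous.add
    · apply Continuous.mul continuous_const
      apply Complex.continuous_re.comp
      apply Continuous.matrix_trace
      fun_prop
    · apply Complex.continuous_re.comp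
      apply Continuous.matrix_trace
      fun_prop
  obtain ⟨N, hN0, hN⟩ := compact_pos hCc hcont1.continuousOn hcont2.continuousOn
    (fun v _ => pF_nonneg F _) (fun v hv h0 => absurd h0 (hpos v hv).ne')
  refine ⟨F, N, hN0, fun V => ?_⟩
  set a : ℂ := V.trace / 3 with ha
  set Y : M3 := V - a • 1 with hY
  have hV : V = a • 1 + Y := by rw [hY]; abel
  have hYtr : Y.trace = 0 := by
    rw [hY, Matrix.trace_sub, Matrix.trace_smul, Matrix.trace_one, ha, smul_eq_mul]
    simp
  rw [hV, pF_shift, QD_shift hD]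
  by_cases hY0 : (fun p : Fin 3 × Fin 3 => Y p.1 p.2) = 0
  · have hY0' : Y = 0 := by
      ext i j
      exact congrFun hY0 (i, j)
    rw [hY0']
    simp [pF, QD, qf]
  · obtain ⟨r, u, hr, hu, hru⟩ := exists_sph hY0
    have hYu : Y = r • toM u := by
      ext i j
      exact congrFun hru (i, j)
    have huC : u ∈ C := by
      refine ⟨hu, ?_⟩
      rw [hYu, Matrix.trace_smul, smul_eq_zero] at hYtr
      rcases hYtr with h | h
      · exact absurd h hr.ne'
      · exact h
    rw [hYu, pF_smul, QD_smul]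
    have h1 := hN N le_rfl u huC
    have h2 : N * (r ^ 2 * pF A F (toM u)) - r ^ 2 * QD A D (toM u) =
        r ^ 2 * (N * pF A F (toM u) + -QD A D (toM u)) := by ring
    rw [h2]
    positivity

end Pool.Agent.Lib.P74fcff
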