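import Pool.Agent.Lib.P74fcff.Nec4

set_option autoImplicit false
set_option linter.unusedSectionVars false

open scoped ComplexOrder Matrix MatrixOrder TensorProduct

universe u

namespace Pool.Agent.Lib.P74fcff

/-- the perturbed matrix -/
noncomputable def pert (A D : M3) (κ ε : ℝ) : M3 :=
  (1 - ε * κ) • A + ε • D + (((ε * κ : ℝ) : ℂ) * (A.trace / 3)) • (1 : M3)

lemma dot_pert (A D : M3) (κ ε : ℝ) (v : Fin 3 → ℂ) :
    star v ⬝ᵥ (pert A D κ ε *ᵥ v) = ((1 - ε * κ : ℝ) : ℂ) * (star v ⬝ᵥ (A *ᵥ v)) +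
      (ε : ℂ) * (star v ⬝ᵥ (D *ᵥ v)) + (((ε * κ : ℝ) : ℂ) * (A.trace / 3)) * ((qf 1 v : ℝ) : ℂ) := by
  unfold pert
  rw [Matrix.add_mulVec, Matrix.add_mulVec, Matrix.smul_mulVec, Matrix.smul_mulVec,
    Matrix.smul_mulVec, dotProduct_add, dotProduct_add, dotProduct_smul, dotProduct_smul,
    dotProduct_smul, herm_dot_eq herm_one, Complex.real_smul, Complex.real_smul, smul_eq_mul]

lemma qf_sp_pert (A D : M3) (κ ε t : ℝ) (c : ℂ) (v : Fin 3 → ℂ) :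
    qf (sp (pert A D κ ε) t c) v = (1 - ε * κ) * qf (sp A t c) v +
      ε * (2 * (c * (star v ⬝ᵥ (D *ᵥ v))).re) +
      ε * κ * ((t + 2 * (c * (A.trace / 3)).re) * qf 1 v) := by
  rw [qf_sp, qf_sp, dot_pert]
  have h1 : (c * (((1 - ε * κ : ℝ) : ℂ) * (star v ⬝ᵥ (A *ᵥ v)) +
      (ε : ℂ) * (star v ⬝ᵥ (D *ᵥ v)) +
      (((ε * κ : ℝ) : ℂ) * (A.trace / 3)) * ((qf 1 v : ℝ) : ℂ))).re =
      (1 - ε * κ) * (c * (star v ⬝ᵥ (A *ᵥ v))).re + ε * (c * (star v ⬝ᵥ (D *ᵥ v))).re +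
      ε * κ * (c * (A.trace / 3)).re * qf 1 v := by
    rw [mul_add, mul_add, Complex.add_re, Complex.add_re, mul_left_comm, Complex.re_ofReal_mul,
      mul_left_comm c (ε : ℂ), Complex.re_ofReal_mul]
    have h2 : c * (((ε * κ : ℝ) : ℂ) * (A.trace / 3) * ((qf 1 v : ℝ) : ℂ)) =
      ((ε * κ * qf 1 v : ℝ) : ℂ) * (c * (A.trace / 3)) := by
      push_cast; ring
    rw [h2, Complex.re_ofReal_mul]
    ring
  rw [h1]
  ring

/-- the contact condition -/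
lemma re_dot_zero {A : M3} (hR : ¬ RankOne A) {D : M3}
    (hD : ∀ (t : ℝ) (c : ℂ), (c * (D * (sp A t c).adjugate).trace).re = 0)
    {t : ℝ} {c : ℂ} {v : Fin 3 → ℂ} (hv : v ≠ 0) (h : sp A t c *ᵥ v = 0) :
    (c * (star v ⬝ᵥ (D *ᵥ v))).re = 0 := by
  by_cases hc : c = 0
  · rw [hc]; simp
  obtain ⟨k, hk, hadj⟩ := adj_form (sp_herm A t c) (rank_sp hR t hc) hv h
  have h1 := hD t c
  rw [hadj, Matrix.mul_smul, Matrix.trace_smul, trace_mul_rk1, Complex.real_smul, mul_left_comm,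
    Complex.re_ofReal_mul] at h1
  rcases mul_eq_zero.mp h1 with h2 | h2
  · exact absurd h2 hk
  · exact h2

lemma trace_sp (A : M3) (t : ℝ) (c : ℂ) :
    (sp A t c).trace.re = 3 * (t + 2 * (c * (A.trace / 3)).re) := by
  unfold sp
  rw [Matrix.trace_add, Matrix.trace_add, Complex.add_re, Complex.add_re, trace_star,
    Matrix.trace_smul, Matrix.trace_one, Matrix.trace_smul, Complex.real_smul,
    Complex.re_ofReal_mul, smul_eq_mul]
  have : c * A.trace = ((3 : ℝ) : ℂ) * (c * (A.trace / 3)) := by push_cast; ring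
  rw [this, Complex.re_ofReal_mul]
  simp
  ring

/-- positivity is preserved by the perturbation -/
theorem exists_eps {A : M3} (hR : ¬ RankOne A) {D : M3}
    (hD : ∀ (t : ℝ) (c : ℂ), (c * (D * (sp A t c).adjugate).trace).re = 0) {κ : ℝ} (hκ : 0 < κ) :
    ∃ ε : ℝ, 0 < ε ∧ ∀ (t : ℝ) (c : ℂ), (∀ v, 0 ≤ qf (sp A t c) v) →
      ∀ v, 0 ≤ qf (sp (pert A D κ ε) t c) v := by
  set S1 : Set (ℝ × ℂ) := {p | p.1 ^ 2 + ‖p.2‖ ^ 2 = 1} with hS1
  have hS1c : IsCompact S1 := by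
    apply Metric.isCompact_of_isClosed_isBounded
    · exact isClosed_eq (by fun_prop) continuous_const
    · rw [Metric.isBounded_iff_subset_closedBall (0 : ℝ × ℂ)]
      refine ⟨1, fun p hp => ?_⟩
      rw [mem_closedBall_zero_iff, Prod.norm_def]
      have h1 : p.1 ^ 2 + ‖p.2‖ ^ 2 = 1 := hp
      apply max_le
      · rw [Real.norm_eq_abs, ← sq_le_one_iff_abs_le_one]
        nlinarith [sq_nonneg ‖p.2‖]
      · rw [← abs_of_nonneg (norm_nonneg p.2), ← sq_le_one_iff_abs_le_one]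
        nlinarith [sq_nonneg p.1]
  set P : Set (ℝ × ℂ) := {p | ∀ v, 0 ≤ qf (sp A p.1 p.2) v} with hP
  have hqc : Continuous fun q : (ℝ × ℂ) × (Fin 3 → ℂ) => qf (sp A q.1.1 q.1.2) q.2 := by
    have : (fun q : (ℝ × ℂ) × (Fin 3 → ℂ) => qf (sp A q.1.1 q.1.2) q.2) =
        fun q => q.1.1 * (∑ i, ‖q.2 i‖ ^ 2) + 2 * (q.1.2 * (star q.2 ⬝ᵥ (A *ᵥ q.2))).re := by
      ext q
      rw [qf_sp, qf_one]
    rw [this]
    fun_prop
  have hPc : IsClosed P := by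
    have : P = ⋂ v : Fin 3 → ℂ, {p | 0 ≤ qf (sp A p.1 p.2) v} := by
      ext p; simp [hP]
    rw [this]
    apply isClosed_iInter
    intro v
    apply isClosed_le continuous_const
    exact hqc.comp (Continuous.prodMk continuous_id continuous_const)
  set K1 : Set ((ℝ × ℂ) × (Fin 3 → ℂ)) := (S1 ∩ P) ×ˢ sph (Fin 3) with hK1
  have hK1c : IsCompact K1 := (hS1c.inter_right hPc).prod isCompact_sph
  obtain ⟨N, hN0, hN⟩ := compact_pos hK1c (f := fun q => qf (sp A q.1.1 q.1.2) q.2)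
    (g := fun q => 2 * (q.1.2 * (star q.2 ⬝ᵥ (D *ᵥ q.2))).re +
      κ * (q.1.1 + 2 * (q.1.2 * (A.trace / 3)).re))
    hqc.continuousOn (by fun_prop) (fun q hq => hq.1.2 q.2) (by
      rintro ⟨⟨t, c⟩, v⟩ ⟨⟨hq1, hq2⟩, hv⟩ h0
      simp only at h0 hv ⊢
      have hq1' : t ^ 2 + ‖c‖ ^ 2 = 1 := hq1
      have hpsd : (sp A t c).PosSemidef := posSemidef_of_qf (sp_herm A t c) hq2
      have hk : sp A t c *ᵥ v = 0 := by
        rw [← hpsd.dotProduct_mulVec_zero_iff, herm_dot_eq (sp_herm A t c), h0]; simp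
      rw [re_dot_zero hR hD (sph_ne_zero hv) hk, mul_zero, zero_add]
      apply mul_pos hκ
      have h1 : 0 ≤ (sp A t c).trace.re := (Complex.le_def.mp hpsd.trace_nonneg).1
      have h2 : (sp A t c).trace.re ≠ 0 := by
        intro h
        have h3 : (sp A t c).trace = 0 :=
          Complex.ext h (Complex.le_def.mp hpsd.trace_nonneg).2.symm
        rw [hpsd.trace_eq_zero_iff] at h3
        by_cases hc : c = 0
        · subst hc
          have h4 : t = 0 := by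
            have h5 := congrFun (congrFun h3 0) 0
            simpa [sp] using h5
          rw [h4] at hq1'
          simp at hq1'
        · have h4 := rank_sp hR t hc
          rw [h3, Matrix.rank_zero] at h4
          omega
      have h3 : 0 < (sp A t c).trace.re := lt_of_le_of_ne h1 (Ne.symm h2)
      rw [trace_sp] at h3
      linarith)
  have hε : 0 < 1 / (N + κ) := by positivity
  refine ⟨1 / (N + κ), hε, fun t c hpos v => ?_⟩
  set ε := 1 / (N + κ) with hεdef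
  have hεN : 1 - ε * κ = ε * N := by
    rw [hεdef]; field_simp; ring
  have hgen : qf (sp (pert A D κ ε) t c) v = ε * (N * qf (sp A t c) v +
      (2 * (c * (star v ⬝ᵥ (D *ᵥ v))).re + κ * ((t + 2 * (c * (A.trace / 3)).re) * qf 1 v))) := by
    rw [qf_sp_pert, hεN]; ring
  rw [hgen]
  apply mul_nonneg hε.le
  by_cases hv : v = 0
  · subst hv; simp [qf]
  by_cases htc : t = 0 ∧ c = 0
  · rw [htc.1, htc.2]; simp [sp, qf]
  obtain ⟨r, u, hr, hu, rfl⟩ := exists_sph hv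
  have hρ : 0 < t ^ 2 + ‖c‖ ^ 2 := by
    by_contra hcon
    have h1 : t ^ 2 = 0 := by nlinarith [sq_nonneg t, sq_nonneg ‖c‖]
    have h2 : ‖c‖ ^ 2 = 0 := by nlinarith [sq_nonneg t, sq_nonneg ‖c‖]
    exact htc ⟨by simpa using h1, by simpa using h2⟩
  set ρ := √(t ^ 2 + ‖c‖ ^ 2) with hρdef
  have hρ0 : 0 < ρ := Real.sqrt_pos.mpr hρ
  have hρ2 : ρ ^ 2 = t ^ 2 + ‖c‖ ^ 2 := Real.sq_sqrt hρ.le
  set t0 : ℝ := ρ⁻¹ * t with ht0
  set c0 : ℂ := ((ρ⁻¹ : ℝ) : ℂ) * c with hc0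
  have hsp0 : sp A t0 c0 = ρ⁻¹ • sp A t c := sp_smul A _ _ _
  have hmem : ((t0, c0), u) ∈ K1 := by
    refine ⟨⟨?_, ?_⟩, hu⟩
    · change t0 ^ 2 + ‖c0‖ ^ 2 = 1
      rw [ht0, hc0, norm_mul, Complex.norm_real, Real.norm_of_nonneg (by positivity), mul_pow,
        mul_pow, ← mul_add, ← hρ2, ← mul_pow, inv_mul_cancel₀ hρ0.ne', one_pow]
    · intro w
      change 0 ≤ qf (sp A t0 c0) w
      rw [hsp0, qf_smul]
      exact mul_nonneg (by positivity) (hpos w)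
  have hmain := hN N le_rfl _ hmem
  simp only at hmain
  have hq1 : qf 1 u = 1 := by rw [qf_one]; exact hu
  have e1 : qf (sp A t c) u = ρ * qf (sp A t0 c0) u := by
    rw [hsp0, qf_smul, ← mul_assoc, mul_inv_cancel₀ hρ0.ne', one_mul]
  have hcρ : c = (ρ : ℂ) * c0 := by
    rw [hc0, ← mul_assoc, ← Complex.ofReal_mul, mul_inv_cancel₀ hρ0.ne']; simp
  have htρ : t = ρ * t0 := by
    rw [ht0, ← mul_assoc, mul_inv_cancel₀ hρ0.ne', one_mul]
  have e2 : (c * (star u ⬝ᵥ (D *ᵥ u))).re = ρ * (c0 * (star u ⬝ᵥ (D *ᵥ u))).re := by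
    rw [hcρ, mul_assoc, Complex.re_ofReal_mul]
  have e3 : (c * (A.trace / 3)).re = ρ * (c0 * (A.trace / 3)).re := by
    rw [hcρ, mul_assoc, Complex.re_ofReal_mul]
  have e4 : (c * (star (r • u) ⬝ᵥ (D *ᵥ (r • u)))).re = r ^ 2 * (c * (star u ⬝ᵥ (D *ᵥ u))).re := by
    have : star (r • u) ⬝ᵥ (D *ᵥ (r • u)) = ((r ^ 2 : ℝ) : ℂ) * (star u ⬝ᵥ (D *ᵥ u)) := by
      rw [star_smul, Matrix.mulVec_smul, smul_dotProduct, dotProduct_smul]
      simp
      ring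
    rw [this, mul_left_comm, Complex.re_ofReal_mul]
  rw [qf_smul_vec, qf_smul_vec, hq1, e4, e1, e2, e3]
  have hfin : N * (r ^ 2 * (ρ * qf (sp A t0 c0) u)) +
      (2 * (r ^ 2 * (ρ * (c0 * (star u ⬝ᵥ (D *ᵥ u))).re)) +
        κ * ((t + 2 * (ρ * (c0 * (A.trace / 3)).re)) * (r ^ 2 * 1))) =
      (r ^ 2 * ρ) * (N * qf (sp A t0 c0) u + (2 * (c0 * (star u ⬝ᵥ (D *ᵥ u))).re +
        κ * (t0 + 2 * (c0 * (A.trace / 3)).re))) := by
    rw [htρ]; ring
  rw [hfin]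
  positivity

end Pool.Agent.Lib.P74fcff
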