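import Pool.Agent.Lib.P74fcff.Nec5

set_option autoImplicit false
set_option linter.unusedSectionVars false

open scoped ComplexOrder Matrix MatrixOrder TensorProduct

universe u

namespace Pool.Agent.Lib.P74fcff

/-- the index type in universe `u` -/
abbrev I3 : Type u := ULift.{u} (Fin 3)

/-- lift of a matrix -/
def lift3 (T : M3) : Matrix I3.{u} I3.{u} ℂ := T.submatrix ULift.down ULift.down

lemma lift3_inner (T : M3) (k : EuclideanSpace ℂ I3.{u}) :
    inner ℂ k (Matrix.toEuclideanCLM (𝕜 := ℂ) (lift3 T) k) =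
      star (fun i : Fin 3 => k (ULift.up i)) ⬝ᵥ (T *ᵥ (fun i : Fin 3 => k (ULift.up i))) := by
  rw [EuclideanSpace.inner_eq_star_dotProduct, dotProduct_comm]
  simp only [dotProduct, Pi.star_apply, Matrix.ofLp_toEuclideanCLM, Matrix.mulVec, lift3,
    Matrix.submatrix_apply]
  rw [← (Equiv.ulift.{u} (α := Fin 3)).symm.sum_comp]
  refine Finset.sum_congr rfl fun i _ => ?_
  rw [← (Equiv.ulift.{u} (α := Fin 3)).symm.sum_comp]
  rfl

lemma lift3_norm (k : EuclideanSpace ℂ I3.{u}) :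
    ‖k‖ ^ 2 = qf 1 (fun i : Fin 3 => k (ULift.up i)) := by
  rw [EuclideanSpace.norm_sq_eq, qf_one, ← (Equiv.ulift.{u} (α := Fin 3)).symm.sum_comp]
  rfl

lemma posHyp_lift {A T : M3}
    (h : ∀ (t : ℝ) (c : ℂ), (∀ v, 0 ≤ qf (sp A t c) v) → ∀ v, 0 ≤ qf (sp T t c) v) :
    PosHyp A ((Matrix.toEuclideanCLM (𝕜 := ℂ) (lift3.{u} T) :
      EuclideanSpace ℂ I3.{u} →L[ℂ] EuclideanSpace ℂ I3.{u}) :
      EuclideanSpace ℂ I3.{u} →ₗ[ℂ] EuclideanSpace ℂ I3.{u}) := by
  intro c t hpos k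
  have h1 := h t (c / 2) (fun v => by
    rw [qf_sp]
    have h2 := hpos v
    have h3 : 2 * (c / 2 * (star v ⬝ᵥ (A *ᵥ v))).re = (c * (star v ⬝ᵥ (A *ᵥ v))).re := by
      have : c / 2 * (star v ⬝ᵥ (A *ᵥ v)) = ((1 / 2 : ℝ) : ℂ) * (c * (star v ⬝ᵥ (A *ᵥ v))) := by
        push_cast; ring
      rw [this, Complex.re_ofReal_mul]; ring
    rw [h3]; exact h2) (fun i : Fin 3 => k (ULift.up i))
  rw [qf_sp, ← lift3_norm, ← lift3_inner] at h1
  rw [ContinuousLinearMap.coe_coe]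
  have h3 : ∀ z : ℂ, 2 * (c / 2 * z).re = (c * z).re := by
    intro z
    have : c / 2 * z = ((1 / 2 : ℝ) : ℂ) * (c * z) := by
      push_cast; ring
    rw [this, Complex.re_ofReal_mul]; ring
  rw [h3] at h1
  exact h1

/-- property (D) gives a Kraus decomposition -/
theorem kraus {A T : M3} (hD : PropertyV.{u} A)
    (h : ∀ (t : ℝ) (c : ℂ), (∀ v, 0 ≤ qf (sp A t c) v) → ∀ v, 0 ≤ qf (sp T t c) v) :
    ∃ V : Fin 3 × Fin 3 → M3, ∑ r, (V r)ᴴ * V r = 1 ∧ ∑ r, (V r)ᴴ * A * V r = T := by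
  obtain ⟨L, i1, i2, i3, W, hW1, hW2⟩ := hD (EuclideanSpace ℂ I3.{u})
    (Matrix.toEuclideanCLM (𝕜 := ℂ) (lift3.{u} T)) (numRange_subset (posHyp_lift h))
  set e : Fin 3 → EuclideanSpace ℂ I3.{u} := fun k => EuclideanSpace.single (ULift.up k) 1 with he
  set v : Fin 3 → Fin 3 → L := fun k j => W j (e k) with hv
  have hone : ∀ k k', ∑ j, inner ℂ (v k j) (v k' j) = (1 : M3) k k' := by
    intro k k'
    have h1 := hW1 (e k) (e k')
    have h2 : inner ℂ (e k) (e k') = (1 : M3) k k' := by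
      rw [he, EuclideanSpace.inner_single_left, Matrix.one_apply]
      simp
    rw [← h2, ← h1]
  have hT : ∀ k k', ∑ i, ∑ j, A i j * inner ℂ (v k i) (v k' j) = T k k' := by
    intro k k'
    have h1 := hW2 (e k) (e k')
    have h2 : inner ℂ (e k) (Matrix.toEuclideanCLM (𝕜 := ℂ) (lift3.{u} T) (e k')) = T k k' := by
      rw [he, EuclideanSpace.inner_single_left]
      simp [lift3]
    rw [← h2]
    exact h1
  -- Gram matrix
  set g : Fin 3 × Fin 3 → L := fun p => v p.2 p.1 with hg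
  have hG : (Matrix.gram ℂ g).PosSemidef := Matrix.posSemidef_gram ℂ g
  obtain ⟨R, hR⟩ := CStarAlgebra.nonneg_iff_eq_star_mul_self.mp hG.nonneg
  have hRe : ∀ p q, inner ℂ (g p) (g q) = ∑ r, star (R r p) * R r q := by
    intro p q
    have := congrFun (congrFun hR p) q
    rw [Matrix.gram_apply, Matrix.star_eq_conjTranspose, Matrix.mul_apply] at this
    exact this
  refine ⟨fun r => Matrix.of fun j k => R r (j, k), ?_, ?_⟩
  · ext k k'
    rw [← hone, Matrix.sum_apply]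
    simp only [Matrix.mul_apply, Matrix.conjTranspose_apply, Matrix.of_apply]
    rw [Finset.sum_comm]
    refine Finset.sum_congr rfl fun j _ => ?_
    have := hRe (j, k) (j, k')
    exact this.symm
  · ext k k'
    rw [← hT, Matrix.sum_apply]
    simp only [Matrix.mul_apply, Matrix.conjTranspose_apply, Matrix.of_apply]
    have e1 : ∀ i j, A i j * inner ℂ (v k i) (v k' j) =
        ∑ r, A i j * (star (R r (i, k)) * R r (j, k')) := by
      intro i j
      rw [← Finset.mul_sum]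
      congr 1
      exact hRe (i, k) (j, k')
    simp only [e1, Finset.sum_mul]
    rw [Finset.sum_comm]
    rw [Finset.sum_congr rfl fun i _ => Finset.sum_comm]
    rw [Finset.sum_comm]
    refine Finset.sum_congr rfl fun i _ => ?_
    refine Finset.sum_congr rfl fun j _ => ?_
    refine Finset.sum_congr rfl fun r _ => ?_
    ring

/-- summation of the forms over a Kraus family -/
lemma sum_qf {A T : M3} {V : Fin 3 × Fin 3 → M3} (h1 : ∑ r, (V r)ᴴ * V r = 1)
    (h2 : ∑ r, (V r)ᴴ * A * V r = T) (t : ℝ) (c : ℂ) (η : Fin 3 → ℂ) :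
    ∑ r, qf (sp A t c) (V r *ᵥ η) = qf (sp T t c) η := by
  have hM : ∀ M : M3, ∑ r, star (V r *ᵥ η) ⬝ᵥ (M *ᵥ (V r *ᵥ η)) =
      star η ⬝ᵥ ((∑ r, (V r)ᴴ * M * V r) *ᵥ η) := by
    intro M
    rw [Matrix.sum_mulVec, dotProduct_sum]
    refine Finset.sum_congr rfl fun r _ => ?_
    rw [qf_conj]
  have e1 : ∑ r, qf 1 (V r *ᵥ η) = qf 1 η := by
    have := congrArg Complex.re (hM 1)
    simp only [Matrix.mul_one, h1] at this
    rw [Complex.re_sum] at this
    exact this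
  have e2 : ∑ r, (c * (star (V r *ᵥ η) ⬝ᵥ (A *ᵥ (V r *ᵥ η)))).re =
      (c * (star η ⬝ᵥ (T *ᵥ η))).re := by
    rw [← Complex.re_sum, ← Finset.mul_sum, hM, h2]
  simp only [qf_sp]
  rw [Finset.sum_add_distrib, ← Finset.mul_sum, ← Finset.mul_sum, e1, e2]

lemma sum_QD {A T D : M3} {V : Fin 3 × Fin 3 → M3} (h1 : ∑ r, (V r)ᴴ * V r = 1)
    (h2 : ∑ r, (V r)ᴴ * A * V r = T) :
    ∑ r, QD A D (V r) = -(Dᴴ * A).trace.re + (Dᴴ * T).trace.re := by
  unfold QD
  rw [Finset.sum_add_distrib, ← Finset.mul_sum, ← Complex.re_sum, ← Complex.re_sum,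
    ← Matrix.trace_sum, ← Matrix.trace_sum, ← Finset.mul_sum, ← Finset.mul_sum, h1, h2,
    Matrix.mul_one, Matrix.trace_add, Complex.add_re]
  have : (D * Aᴴ).trace.re = (Dᴴ * A).trace.re := by
    rw [← trace_star, Matrix.conjTranspose_mul, Matrix.conjTranspose_conjTranspose,
      Matrix.trace_mul_comm]
  rw [this]; ring

/-- Necessity. -/
theorem necessity {A : M3} (hR : ¬ RankOne A) (hC : ¬ CommonEigenvector A) :
    ¬ PropertyV.{u} A := by
  intro hPD
  obtain ⟨D, hD0, hD1, hD2⟩ := exists_delta A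
  obtain ⟨F, N, hN, hform⟩ := exists_forms hR hC hD1
  have hDD : 0 < (Dᴴ * D).trace.re := by
    have h4 : (Dᴴ * D).PosSemidef := Matrix.posSemidef_conjTranspose_mul_self D
    have h6 := Complex.le_def.mp h4.trace_nonneg
    rcases h6.1.lt_or_eq with h | h
    · exact h
    · exfalso
      apply hD0
      rw [← Matrix.trace_conjTranspose_mul_self_eq_zero_iff]
      exact Complex.ext h.symm h6.2.symm
  set c0 : ℝ := ∑ p ∈ F, (p.1.1 + 2 * (p.1.2.1 * (A.trace / 3)).re) * qf 1 p.1.2.2 with hc0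
  set c1 : ℝ := (Dᴴ * A).trace.re - (A.trace / 3 * (Dᴴ).trace).re with hc1
  set κ : ℝ := (Dᴴ * D).trace.re / (2 * (|N * c0 + c1| + 1)) with hκ
  have hκ0 : 0 < κ := by positivity
  obtain ⟨ε, hε, hpos⟩ := exists_eps hR hD2 hκ0
  obtain ⟨V, hV1, hV2⟩ := kraus hPD hpos
  have hsum : 0 ≤ ∑ r, (N * pF A F (V r) - QD A D (V r)) :=
    Finset.sum_nonneg fun r _ => hform (V r)
  rw [Finset.sum_sub_distrib, ← Finset.mul_sum, sum_QD hV1 hV2] at hsum
  have e1 : ∑ r, pF A F (V r) = ε * κ * c0 := by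
    unfold pF
    rw [Finset.sum_comm, hc0, Finset.mul_sum]
    refine Finset.sum_congr rfl fun p _ => ?_
    rw [sum_qf hV1 hV2, qf_sp_pert, re_dot_zero hR hD2 p.2.2.2.1 p.2.2.2.2]
    have : qf (sp A p.1.1 p.1.2.1) p.1.2.2 = 0 := by
      unfold qf; rw [p.2.2.2.2]; simp
    rw [this]
    ring
  have e2 : (Dᴴ * pert A D κ ε).trace.re = (1 - ε * κ) * (Dᴴ * A).trace.re +
      ε * (Dᴴ * D).trace.re + ε * κ * (A.trace / 3 * (Dᴴ).trace).re := by
    unfold pert
    rw [Matrix.mul_add, Matrix.mul_add, Matrix.trace_add, Matrix.trace_add, Matrix.mul_smul,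
      Matrix.mul_smul, Matrix.mul_smul, Matrix.trace_smul, Matrix.trace_smul, Matrix.trace_smul,
      Matrix.mul_one, Complex.real_smul, Complex.real_smul, smul_eq_mul, mul_assoc, Complex.add_re,
      Complex.add_re, Complex.re_ofReal_mul, Complex.re_ofReal_mul, Complex.re_ofReal_mul]
  rw [e1, e2] at hsum
  have h3 : 0 ≤ ε * (κ * (N * c0 + c1) - (Dᴴ * D).trace.re) := by
    rw [hc1]
    have : N * (ε * κ * c0) - (-(Dᴴ * A).trace.re + ((1 - ε * κ) * (Dᴴ * A).trace.re +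
      ε * (Dᴴ * D).trace.re + ε * κ * (A.trace / 3 * (Dᴴ).trace).re)) =
      ε * (κ * (N * c0 + ((Dᴴ * A).trace.re - (A.trace / 3 * (Dᴴ).trace).re)) -
        (Dᴴ * D).trace.re) := by ring
    rw [← this]; exact hsum
  have h4 : 0 ≤ κ * (N * c0 + c1) - (Dᴴ * D).trace.re := nonneg_of_mul_nonneg_right h3 hε
  have h5 : κ * (N * c0 + c1) ≤ κ * |N * c0 + c1| :=
    mul_le_mul_of_nonneg_left (le_abs_self _) hκ0.le
  have h6 : κ * (2 * (|N * c0 + c1| + 1)) = (Dᴴ * D).trace.re := by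
    rw [hκ]; field_simp
  nlinarith [abs_nonneg (N * c0 + c1)]

/-- The classification. -/
theorem classification (A : M3) : PropertyV.{u} A ↔ CommonEigenvector A ∨ RankOne A := by
  constructor
  · intro h
    by_contra hcon
    push Not at hcon
    exact necessity hcon.2 hcon.1 h
  · rintro (h | h)
    · exact propertyV_of_common h
    · exact propertyV_of_rankOne (by norm_num) h

end Pool.Agent.Lib.P74fcff
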