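import Pool.Agent.Lib.P74fcff.Suff2

set_option autoImplicit false
set_option linter.unusedSectionVars false

open scoped ComplexOrder Matrix MatrixOrder TensorProduct

universe u

namespace Pool.Agent.Lib.P74fcff

section unitary

variable {K : Type u} [NormedAddCommGroup K] [InnerProductSpace ℂ K]

variable {ι : Type} [Fintype ι] [DecidableEq ι]

lemma qf_conj {U M : Matrix ι ι ℂ} (v : ι → ℂ) :
    star v ⬝ᵥ ((Uᴴ * M * U) *ᵥ v) = star (U *ᵥ v) ⬝ᵥ (M *ᵥ (U *ᵥ v)) := by
  rw [Matrix.star_mulVec, ← Matrix.mulVec_mulVec, ← Matrix.mulVec_mulVec,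
    Matrix.dotProduct_mulVec (star v)]

lemma posHyp_conj {A U : Matrix ι ι ℂ} (hU : Uᴴ * U = 1) {T : K →ₗ[ℂ] K} (h : PosHyp A T) :
    PosHyp (Uᴴ * A * U) T := by
  have hU' : U * Uᴴ = 1 := mul_eq_one_comm.mp hU
  intro c t hpos k
  refine h c t (fun v => ?_) k
  have h1 := hpos (Uᴴ *ᵥ v)
  have e : U *ᵥ (Uᴴ *ᵥ v) = v := by rw [Matrix.mulVec_mulVec, hU', Matrix.one_mulVec]
  rw [qf_conj, e] at h1
  have h2 : qf 1 (Uᴴ *ᵥ v) = qf 1 v := by
    have h3 := qf_conj (U := U) (M := 1) (Uᴴ *ᵥ v)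
    rw [Matrix.mul_one, hU, e] at h3
    unfold qf
    rw [h3]
  rw [h2] at h1
  exact h1

lemma dilV_conj {A U : Matrix ι ι ℂ} (hU : Uᴴ * U = 1) {T : K →ₗ[ℂ] K}
    (h : DilV (Uᴴ * A * U) T) : DilV A T := by
  obtain ⟨L, i1, i2, i3, V, hV1, hV2⟩ := h
  have key : ∀ (M : Matrix ι ι ℂ) (x y : K),
      ∑ i, ∑ j, M i j * inner ℂ ((∑ a, U i a • V a) x) ((∑ b, U j b • V b) y) =
      ∑ a, ∑ b, (Uᴴ * M * U) a b * inner ℂ (V a x) (V b y) := by
    intro M x y
    have e1 : ∀ i j, inner ℂ ((∑ a, U i a • V a) x) ((∑ b, U j b • V b) y) =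
        ∑ a, ∑ b, star (U i a) * U j b * inner ℂ (V a x) (V b y) := by
      intro i j
      simp only [LinearMap.sum_apply, LinearMap.smul_apply, sum_inner, inner_sum,
        inner_smul_left, inner_smul_right, Complex.star_def, Finset.mul_sum]
      rw [Finset.sum_comm]
      refine Finset.sum_congr rfl fun a _ => Finset.sum_congr rfl fun b _ => ?_
      ring
    simp only [e1, Matrix.mul_apply, Matrix.conjTranspose_apply, Finset.mul_sum, Finset.sum_mul]
    rw [Finset.sum_congr rfl fun i _ => Finset.sum_comm]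
    rw [Finset.sum_comm]
    refine Finset.sum_congr rfl fun a _ => ?_
    rw [Finset.sum_congr rfl fun i _ => Finset.sum_comm]
    rw [Finset.sum_comm]
    refine Finset.sum_congr rfl fun b _ => ?_
    rw [Finset.sum_comm]
    refine Finset.sum_congr rfl fun j _ => ?_
    refine Finset.sum_congr rfl fun i _ => ?_
    ring
  refine ⟨L, i1, i2, i3, fun i => ∑ a, U i a • V a, fun x y => ?_, fun x y => ?_⟩
  · have h1 := key 1 x y
    rw [Matrix.mul_one, hU] at h1
    have e2 : ∀ (g : ι → ι → ℂ), ∑ i, ∑ j, (1 : Matrix ι ι ℂ) i j * g i j = ∑ i, g i i := by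
      intro g
      refine Finset.sum_congr rfl fun i _ => ?_
      rw [Finset.sum_eq_single i]
      · simp
      · intro j _ hj
        rw [Matrix.one_apply_ne hj.symm, zero_mul]
      · intro h; exact absurd (Finset.mem_univ i) h
    rw [e2, e2, hV1] at h1
    exact h1
  · rw [key, hV2]

end unitary

section two

lemma rank_add_le {ι : Type} [Fintype ι] [DecidableEq ι] {k : ℕ} (M : Matrix ι ι ℂ)
    (f : Fin k → ι → ℂ) (hf : LinearIndependent ℂ f) (hM : ∀ i, M *ᵥ f i = 0) :
    M.rank + k ≤ Fintype.card ι := by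
  have h1 := LinearMap.finrank_range_add_finrank_ker M.mulVecLin
  have h2 : k ≤ Module.finrank ℂ (LinearMap.ker M.mulVecLin) := by
    let g : Fin k → LinearMap.ker M.mulVecLin := fun i => ⟨f i, by simpa using hM i⟩
    have hg : LinearIndependent ℂ g := by
      apply LinearIndependent.of_comp (LinearMap.ker M.mulVecLin).subtype
      exact hf
    have := hg.fintype_card_le_finrank
    simpa using this
  rw [Module.finrank_fintype_fun_eq_card] at h1
  have h3 : M.rank = Module.finrank ℂ (LinearMap.range M.mulVecLin) := rfl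
  omega

lemma rankOne_two (A : Matrix (Fin 2) (Fin 2) ℂ) : RankOne A := by
  have hM : (A + Aᴴ).IsHermitian := by
    rw [Matrix.IsHermitian, Matrix.conjTranspose_add, Matrix.conjTranspose_conjTranspose,
      add_comm]
  refine ⟨1, one_ne_zero, hM.eigenvalues 0, ?_⟩
  have h1 := hM.mulVec_eigenvectorBasis 0
  have h2 : (hM.eigenvectorBasis 0).ofLp ≠ 0 := by
    have := hM.eigenvectorBasis.orthonormal.ne_zero 0
    intro h
    apply this
    ext i
    exact congrFun h i
  have := rank_add_le (k := 1) ((1 : ℂ) • A + ((1 : ℂ) • A)ᴴ - (hM.eigenvalues 0 : ℂ) • 1)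
    (fun _ => (hM.eigenvectorBasis 0).ofLp)
    (by rw [linearIndependent_unique_iff]; exact h2)
    (fun i => by
      rw [one_smul, Matrix.sub_mulVec, Matrix.smul_mulVec, Matrix.one_mulVec, sub_eq_zero]
      rw [h1]
      ext j
      simp)
  simp at this
  simp
  omega

/-- the Hermitian matrix `cB + (cB)*` -/
noncomputable def NB (B : Matrix (Fin 2) (Fin 2) ℂ) (c : ℂ) : Matrix (Fin 2) (Fin 2) ℂ :=
  c • B + (c • B)ᴴ

lemma NB_herm (B : Matrix (Fin 2) (Fin 2) ℂ) (c : ℂ) : (NB B c).IsHermitian := by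
  rw [Matrix.IsHermitian, NB, Matrix.conjTranspose_add, Matrix.conjTranspose_conjTranspose,
    add_comm]

/-- dichotomy for a 2x2 pencil -/
lemma dich (B : Matrix (Fin 2) (Fin 2) ℂ) :
    (∃ c : ℂ, c ≠ 0 ∧ (NB B c).det = 0) ∨
    ∀ c : ℂ, ∃ v : Fin 2 → ℂ, v ≠ 0 ∧ qf (NB B c) v ≤ 0 := by
  by_contra hcon
  push Not at hcon
  obtain ⟨h1, c, hc⟩ := hcon
  have hpd : (NB B c).PosDef := posDef_of_qf (NB_herm B c) hc
  have hdet : 0 < (NB B c).det.re := (Complex.lt_def.mp hpd.det_pos).1
  have htr : 0 < (NB B c).trace.re := (Complex.lt_def.mp hpd.trace_pos).1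
  -- the trace functional has a zero
  set β : ℂ := B.trace with hβ
  have htr2 : ∀ c : ℂ, (NB B c).trace.re = 2 * (c * β).re := by
    intro c
    rw [NB, Matrix.trace_add, Matrix.trace_conjTranspose, Matrix.trace_smul, ← hβ, smul_eq_mul,
      Complex.star_def, Complex.add_conj, Complex.ofReal_re]
  have hβ0 : β ≠ 0 := by
    intro h
    rw [htr2, h] at htr
    simp at htr
  set c0 : ℂ := Complex.I * star β with hc0
  have hc0' : c0 ≠ 0 := mul_ne_zero Complex.I_ne_zero (by simpa using hβ0)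
  have hc0tr : (NB B c0).trace.re = 0 := by
    rw [htr2, hc0, mul_assoc, mul_comm (star β), Complex.star_def, Complex.mul_conj]
    simp
  -- determinant at c0
  have hdetform : ∀ c : ℂ, (NB B c).det.re = (NB B c 0 0).re * (NB B c 1 1).re -
      ‖NB B c 0 1‖ ^ 2 := by
    intro c
    have e1 : NB B c 1 0 = star (NB B c 0 1) := ((NB_herm B c).apply 1 0).symm
    have e2 : (NB B c 0 0).im = 0 := by
      have := (NB_herm B c).apply 0 0
      have h2 := congrArg Complex.im this
      simp only [Complex.star_def, Complex.conj_im] at h2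
      linarith
    rw [Matrix.det_fin_two, e1, Complex.sub_re, Complex.mul_re, e2, zero_mul, sub_zero,
      Complex.star_def, Complex.mul_conj, Complex.ofReal_re, Complex.normSq_eq_norm_sq]
  have hdet0 : (NB B c0).det.re ≤ 0 := by
    rw [hdetform]
    have h2 : (NB B c0 0 0).re + (NB B c0 1 1).re = 0 := by
      rw [← hc0tr, Matrix.trace_fin_two, Complex.add_re]
    have h3 : (NB B c0 1 1).re = - (NB B c0 0 0).re := by linarith
    rw [h3]
    nlinarith [sq_nonneg (NB B c0 0 0).re, sq_nonneg ‖NB B c0 0 1‖]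
  -- path
  set g : ℝ → ℝ := fun s => (NB B ((1 - s : ℝ) * c + (s : ℂ) * c0)).det.re with hg
  have hcont : Continuous g := by
    rw [hg]
    apply Complex.continuous_re.comp
    apply Continuous.matrix_det
    unfold NB
    fun_prop
  have hg0 : g 0 = (NB B c).det.re := by simp [hg]
  have hg1 : g 1 = (NB B c0).det.re := by simp [hg]
  have hmem : (0 : ℝ) ∈ g '' Set.Icc 0 1 := by
    apply intermediate_value_Icc' zero_le_one hcont.continuousOn
    rw [hg0, hg1]
    exact ⟨hdet0, hdet.le⟩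
  obtain ⟨s, -, hs⟩ := hmem
  refine h1 ((1 - s : ℝ) * c + (s : ℂ) * c0) ?_ ?_
  · intro h
    have h2 : (((1 - s : ℝ) * c + (s : ℂ) * c0) * β).re = (1 - s) * (c * β).re := by
      have h3 := htr2 c0
      rw [hc0tr] at h3
      have h4 : (c0 * β).re = 0 := by linarith
      rw [add_mul, mul_assoc, mul_assoc, Complex.add_re, Complex.re_ofReal_mul,
        Complex.re_ofReal_mul, h4]
      ring
    rw [h] at h2
    have h5 : 0 < (c * β).re := by
      have := htr2 c
      linarith
    simp only [zero_mul, Complex.zero_re] at h2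
    have h6 : (1 : ℝ) - s = 0 := by
      rcases mul_eq_zero.mp h2.symm with h | h
      · exact h
      · exact absurd h h5.ne'
    have h7 : s = 1 := by linarith
    rw [h7] at h
    simp at h
    exact hc0' h
  · apply Complex.ext
    · exact hs
    · have h2 : star (NB B ((1 - s : ℝ) * c + (s : ℂ) * c0)).det =
          (NB B ((1 - s : ℝ) * c + (s : ℂ) * c0)).det := by
        rw [← Matrix.det_conjTranspose, (NB_herm B _).eq]
      have h3 := congrArg Complex.im h2
      simp only [Complex.star_def, Complex.conj_im] at h3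
      rw [Complex.zero_im]
      linarith

end two

section three

variable {K : Type u} [NormedAddCommGroup K] [InnerProductSpace ℂ K] [CompleteSpace K]

lemma lin_two {f g : Fin 3 → ℂ} (h : ∀ a b : ℂ, a • f + b • g = 0 → a = 0 ∧ b = 0) :
    LinearIndependent ℂ ![f, g] := by
  rw [LinearIndependent.pair_iff]
  exact h

/-- the reducible case in block form -/
lemma dilV_block {A : Matrix (Fin 3) (Fin 3) ℂ} {l : ℂ} (h00 : A 0 0 = l)
    (h01 : ∀ j : Fin 2, A 0 j.succ = 0) (h10 : ∀ i : Fin 2, A i.succ 0 = 0)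
    {T : K →L[ℂ] K} (hT : PosHyp A (T : K →ₗ[ℂ] K)) : DilV A (T : K →ₗ[ℂ] K) := by
  set A0 : Matrix (Fin 2) (Fin 2) ℂ := A.submatrix Fin.succ Fin.succ with hA0
  set B : Matrix (Fin 2) (Fin 2) ℂ := A0 - l • 1 with hB
  have hdot : ∀ u : Fin 3 → ℂ, star u ⬝ᵥ (A *ᵥ u) = l * (‖u 0‖ ^ 2 : ℝ) +
      star (fun i : Fin 2 => u i.succ) ⬝ᵥ (A0 *ᵥ (fun i : Fin 2 => u i.succ)) := by
    intro u
    simp only [dotProduct, Matrix.mulVec, Fin.sum_univ_succ (n := 2), h00, h01, h10, hA0,
      Matrix.submatrix_apply, Pi.star_apply, zero_mul, Finset.sum_const_zero, add_zero, zero_add]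
    congr 1
    rw [Complex.star_def, mul_left_comm, Complex.conj_mul']
    push_cast
    ring
  have hone : ∀ u : Fin 3 → ℂ, qf 1 u = ‖u 0‖ ^ 2 + qf 1 (fun i : Fin 2 => u i.succ) := by
    intro u
    rw [qf_one, qf_one, Fin.sum_univ_succ]
  rcases dich B with ⟨c, hc, hdet⟩ | hneg
  · -- rank one element
    apply dilV_of_rankOne (a := (0 : Fin 3)) (b := 1) (by decide) _ hT
    refine ⟨c, hc, 2 * (c * l).re, ?_⟩
    obtain ⟨v, hv, hv0⟩ := Matrix.exists_mulVec_eq_zero_iff.mpr hdet
    set M : Matrix (Fin 3) (Fin 3) ℂ := c • A + (c • A)ᴴ - ((2 * (c * l).re : ℝ) : ℂ) • 1 with hM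
    have hc1 : c * l + star (c * l) = ((2 * (c * l).re : ℝ) : ℂ) := by
      rw [Complex.star_def, Complex.add_conj]
    have hM00 : M 0 0 = 0 := by
      simp only [hM, Matrix.sub_apply, Matrix.add_apply, Matrix.smul_apply,
        Matrix.conjTranspose_apply, h00, smul_eq_mul, Matrix.one_apply_eq, mul_one]
      rw [← hc1]; ring
    have hM01 : ∀ j : Fin 2, M 0 j.succ = 0 := by
      intro j
      simp [hM, h01, h10, (Fin.succ_ne_zero j).symm]
    have hM10 : ∀ j : Fin 2, M j.succ 0 = 0 := by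
      intro j
      simp [hM, h01, h10]
    have hM11 : ∀ i j : Fin 2, M i.succ j.succ = NB B c i j := by
      intro i j
      simp only [hM, NB, hB, hA0, Matrix.sub_apply, Matrix.add_apply, Matrix.smul_apply,
        Matrix.conjTranspose_apply, smul_eq_mul, Matrix.submatrix_apply, star_mul', star_sub,
        Matrix.one_apply, Fin.succ_inj]
      rw [← hc1, star_mul']
      by_cases hij : i = j
      · subst hij; simp; ring
      · have hji : ¬ j = i := fun h => hij h.symm
        simp [hij, hji]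
    have hk1 : M *ᵥ (Pi.single 0 1) = 0 := by
      ext i
      rw [Matrix.mulVec_single_one, Matrix.col_apply]
      refine Fin.cases ?_ (fun i => ?_) i
      · exact hM00
      · exact hM10 i
    have hk2 : M *ᵥ (Fin.cons 0 v : Fin 3 → ℂ) = 0 := by
      ext i
      refine Fin.cases ?_ (fun i => ?_) i
      · simp only [Matrix.mulVec, dotProduct, Fin.sum_univ_succ (n := 2), hM01, hM00, zero_mul,
          Finset.sum_const_zero, add_zero, Pi.zero_apply]
      · have e3 := congrFun hv0 i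
        simp only [Matrix.mulVec, dotProduct, Fin.sum_univ_succ (n := 2), hM10, hM11,
          Fin.cons_zero, Fin.cons_succ, mul_zero, zero_add] at e3 ⊢
        exact e3
    have hlin : LinearIndependent ℂ ![(Pi.single 0 1 : Fin 3 → ℂ), (Fin.cons 0 v : Fin 3 → ℂ)] := by
      apply lin_two
      intro a b hab
      have e0 := congrFun hab 0
      have ha : a = 0 := by simpa using e0
      refine ⟨ha, ?_⟩
      obtain ⟨i, hi⟩ := Function.ne_iff.mp hv
      have e1 := congrFun hab i.succ
      rw [ha] at e1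
      simp only [zero_smul, zero_add, Pi.smul_apply, Fin.cons_succ, smul_eq_mul,
        Pi.zero_apply] at e1
      rcases mul_eq_zero.mp e1 with h | h
      · exact h
      · exact absurd h hi
    have := rank_add_le (k := 2) M _ hlin (fun i => by
      fin_cases i
      · exact hk1
      · exact hk2)
    simp only [Fintype.card_fin] at this
    omega
  · -- W(A) = W(A0)
    have hT0 : PosHyp A0 (T : K →ₗ[ℂ] K) := by
      intro c t hpos k
      refine hT c t (fun u => ?_) k
      rw [hdot, hone]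
      have h1 := hpos (fun i : Fin 2 => u i.succ)
      have h2 : 0 ≤ t + (c * l).re := by
        obtain ⟨v, hv, hqv⟩ := hneg c
        have h3 := hpos v
        have hv1 := qf_one_pos hv
        have h4 : qf (NB B c) v = 2 * (c * (star v ⬝ᵥ (A0 *ᵥ v))).re - 2 * (c * l).re * qf 1 v := by
          have e1 : star v ⬝ᵥ ((c • B) *ᵥ v) = c * (star v ⬝ᵥ (A0 *ᵥ v)) - c * l * (qf 1 v : ℝ) := by
            rw [Matrix.smul_mulVec, dotProduct_smul, hB, Matrix.sub_mulVec, dotProduct_sub,
              Matrix.smul_mulVec, dotProduct_smul, herm_dot_eq herm_one, smul_eq_mul, smul_eq_mul]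
            ring
          have e2 : star v ⬝ᵥ ((c • B)ᴴ *ᵥ v) = star (star v ⬝ᵥ ((c • B) *ᵥ v)) := by
            rw [← Matrix.star_dotProduct_star, star_star, Matrix.star_mulVec, dotProduct_comm,
              ← Matrix.dotProduct_mulVec, dotProduct_comm]
          unfold NB
          rw [qf_add]
          have e3 : qf (c • B)ᴴ v = qf (c • B) v := by
            unfold qf; rw [e2, Complex.star_def, Complex.conj_re]
          rw [e3]
          have e4 : qf (c • B) v = (c * (star v ⬝ᵥ (A0 *ᵥ v))).re - (c * l).re * qf 1 v := by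
            unfold qf at e1 ⊢
            rw [e1, Complex.sub_re, Complex.re_mul_ofReal]
          rw [e4]; ring
        rw [h4] at hqv
        have h5 : 0 ≤ (t + (c * l).re) * qf 1 v := by nlinarith
        exact nonneg_of_mul_nonneg_left h5 hv1
      have h3 : (c * (l * (‖u 0‖ ^ 2 : ℝ) +
          star (fun i : Fin 2 => u i.succ) ⬝ᵥ (A0 *ᵥ (fun i : Fin 2 => u i.succ)))).re =
          (c * l).re * ‖u 0‖ ^ 2 +
          (c * (star (fun i : Fin 2 => u i.succ) ⬝ᵥ (A0 *ᵥ (fun i : Fin 2 => u i.succ)))).re := by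
        rw [mul_add, Complex.add_re, ← mul_assoc, Complex.re_mul_ofReal]
      rw [h3]
      have h4 := mul_nonneg h2 (sq_nonneg ‖u 0‖)
      nlinarith
    obtain ⟨L, i1, i2, i3, V, hV1, hV2⟩ :=
      dilV_of_rankOne (a := (0 : Fin 2)) (b := 1) (by decide) (rankOne_two A0) hT0
    refine ⟨L, i1, i2, i3, Fin.cons 0 V, fun x y => ?_, fun x y => ?_⟩
    · rw [Fin.sum_univ_succ]
      simp only [Fin.cons_zero, Fin.cons_succ, LinearMap.zero_apply, inner_zero_left, zero_add]
      exact hV1 x y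
    · rw [Fin.sum_univ_succ]
      simp only [Fin.sum_univ_succ (n := 2), Fin.cons_zero, Fin.cons_succ, LinearMap.zero_apply,
        inner_zero_left, inner_zero_right, mul_zero, zero_add, Finset.sum_const_zero]
      exact hV2 x y

/-- the existence of a common eigenvector of `A` and `A*` -/
def CommonEigenvector {n : ℕ} (A : Matrix (Fin n) (Fin n) ℂ) : Prop :=
  ∃ v : Fin n → ℂ, v ≠ 0 ∧ ∃ l : ℂ, A *ᵥ v = l • v ∧ Aᴴ *ᵥ v = star l • v

lemma exists_unitary {v : Fin 3 → ℂ} (hv : v ≠ 0) : ∃ (U : Matrix (Fin 3) (Fin 3) ℂ) (r : ℂ),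
    Uᴴ * U = 1 ∧ r ≠ 0 ∧ (fun i => U i 0) = r • v := by
  set x : EuclideanSpace ℂ (Fin 3) := WithLp.toLp 2 v with hx
  have hx0 : x ≠ 0 := by
    intro h
    apply hv
    ext i
    exact congrFun (congrArg WithLp.ofLp h) i
  have hn : ‖x‖ ≠ 0 := norm_ne_zero_iff.mpr hx0
  set r : ℂ := ((‖x‖⁻¹ : ℝ) : ℂ) with hr
  have hr0 : r ≠ 0 := by
    rw [hr]; exact_mod_cast inv_ne_zero hn
  have hunit : ‖r • x‖ = 1 := by
    rw [norm_smul, hr, Complex.norm_real, Real.norm_of_nonneg (by positivity)]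
    exact inv_mul_cancel₀ hn
  obtain ⟨b, hb⟩ := Orthonormal.exists_orthonormalBasis_extension_of_card_eq
    (𝕜 := ℂ) (E := EuclideanSpace ℂ (Fin 3)) (ι := Fin 3) (by simp)
    (v := fun _ => r • x) (s := {0}) (by
      constructor
      · intro i; exact hunit
      · intro i j hij
        exact absurd (Subsingleton.elim i j) hij)
  refine ⟨Matrix.of fun i j => (b j).ofLp i, r, ?_, hr0, ?_⟩
  · ext i j
    have h1 := orthonormal_iff_ite.mp b.orthonormal i j
    rw [EuclideanSpace.inner_eq_star_dotProduct] at h1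
    rw [Matrix.mul_apply, Matrix.one_apply, ← h1]
    simp only [dotProduct, Matrix.conjTranspose_apply, Pi.star_apply, Matrix.of_apply]
    refine Finset.sum_congr rfl fun k _ => mul_comm _ _
  · have h1 := hb 0 rfl
    ext i
    change (b 0).ofLp i = _
    rw [h1]
    rfl

/-- sufficiency in the reducible case -/
theorem propertyV_of_common {A : Matrix (Fin 3) (Fin 3) ℂ} (h : CommonEigenvector A) :
    PropertyV.{u} A := by
  obtain ⟨v, hv, l, h1, h2⟩ := h
  obtain ⟨U, r, hU, hr, hUv⟩ := exists_unitary hv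
  intro K _ _ _ T hT
  apply dilV_conj hU
  have hcol : ∀ (M : Matrix (Fin 3) (Fin 3) ℂ) (m : ℂ) (hM : M *ᵥ v = m • v) (i : Fin 3),
      (Uᴴ * M * U) i 0 = m * (1 : Matrix (Fin 3) (Fin 3) ℂ) i 0 := by
    intro M m hM i
    have e1 : (Uᴴ * M * U) i 0 = ((Uᴴ * M * U) *ᵥ (Pi.single 0 1)) i := by
      rw [Matrix.mulVec_single_one, Matrix.col_apply]
    have e2 : U *ᵥ (Pi.single 0 1) = r • v := by
      rw [Matrix.mulVec_single_one, ← hUv]
      rfl
    have e3 : (Uᴴ *ᵥ (U *ᵥ (Pi.single 0 1))) = Pi.single 0 1 := by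
      rw [Matrix.mulVec_mulVec, hU, Matrix.one_mulVec]
    rw [e1, ← Matrix.mulVec_mulVec, e2, ← Matrix.mulVec_mulVec, Matrix.mulVec_smul, hM,
      smul_comm, Matrix.mulVec_smul, ← e2, e3, Pi.smul_apply, smul_eq_mul]
    congr 1
    rw [Matrix.one_apply, Pi.single_apply]
  refine dilV_block (l := l) ?_ ?_ ?_ (posHyp_conj hU (posHyp_of_numRange hT))
  · rw [hcol A l h1]; simp
  · intro j
    have h3 := hcol Aᴴ (star l) h2 j.succ
    have h4 : (Uᴴ * A * U) 0 j.succ = star ((Uᴴ * Aᴴ * U) j.succ 0) := by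
      rw [← Matrix.conjTranspose_apply]
      simp only [Matrix.conjTranspose_mul, Matrix.mul_assoc, Matrix.conjTranspose_conjTranspose]
    rw [h4, h3, Matrix.one_apply_ne (Fin.succ_ne_zero j)]
    simp
  · intro i
    rw [hcol A l h1, Matrix.one_apply_ne (Fin.succ_ne_zero i), mul_zero]

end three

end Pool.Agent.Lib.P74fcff
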