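import Pool.Agent.Lib.P74fcff.Basic

set_option autoImplicit false
set_option linter.unusedSectionVars false

open scoped ComplexOrder Matrix MatrixOrder

namespace Pool.Agent.Lib.P74fcff

section sim

variable {κ : Type*} [Fintype κ] [DecidableEq κ]

/-- Simultaneous diagonalisation of a positive definite and a Hermitian form. -/
lemma simdiag {D B : Matrix κ κ ℂ} (hD : D.PosDef) (hB : B.IsHermitian) :
    ∃ (G F : Matrix κ κ ℂ) (l : κ → ℝ), F * G = 1 ∧ G * F = 1 ∧ Gᴴ * D * G = 1 ∧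
      Gᴴ * B * G = Matrix.diagonal (fun i => (l i : ℂ)) := by
  obtain ⟨R, hR⟩ := CStarAlgebra.nonneg_iff_eq_star_mul_self.mp hD.posSemidef.nonneg
  rw [Matrix.star_eq_conjTranspose] at hR
  have hDdet : IsUnit D.det := (Matrix.isUnit_iff_isUnit_det D).mp hD.isUnit
  have hRdet : IsUnit R.det := by
    rw [hR, Matrix.det_mul] at hDdet
    exact (IsUnit.mul_iff.mp hDdet).2
  have hRR : R * R⁻¹ = 1 := Matrix.mul_nonsing_inv _ hRdet
  have hRR' : R⁻¹ * R = 1 := Matrix.nonsing_inv_mul _ hRdet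
  have hRH : (R⁻¹)ᴴ * Rᴴ = 1 := by rw [← Matrix.conjTranspose_mul, hRR, Matrix.conjTranspose_one]
  set M := (R⁻¹)ᴴ * B * R⁻¹ with hM
  have hMh : M.IsHermitian := by
    rw [Matrix.IsHermitian, hM, Matrix.conjTranspose_mul, Matrix.conjTranspose_mul,
      Matrix.conjTranspose_conjTranspose, hB.eq, Matrix.mul_assoc]
  set U : Matrix κ κ ℂ := (hMh.eigenvectorUnitary : Matrix κ κ ℂ) with hU
  have hUU : Uᴴ * U = 1 := by
    have := Unitary.coe_star_mul_self hMh.eigenvectorUnitary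
    rwa [Matrix.star_eq_conjTranspose] at this
  have hUU' : U * Uᴴ = 1 := mul_eq_one_comm.mp hUU
  have hsp : M = U * Matrix.diagonal (fun i => (hMh.eigenvalues i : ℂ)) * Uᴴ := by
    have := hMh.spectral_theorem
    rw [Unitary.conjStarAlgAut_apply, Matrix.star_eq_conjTranspose] at this
    exact this
  refine ⟨R⁻¹ * U, Uᴴ * R, hMh.eigenvalues, ?_, ?_, ?_, ?_⟩
  · rw [Matrix.mul_assoc, ← Matrix.mul_assoc R, hRR, Matrix.one_mul, hUU]
  · rw [Matrix.mul_assoc, ← Matrix.mul_assoc U, hUU', Matrix.one_mul, hRR']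
  · rw [hR, Matrix.conjTranspose_mul]
    calc Uᴴ * (R⁻¹)ᴴ * (Rᴴ * R) * (R⁻¹ * U) = Uᴴ * ((R⁻¹)ᴴ * Rᴴ) * (R * R⁻¹) * U := by
          simp only [Matrix.mul_assoc]
      _ = 1 := by rw [hRH, hRR, Matrix.mul_one, Matrix.mul_one, hUU]
  · rw [Matrix.conjTranspose_mul]
    calc Uᴴ * (R⁻¹)ᴴ * B * (R⁻¹ * U) = Uᴴ * M * U := by
          rw [hM]; simp only [Matrix.mul_assoc]
      _ = (Uᴴ * U) * Matrix.diagonal (fun i => (hMh.eigenvalues i : ℂ)) * (Uᴴ * U) := by
          conv_lhs => rw [hsp]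
          simp only [Matrix.mul_assoc]
      _ = _ := by rw [hUU, Matrix.one_mul, Matrix.mul_one]

/-- the trace of a product of two positive semidefinite matrices -/
lemma trace_mul_nonneg {P R : Matrix κ κ ℂ} (hP : P.PosSemidef) (hR : R.PosSemidef) :
    0 ≤ (P * R).trace.re := by
  obtain ⟨S, hS⟩ := CStarAlgebra.nonneg_iff_eq_star_mul_self.mp hP.nonneg
  rw [Matrix.star_eq_conjTranspose] at hS
  have h1 : (P * R).trace = (S * R * Sᴴ).trace := by
    rw [hS, Matrix.mul_assoc, Matrix.trace_mul_comm, Matrix.mul_assoc]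
  rw [h1]
  have h2 := (hR.mul_mul_conjTranspose_same S).trace_nonneg
  exact (Complex.le_def.mp h2).1

end sim

section rows

variable {κ ι : Type*} [Fintype κ] [DecidableEq κ] [Fintype ι] [DecidableEq ι]

/-- the matrix with rows `(y a)*` -/
def rows (y : κ → ι → ℂ) : Matrix κ ι ℂ := Matrix.of fun a i => star (y a i)

lemma trace_rows (y : κ → ι → ℂ) (l : κ → ℂ) (M : Matrix ι ι ℂ) :
    ((rows y : Matrix κ ι ℂ)ᴴ * Matrix.diagonal l * rows y * M).trace
      = ∑ a, l a * (star (y a) ⬝ᵥ (M *ᵥ (y a))) := by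
  simp only [Matrix.trace, Matrix.diag, Matrix.mul_apply, Matrix.conjTranspose_apply,
    Matrix.diagonal_apply, rows, Matrix.of_apply, star_star, dotProduct, Matrix.mulVec,
    Pi.star_apply, mul_ite, mul_zero, Finset.sum_ite_eq', Finset.mem_univ, if_true,
    Finset.sum_mul, Finset.mul_sum]
  rw [Finset.sum_comm]
  rw [Finset.sum_congr rfl fun x _ => Finset.sum_comm]
  rw [Finset.sum_comm]
  refine Finset.sum_congr rfl fun a _ => ?_
  refine Finset.sum_congr rfl fun i _ => ?_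
  refine Finset.sum_congr rfl fun j _ => ?_
  ring

lemma trace_mul_rk1 (N : Matrix ι ι ℂ) (w : ι → ℂ) :
    (N * rk1 w).trace = star w ⬝ᵥ (N *ᵥ w) := by
  unfold rk1
  rw [Matrix.mul_vecMulVec, Matrix.trace_vecMulVec, dotProduct_comm]

lemma rows_mulVec (y : κ → ι → ℂ) (w : ι → ℂ) :
    rows y *ᵥ w = fun a => star (star w ⬝ᵥ y a) := by
  ext a
  simp [rows, Matrix.mulVec, dotProduct, mul_comm]

/-- the quadratic form attached to a dual element -/
noncomputable def QF (B0 B1 B2 : Matrix κ κ ℂ) (H W : Matrix ι ι ℂ) (Z : Matrix κ ι ℂ) : ℝ :=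
  (Zᴴ * (B0 * Z + B1 * Z * H + B2 * Z * W)).trace.re

lemma QF_alg (G B0 B1 B2 : Matrix κ κ ℂ) (Y : Matrix κ ι ℂ) (H W : Matrix ι ι ℂ) (m : ℝ) :
    (G * Y)ᴴ * (B0 * (G * Y) + B1 * (G * Y) * H + B2 * (G * Y) * W) =
      Yᴴ * (Gᴴ * (B0 + m • B1) * G) * Y + Yᴴ * (Gᴴ * B1 * G) * Y * (H - m • 1) +
        (Yᴴ * (Gᴴ * B2 * G) * Y) * W := by
  simp only [Matrix.conjTranspose_mul, Matrix.mul_add, Matrix.add_mul, Matrix.mul_sub,
    Matrix.mul_assoc, Matrix.mul_one, Matrix.mul_smul, Matrix.smul_mul]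
  abel

lemma QF_rows {B0 B1 B2 : Matrix κ κ ℂ} {H : Matrix ι ι ℂ} {w : ι → ℂ} {G : Matrix κ κ ℂ}
    {l : κ → ℝ} {m : ℝ} (h1 : Gᴴ * (B0 + m • B1) * G = 1)
    (h2 : Gᴴ * B1 * G = Matrix.diagonal (fun i => (l i : ℂ))) (y : κ → ι → ℂ) :
    QF B0 B1 B2 H (rk1 w) (G * rows y) =
      ∑ a, qf (1 + l a • (H - m • 1)) (y a)
        + qf (Gᴴ * B2 * G) (fun a => star (star w ⬝ᵥ y a)) := by
  unfold QF
  rw [QF_alg G B0 B1 B2 (rows y) H (rk1 w) m, h1, h2, Matrix.trace_add, Matrix.trace_add,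
    trace_rows, trace_mul_rk1]
  have e0 := trace_rows y (fun _ => (1 : ℂ)) (1 : Matrix ι ι ℂ)
  rw [Matrix.mul_one, Matrix.diagonal_one] at e0
  rw [e0]
  have e2 : star w ⬝ᵥ (((rows y : Matrix κ ι ℂ)ᴴ * (Gᴴ * B2 * G) * rows y) *ᵥ w) =
      star (fun a => star (star w ⬝ᵥ y a)) ⬝ᵥ
        ((Gᴴ * B2 * G) *ᵥ (fun a => star (star w ⬝ᵥ y a))) := by
    rw [← rows_mulVec, Matrix.star_mulVec, ← Matrix.mulVec_mulVec, ← Matrix.mulVec_mulVec,
      Matrix.dotProduct_mulVec]
  rw [e2, Complex.add_re, ← Finset.sum_add_distrib, Complex.re_sum]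
  congr 1
  refine Finset.sum_congr rfl fun a _ => ?_
  rw [qf_add, qf_smul, Complex.add_re, one_mul, Complex.re_ofReal_mul]
  rfl

lemma herm_dot_eq {X : Matrix κ κ ℂ} (h : X.IsHermitian) (v : κ → ℂ) :
    star v ⬝ᵥ (X *ᵥ v) = ((qf X v : ℝ) : ℂ) := by
  apply Complex.ext
  · rw [Complex.ofReal_re]; rfl
  · rw [Complex.ofReal_im]; exact herm_dot_im h v

lemma herm_smul {X : Matrix κ κ ℂ} (h : X.IsHermitian) (c : ℝ) : (c • X).IsHermitian := by
  rw [Matrix.IsHermitian] at h ⊢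
  rw [Matrix.conjTranspose_smul, h]; simp

lemma herm_one : (1 : Matrix κ κ ℂ).IsHermitian := Matrix.isHermitian_one

lemma trace_vec (g : κ → ℂ) (e : ι → ℂ) (B : Matrix κ κ ℂ) (M : Matrix ι ι ℂ) :
    ((Matrix.vecMulVec g (star e))ᴴ * (B * Matrix.vecMulVec g (star e) * M)).trace =
      (star g ⬝ᵥ (B *ᵥ g)) * (star e ⬝ᵥ (M *ᵥ e)) := by
  rw [Matrix.conjTranspose_vecMulVec, star_star, Matrix.mul_vecMulVec,
    Matrix.vecMulVec_mul (B *ᵥ g) (star e) M, Matrix.vecMulVec_mul_vecMulVec,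
    Matrix.trace_vecMulVec, dotProduct_smul, smul_eq_mul, dotProduct_comm e,
    ← Matrix.dotProduct_mulVec]

lemma QF_vec {B0 B1 B2 : Matrix κ κ ℂ} (hB0 : B0.IsHermitian) (hB1 : B1.IsHermitian)
    (hB2 : B2.IsHermitian) {H W : Matrix ι ι ℂ} (hH : H.IsHermitian) (hW : W.IsHermitian)
    (g : κ → ℂ) (e : ι → ℂ) :
    QF B0 B1 B2 H W (Matrix.vecMulVec g (star e)) =
      qf B0 g * qf 1 e + qf B1 g * qf H e + qf B2 g * qf W e := by
  unfold QF
  have h0 := trace_vec g e B0 1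
  rw [Matrix.mul_one] at h0
  rw [Matrix.mul_add, Matrix.mul_add, Matrix.trace_add, Matrix.trace_add, h0, trace_vec,
    trace_vec, herm_dot_eq hB0, herm_dot_eq hB1, herm_dot_eq hB2, herm_dot_eq hH,
    herm_dot_eq hW, herm_dot_eq herm_one]
  norm_cast

/-- the key separation lemma, strictly positive version -/
lemma sep_strict {H : Matrix ι ι ℂ} (hH : H.IsHermitian) {w e : ι → ℂ} (he : e ≠ 0)
    (hwe : star w ⬝ᵥ e = 0) {T1 T2 : Matrix κ κ ℂ}
    (hT : ∀ t x y : ℝ, (t • 1 + x • H + y • rk1 w : Matrix ι ι ℂ).PosSemidef →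
      (t • 1 + x • T1 + y • T2 : Matrix κ κ ℂ).PosSemidef)
    {B0 B1 B2 : Matrix κ κ ℂ} (hB0 : B0.IsHermitian) (hB1 : B1.IsHermitian)
    (hB2 : B2.IsHermitian)
    (hQ : ∀ Z : Matrix κ ι ℂ, Z ≠ 0 → 0 < QF B0 B1 B2 H (rk1 w) Z) :
    0 ≤ (B0 + B1 * T1 + B2 * T2).trace.re := by
  have hQ0 : ∀ Z : Matrix κ ι ℂ, 0 ≤ QF B0 B1 B2 H (rk1 w) Z := by
    intro Z
    by_cases hZ : Z = 0
    · subst hZ; simp [QF]
    · exact (hQ Z hZ).le
  have he1 := qf_one_pos he
  set μ : ℝ := qf H e / qf 1 e with hμ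
  have hD : (B0 + μ • B1).PosDef := by
    refine posDef_of_qf (hB0.add (herm_smul hB1 μ)) fun g hg => ?_
    have hZ : Matrix.vecMulVec g (star e) ≠ 0 := by
      intro h
      obtain ⟨i, hi⟩ := Function.ne_iff.mp hg
      obtain ⟨j, hj⟩ := Function.ne_iff.mp he
      have := congrFun (congrFun h i) j
      simp only [Matrix.vecMulVec_apply, Pi.star_apply, Matrix.zero_apply, mul_eq_zero] at this
      rcases this with h | h
      · exact hi h
      · exact hj (by simpa using h)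
    have h1 := hQ _ hZ
    rw [QF_vec hB0 hB1 hB2 hH (rk1_herm w), qf_rk1, hwe] at h1
    rw [qf_add, qf_smul]
    have h2 : qf B0 g + μ * qf B1 g = (qf B0 g * qf 1 e + qf B1 g * qf H e +
        qf B2 g * ‖(0 : ℂ)‖ ^ 2) / qf 1 e := by
      rw [hμ, eq_div_iff he1.ne']
      field_simp
      simp
    rw [h2]
    positivity
  obtain ⟨G, F, l, hFG, hGF, h1, h2⟩ := simdiag hD hB1
  set C := Gᴴ * B2 * G with hC
  have hMherm : ∀ a, (1 + l a • (H - μ • (1 : Matrix ι ι ℂ))).IsHermitian := fun a =>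
    herm_one.add (herm_smul (hH.sub (herm_smul herm_one μ)) _)
  have hM : ∀ a c, c ≠ 0 → star w ⬝ᵥ c = 0 → 0 < qf (1 + l a • (H - μ • (1 : Matrix ι ι ℂ))) c := by
    intro a c hc hwc
    set y : κ → ι → ℂ := fun b => if b = a then c else 0 with hy
    have hZ : G * rows y ≠ 0 := by
      intro h
      have h3 : rows y = 0 := by
        rw [← Matrix.one_mul (rows y), ← hFG, Matrix.mul_assoc, h, Matrix.mul_zero]
      obtain ⟨j, hj⟩ := Function.ne_iff.mp hc
      have := congrFun (congrFun h3 a) j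
      simp [rows, hy] at this
      exact hj this
    have h3 := hQ _ hZ
    rw [QF_rows h1 h2 y] at h3
    have h4 : (fun b => star (star w ⬝ᵥ y b)) = 0 := by
      ext b
      by_cases hb : b = a
      · simp [hy, hb, hwc]
      · simp [hy, hb]
    have h5 : qf (Gᴴ * B2 * G) 0 = 0 := by simp [qf]
    rw [h4, h5, add_zero, Finset.sum_eq_single a] at h3
    · simpa [hy] using h3
    · intro b _ hb
      simp [hy, hb, qf]
    · intro h; exact absurd (Finset.mem_univ a) h
  have hT2 : T2.PosSemidef := by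
    have h3 := hT 0 0 1 (by
      simpa using rk1_posSemidef w)
    simpa using h3
  have key : ∃ d : κ → ℝ, (∀ a, (1 + l a • (H - μ • (1 : Matrix ι ι ℂ)) +
      d a • rk1 w).PosSemidef) ∧
      0 ≤ ((C - Matrix.diagonal (fun a => (d a : ℂ))) * (F * T2 * Fᴴ)).trace.re := by
    by_cases hw : w = 0
    · have hT2' : T2 = 0 := by
        have h3 := hT 0 0 (-1) (by
          simp [hw, rk1, Matrix.PosSemidef.zero])
        have h4 : (-T2).PosSemidef := by simpa using h3
        have h5 : (0 : Matrix κ κ ℂ) ≤ T2 := hT2.nonneg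
        have h6 : (0 : Matrix κ κ ℂ) ≤ -T2 := h4.nonneg
        exact le_antisymm (by simpa using h6) h5
      refine ⟨0, fun a => ?_, ?_⟩
      · have : (1 + l a • (H - μ • (1 : Matrix ι ι ℂ)) + (0 : κ → ℝ) a • rk1 w) =
            1 + l a • (H - μ • (1 : Matrix ι ι ℂ)) := by simp
        rw [this]
        refine posSemidef_of_qf (hMherm a) fun v => ?_
        by_cases hv : v = 0
        · subst hv; simp [qf]
        · exact (hM a v hv (by simp [hw])).le
      · rw [hT2']; simp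
    · choose d p hp hMp hPSD using fun a => schur (hMherm a) hw (hM a)
      refine ⟨d, hPSD, trace_mul_nonneg ?_ (hT2.mul_mul_conjTranspose_same F)⟩
      have hCh : C.IsHermitian := by
        rw [hC, Matrix.IsHermitian, Matrix.conjTranspose_mul, Matrix.conjTranspose_mul,
          Matrix.conjTranspose_conjTranspose, hB2.eq, Matrix.mul_assoc]
      have hdh : (Matrix.diagonal (fun a => (d a : ℂ))).IsHermitian := by
        rw [Matrix.IsHermitian, Matrix.diagonal_conjTranspose]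
        congr 1
        ext a
        simp
      refine posSemidef_of_qf (hCh.sub hdh) fun σ => ?_
      have h3 := hQ0 (G * rows fun a => star (σ a) • p a)
      rw [QF_rows h1 h2] at h3
      have h4 : (fun b => star (star w ⬝ᵥ (star (σ b) • p b))) = σ := by
        ext b
        rw [dotProduct_smul, hp b]
        simp
      have h5 : ∀ a, qf (1 + l a • (H - μ • (1 : Matrix ι ι ℂ))) (star (σ a) • p a) =
          - (d a * ‖σ a‖ ^ 2) := by
        intro a
        have h6 : qf (1 + l a • (H - μ • (1 : Matrix ι ι ℂ)) + d a • rk1 w)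
            (star (σ a) • p a) = 0 := by
          unfold qf
          rw [Matrix.mulVec_smul, hMp a]
          simp
        rw [qf_add, qf_smul, qf_rk1, dotProduct_smul, hp a] at h6
        have h7 : ‖star (σ a) • (1 : ℂ)‖ = ‖σ a‖ := by simp
        rw [h7] at h6
        linarith
      rw [h4, Finset.sum_congr rfl fun a _ => h5 a, Finset.sum_neg_distrib] at h3
      have h6 : qf (C - Matrix.diagonal (fun a => (d a : ℂ))) σ =
          qf C σ - ∑ a, d a * ‖σ a‖ ^ 2 := by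
        rw [sub_eq_add_neg, qf_add, sub_eq_add_neg]
        congr 1
        rw [← Finset.sum_neg_distrib]
        unfold qf
        rw [Matrix.neg_mulVec, dotProduct_neg, Complex.neg_re, Finset.sum_neg_distrib]
        congr 1
        simp only [dotProduct, Matrix.mulVec_diagonal, Complex.re_sum]
        refine Finset.sum_congr rfl fun a _ => ?_
        have : star σ a * ((d a : ℂ) * σ a) = (d a : ℂ) * (σ a * star (σ a)) := by
          rw [Pi.star_apply]; ring
        rw [this, Complex.re_ofReal_mul]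
        congr 1
        rw [Complex.star_def, Complex.mul_conj, Complex.ofReal_re, Complex.normSq_eq_norm_sq]
      rw [h6]
      linarith
  obtain ⟨d, hd1, hd2⟩ := key
  have hN : ∀ a, 0 ≤ ((F * (1 + l a • (T1 - μ • (1 : Matrix κ κ ℂ)) + d a • T2) * Fᴴ) a a).re := by
    intro a
    have h3 := hT (1 - l a * μ) (l a) (d a) (by
      have := hd1 a
      convert this using 1
      rw [sub_smul, smul_sub, smul_smul, one_smul]
      abel)
    have h4 : ((1 - l a * μ) • (1 : Matrix κ κ ℂ) + l a • T1 + d a • T2) =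
        1 + l a • (T1 - μ • (1 : Matrix κ κ ℂ)) + d a • T2 := by
      rw [sub_smul, smul_sub, smul_smul, one_smul]
      abel
    rw [h4] at h3
    have h5 := (h3.mul_mul_conjTranspose_same F).diag_nonneg (i := a)
    exact (Complex.le_def.mp h5).1
  have hFH : Fᴴ * Gᴴ = 1 := by
    rw [← Matrix.conjTranspose_mul, hGF, Matrix.conjTranspose_one]
  have hconj : ∀ X : Matrix κ κ ℂ, X = Fᴴ * (Gᴴ * X * G) * F := by
    intro X
    calc X = (Fᴴ * Gᴴ) * X * (G * F) := by rw [hFH, hGF, Matrix.one_mul, Matrix.mul_one]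
      _ = _ := by simp only [Matrix.mul_assoc]
  have e1 : B0 + B1 * T1 + B2 * T2 = (B0 + μ • B1) + B1 * (T1 - μ • 1) + B2 * T2 := by
    rw [Matrix.mul_sub, Matrix.mul_smul, Matrix.mul_one]; abel
  have e2 : (B0 + μ • B1).trace = (1 * (F * 1 * Fᴴ)).trace := by
    rw [hconj (B0 + μ • B1), h1, Matrix.mul_one, Matrix.trace_mul_comm]; simp
  have e3 : (B1 * (T1 - μ • 1)).trace =
      (Matrix.diagonal (fun i => (l i : ℂ)) * (F * (T1 - μ • 1) * Fᴴ)).trace := by
    rw [hconj B1, h2, Matrix.mul_assoc, Matrix.mul_assoc, Matrix.trace_mul_comm]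
    simp only [Matrix.mul_assoc]
  have e4 : (B2 * T2).trace = (C * (F * T2 * Fᴴ)).trace := by
    rw [hconj B2, ← hC, Matrix.mul_assoc, Matrix.mul_assoc, Matrix.trace_mul_comm]
    simp only [Matrix.mul_assoc]
  have e5 : (C * (F * T2 * Fᴴ)).trace =
      ((C - Matrix.diagonal (fun a => (d a : ℂ))) * (F * T2 * Fᴴ)).trace +
      (Matrix.diagonal (fun a => (d a : ℂ)) * (F * T2 * Fᴴ)).trace := by
    rw [← Matrix.trace_add, ← Matrix.add_mul, sub_add_cancel]
  have e6 : ((1 * (F * 1 * Fᴴ)).trace + (Matrix.diagonal (fun i => (l i : ℂ)) *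
      (F * (T1 - μ • 1) * Fᴴ)).trace + (Matrix.diagonal (fun a => (d a : ℂ)) *
      (F * T2 * Fᴴ)).trace) =
      ∑ a, (F * (1 + l a • (T1 - μ • (1 : Matrix κ κ ℂ)) + d a • T2) * Fᴴ) a a := by
    simp only [Matrix.trace, Matrix.diag, Matrix.diagonal_mul, Matrix.one_mul,
      ← Finset.sum_add_distrib]
    refine Finset.sum_congr rfl fun a _ => ?_
    simp only [Matrix.mul_add, Matrix.add_mul, Matrix.mul_smul, Matrix.smul_mul, Matrix.add_apply,
      Matrix.smul_apply, Complex.real_smul]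
  rw [e1, Matrix.trace_add, Matrix.trace_add, e2, e3, e4, e5]
  have e7 : ∀ p q r s : ℂ, p + q + (r + s) = (p + q + s) + r := by intros; ring
  rw [e7, e6, Complex.add_re, Complex.re_sum]
  exact add_nonneg (Finset.sum_nonneg fun a _ => hN a) hd2

end rows

end Pool.Agent.Lib.P74fcff
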