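import Pool.Agent.Lib.P74fcff.Sep
import Pool.Agent.Lib.P74fcff.Gns

set_option autoImplicit false
set_option linter.unusedSectionVars false

open scoped ComplexOrder Matrix MatrixOrder

universe u

namespace Pool.Agent.Lib.P74fcff

section suff

variable {K : Type u} [NormedAddCommGroup K] [InnerProductSpace ℂ K]

lemma exists_onb (s : Finset K) : ∃ (m : ℕ) (o : Fin m → K), Orthonormal ℂ o ∧
    ∀ k ∈ s, ∑ a, inner ℂ (o a) k • o a = k := by
  let S := Submodule.span ℂ (s : Set K)
  have : FiniteDimensional ℂ S := FiniteDimensional.span_finset ℂ s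
  let B := stdOrthonormalBasis ℂ S
  refine ⟨_, fun a => (B a : K), B.orthonormal.comp_linearIsometry S.subtypeₗᵢ, fun k hk => ?_⟩
  have h := B.sum_repr' ⟨k, Submodule.subset_span hk⟩
  have h2 := congrArg (Subtype.val) h
  simpa using h2

/-- linear combinations -/
noncomputable def comb {m : ℕ} (o : Fin m → K) (v : Fin m → ℂ) : K := ∑ a, v a • o a

/-- matrix of an operator -/
noncomputable def mt {m : ℕ} (o : Fin m → K) (T : K →ₗ[ℂ] K) : Matrix (Fin m) (Fin m) ℂ :=
  fun a b => inner ℂ (o a) (T (o b))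

lemma mt_dot {m : ℕ} (o : Fin m → K) (T : K →ₗ[ℂ] K) (v : Fin m → ℂ) :
    star v ⬝ᵥ (mt o T *ᵥ v) = inner ℂ (comb o v) (T (comb o v)) := by
  unfold comb
  rw [map_sum, sum_inner]
  simp only [inner_sum, dotProduct, Matrix.mulVec, mt, map_smul, inner_smul_left,
    inner_smul_right, Finset.mul_sum, Pi.star_apply, Complex.star_def]
  refine Finset.sum_congr rfl fun a _ => Finset.sum_congr rfl fun b _ => ?_
  ring

lemma mt_herm {m : ℕ} (o : Fin m → K) {T : K →ₗ[ℂ] K}
    (hT : ∀ x y, inner ℂ x (T y) = inner ℂ (T x) y) : (mt o T).IsHermitian := by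
  ext a b
  rw [Matrix.conjTranspose_apply, mt, mt, hT (o a) (o b)]
  exact inner_conj_symm _ _

lemma mt_id {m : ℕ} {o : Fin m → K} (ho : Orthonormal ℂ o) : mt o LinearMap.id = 1 := by
  classical
  ext a b
  rw [mt, LinearMap.id_apply, orthonormal_iff_ite.mp ho a b, Matrix.one_apply]

lemma qf_mt {m : ℕ} (o : Fin m → K) (T : K →ₗ[ℂ] K) (v : Fin m → ℂ) :
    qf (mt o T) v = (inner ℂ (comb o v) (T (comb o v))).re := by
  unfold qf; rw [mt_dot]

lemma qf_one_comb {m : ℕ} {o : Fin m → K} (ho : Orthonormal ℂ o) (v : Fin m → ℂ) :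
    qf 1 v = ‖comb o v‖ ^ 2 := by
  rw [← mt_id ho, qf_mt, LinearMap.id_apply, inner_self_eq_norm_sq_to_K]
  norm_cast

variable {ι : Type} [Fintype ι] [DecidableEq ι]

lemma om_comb {m : ℕ} (o : Fin m → K) (Z : Matrix (Fin m) ι ℂ) (k : K) :
    om (fun j => comb o (fun a => Z a j)) k = Zᴴ *ᵥ (fun a => inner ℂ (o a) k) := by
  ext j
  simp only [om, comb, Matrix.mulVec, dotProduct, sum_inner, inner_smul_left,
    Matrix.conjTranspose_apply, Complex.star_def]

lemma trace_rk1_mul {κ : Type*} [Fintype κ] [DecidableEq κ] (c : κ → ℂ) (Z : Matrix κ ι ℂ)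
    (M : Matrix ι ι ℂ) : (Zᴴ * (rk1 c * Z * M)).trace.re = qf M (Zᴴ *ᵥ c) := by
  rw [Matrix.trace_mul_comm, Matrix.mul_assoc, Matrix.mul_assoc, Matrix.trace_mul_comm,
    trace_mul_rk1]
  unfold qf
  congr 1
  rw [Matrix.star_mulVec, Matrix.conjTranspose_conjTranspose, ← Matrix.mulVec_mulVec,
    Matrix.dotProduct_mulVec, ← Matrix.mulVec_mulVec, Matrix.dotProduct_mulVec]

/-- Sufficiency for pencils containing a rank one element, in terms of positivity. -/
theorem suff {H : Matrix ι ι ℂ} (hH : H.IsHermitian) {w e : ι → ℂ} (he : e ≠ 0)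
    (hwe : star w ⬝ᵥ e = 0) {T1 T2 : K →ₗ[ℂ] K}
    (hT1 : ∀ x y, inner ℂ x (T1 y) = inner ℂ (T1 x) y)
    (hT2 : ∀ x y, inner ℂ x (T2 y) = inner ℂ (T2 x) y)
    (hT : ∀ t x y : ℝ, (t • 1 + x • H + y • rk1 w : Matrix ι ι ℂ).PosSemidef →
      ∀ k, 0 ≤ t * ‖k‖ ^ 2 + x * (inner ℂ k (T1 k)).re + y * (inner ℂ k (T2 k)).re) :
    ∃ (L : Type u) (_ : NormedAddCommGroup L) (_ : InnerProductSpace ℂ L)
      (_ : CompleteSpace L) (V : ι → K →ₗ[ℂ] L),
      (∀ x y, ∑ i, inner ℂ (V i x) (V i y) = inner ℂ x y) ∧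
      (∀ x y, ∑ i, ∑ j, H i j * inner ℂ (V i x) (V j y) = inner ℂ x (T1 y)) ∧
      (∀ x y, ∑ i, ∑ j, rk1 w i j * inner ℂ (V i x) (V j y) = inner ℂ x (T2 y)) := by
  refine gns hH (rk1_herm w) hT1 hT2 fun b hb => ?_
  obtain ⟨m, o, ho, hs⟩ := exists_onb b.support
  set c : K → Fin m → ℂ := fun k a => inner ℂ (o a) k with hc
  have hcomb : ∀ k ∈ b.support, comb o (c k) = k := fun k hk => hs k hk
  set B0 : Matrix (Fin m) (Fin m) ℂ := ∑ k ∈ b.support, (b k).1 • rk1 (c k) with hB0
  set B1 : Matrix (Fin m) (Fin m) ℂ := ∑ k ∈ b.support, (b k).2.1 • rk1 (c k) with hB1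
  set B2 : Matrix (Fin m) (Fin m) ℂ := ∑ k ∈ b.support, (b k).2.2 • rk1 (c k) with hB2
  have hsum : ∀ g : K → ℝ, (∑ k ∈ b.support, g k • rk1 (c k)).IsHermitian := by
    intro g
    rw [Matrix.IsHermitian, Matrix.conjTranspose_sum]
    refine Finset.sum_congr rfl fun k _ => herm_smul (rk1_herm _) _
  -- the quadratic form
  have hQ : ∀ Z : Matrix (Fin m) ι ℂ, 0 ≤ QF B0 B1 B2 H (rk1 w) Z := by
    intro Z
    have h := hb (fun j => comb o (fun a => Z a j))
    have e1 : QF B0 B1 B2 H (rk1 w) Z = pm H (rk1 w) b (fun j => comb o (fun a => Z a j)) := by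
      have e2 : pm H (rk1 w) b (fun j => comb o (fun a => Z a j)) =
          ∑ k ∈ b.support, ((b k).1 * qf 1 (Zᴴ *ᵥ c k) + (b k).2.1 * qf H (Zᴴ *ᵥ c k) +
            (b k).2.2 * qf (rk1 w) (Zᴴ *ᵥ c k)) := by
        unfold pm
        rw [Finsupp.lsum_apply, Finsupp.sum, Finset.sum_apply]
        refine Finset.sum_congr rfl fun k _ => ?_
        rw [← om_comb]
        rfl
      rw [e2]
      unfold QF
      have e3 : ∀ (g : K → ℝ) (M : Matrix ι ι ℂ),
          (Zᴴ * ((∑ k ∈ b.support, g k • rk1 (c k)) * Z * M)).trace.re =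
          ∑ k ∈ b.support, g k * qf M (Zᴴ *ᵥ c k) := by
        intro g M
        rw [Matrix.sum_mul, Matrix.sum_mul, Matrix.mul_sum, Matrix.trace_sum, Complex.re_sum]
        refine Finset.sum_congr rfl fun k _ => ?_
        rw [Matrix.smul_mul, Matrix.smul_mul, Matrix.mul_smul, Matrix.trace_smul,
          Complex.real_smul, Complex.re_ofReal_mul, trace_rk1_mul]
      have e4 := e3 (fun k => (b k).1) 1
      rw [Matrix.mul_one] at e4
      rw [Matrix.mul_add, Matrix.mul_add, Matrix.trace_add, Matrix.trace_add, Complex.add_re,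
        Complex.add_re, hB0, e4, hB1, e3, hB2, e3, ← Finset.sum_add_distrib,
        ← Finset.sum_add_distrib]
    rw [e1]
    exact h
  have hpos : ∀ t x y : ℝ, (t • 1 + x • H + y • rk1 w : Matrix ι ι ℂ).PosSemidef →
      (t • 1 + x • mt o T1 + y • mt o T2 : Matrix (Fin m) (Fin m) ℂ).PosSemidef := by
    intro t x y h
    refine posSemidef_of_qf (((herm_smul herm_one t).add (herm_smul (mt_herm o hT1) x)).add
      (herm_smul (mt_herm o hT2) y)) fun v => ?_
    rw [qf_add, qf_add, qf_smul, qf_smul, qf_smul, qf_mt, qf_mt, qf_one_comb ho]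
    exact hT t x y h _
  have hmain : 0 ≤ (B0 + B1 * mt o T1 + B2 * mt o T2).trace.re := by
    refine le_of_forall_pos_le_add fun ε hε => ?_
    have hm : (0 : ℝ) < m + 1 := by positivity
    have hδ : 0 < ε / (m + 1) := div_pos hε hm
    set δ := ε / (m + 1) with hδdef
    have h1 := sep_strict hH he hwe hpos (B0 := B0 + δ • 1) (B1 := B1) (B2 := B2)
      ((hsum _).add (herm_smul herm_one δ)) (hsum _) (hsum _) (fun Z hZ => by
        have e1 : QF (B0 + δ • 1) B1 B2 H (rk1 w) Z =
            QF B0 B1 B2 H (rk1 w) Z + δ * (Zᴴ * Z).trace.re := by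
          unfold QF
          rw [← Complex.re_ofReal_mul, ← Complex.add_re, ← Complex.real_smul, ← Matrix.trace_smul,
            ← Matrix.trace_add]
          congr 2
          simp only [Matrix.add_mul, Matrix.mul_add, Matrix.smul_mul, Matrix.mul_smul,
            Matrix.one_mul]
          abel
        rw [e1]
        have h2 := hQ Z
        have h3 : 0 < (Zᴴ * Z).trace.re := by
          have h4 : (Zᴴ * Z).PosSemidef := Matrix.posSemidef_conjTranspose_mul_self Z
          have h5 := h4.trace_nonneg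
          have h6 := Complex.le_def.mp h5
          rcases h6.1.lt_or_eq with h | h
          · exact h
          · exfalso
            apply hZ
            rw [← Matrix.trace_conjTranspose_mul_self_eq_zero_iff]
            exact Complex.ext h.symm h6.2.symm
        positivity)
    have e1 : (B0 + δ • 1 + B1 * mt o T1 + B2 * mt o T2).trace.re =
        (B0 + B1 * mt o T1 + B2 * mt o T2).trace.re + δ * m := by
      have : (B0 + δ • 1 + B1 * mt o T1 + B2 * mt o T2) =
        (B0 + B1 * mt o T1 + B2 * mt o T2) + δ • (1 : Matrix (Fin m) (Fin m) ℂ) := by abel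
      rw [this, Matrix.trace_add, Matrix.trace_smul, Matrix.trace_one, Complex.add_re,
        Complex.real_smul, Complex.re_ofReal_mul]
      simp
    rw [e1] at h1
    have h2 : δ * m ≤ ε := by
      rw [hδdef, div_mul_eq_mul_div, div_le_iff₀ hm]
      nlinarith
    linarith
  have efin : (B0 + B1 * mt o T1 + B2 * mt o T2).trace.re =
      b.sum fun k c => c.1 * ‖k‖ ^ 2 + c.2.1 * (inner ℂ k (T1 k)).re +
        c.2.2 * (inner ℂ k (T2 k)).re := by
    have e3 : ∀ (g : K → ℝ) (M : Matrix (Fin m) (Fin m) ℂ),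
        ((∑ k ∈ b.support, g k • rk1 (c k)) * M).trace.re =
        ∑ k ∈ b.support, g k * qf M (c k) := by
      intro g M
      rw [Finset.sum_mul, Matrix.trace_sum, Complex.re_sum]
      refine Finset.sum_congr rfl fun k _ => ?_
      rw [Matrix.smul_mul, Matrix.trace_smul, Complex.real_smul, Complex.re_ofReal_mul,
        Matrix.trace_mul_comm, trace_mul_rk1]
      rfl
    have e4 := e3 (fun k => (b k).1) 1
    rw [Matrix.mul_one] at e4
    rw [Matrix.trace_add, Matrix.trace_add, Complex.add_re, Complex.add_re, hB0, e4, hB1, e3, hB2,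
      e3, ← Finset.sum_add_distrib, ← Finset.sum_add_distrib, Finsupp.sum]
    refine Finset.sum_congr rfl fun k hk => ?_
    rw [qf_mt, qf_mt, qf_one_comb ho, hcomb k hk]
  rw [← efin]
  exact hmain

end suff

end Pool.Agent.Lib.P74fcff
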