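import Pool.Agent.Lib.P74fcff.Link

set_option autoImplicit false
set_option linter.unusedSectionVars false

open scoped ComplexOrder Matrix MatrixOrder TensorProduct

universe u

namespace Pool.Agent.Lib.P74fcff

section

variable {K : Type u} [NormedAddCommGroup K] [InnerProductSpace ℂ K] [CompleteSpace K]

variable {ι : Type} [Fintype ι] [DecidableEq ι]

lemma dilV_of_rk {A : Matrix ι ι ℂ} {ζ : ℂ} (hζ : ζ ≠ 0) {μ : ℝ} {w e : ι → ℂ}
    (hw : ζ • A + (ζ • A)ᴴ = rk1 w + (μ : ℂ) • 1) (he : e ≠ 0) (hwe : star w ⬝ᵥ e = 0)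
    {T : K →L[ℂ] K} (hT : PosHyp A (T : K →ₗ[ℂ] K)) : DilV A (T : K →ₗ[ℂ] K) := by
  set H : Matrix ι ι ℂ := (-Complex.I) • (ζ • A - (ζ • A)ᴴ) with hHdef
  have hH : H.IsHermitian := by
    rw [Matrix.IsHermitian, hHdef, Matrix.conjTranspose_smul, Matrix.conjTranspose_sub,
      Matrix.conjTranspose_conjTranspose, Complex.star_def, map_neg, Complex.conj_I, neg_neg,
      neg_smul, smul_sub, smul_sub]
    abel
  set T' : K →L[ℂ] K := ζ • T with hT'
  set Ts : K →L[ℂ] K := ContinuousLinearMap.adjoint T' with hTs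
  have hTs1 : ∀ x y, inner ℂ x (Ts y) = inner ℂ (T' x) y := fun x y =>
    ContinuousLinearMap.adjoint_inner_right T' x y
  have hTs2 : ∀ x y, inner ℂ (Ts x) y = inner ℂ x (T' y) := fun x y =>
    ContinuousLinearMap.adjoint_inner_left T' y x
  set P : K →L[ℂ] K := T' + Ts - (μ : ℂ) • 1 with hP
  set Q : K →L[ℂ] K := (-Complex.I) • (T' - Ts) with hQ
  have hPs : ∀ x y, inner ℂ x (P y) = inner ℂ (P x) y := by
    intro x y
    simp only [hP, sub_apply, add_apply,
      smul_apply, one_apply_eq_self, inner_sub_left,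
      inner_sub_right, inner_add_left, inner_add_right, inner_smul_left, inner_smul_right,
      hTs1, hTs2, Complex.conj_ofReal]
    ring
  have hQs : ∀ x y, inner ℂ x (Q y) = inner ℂ (Q x) y := by
    intro x y
    simp only [hQ, sub_apply, smul_apply, inner_sub_left,
      inner_sub_right, inner_smul_left, inner_smul_right, hTs1, hTs2, map_neg, Complex.conj_I]
    ring
  -- diagonal values
  have hdiag : ∀ k : K, inner ℂ k (P k) = ((2 * (inner ℂ k (T' k)).re - μ * ‖k‖ ^ 2 : ℝ) : ℂ) ∧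
      inner ℂ k (Q k) = ((2 * (inner ℂ k (T' k)).im : ℝ) : ℂ) := by
    intro k
    have h1 : inner ℂ k (Ts k) = star (inner ℂ k (T' k)) := by
      rw [hTs1]; exact (inner_conj_symm _ _).symm
    constructor
    · simp only [hP, sub_apply, add_apply,
        smul_apply, one_apply_eq_self, inner_sub_right,
        inner_add_right, inner_smul_right, h1, inner_self_eq_norm_sq_to_K]
      rw [Complex.star_def, Complex.add_conj]
      push_cast
      norm_num
    · simp only [hQ, sub_apply, smul_apply,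
        inner_sub_right, inner_smul_right, h1]
      rw [Complex.star_def, Complex.sub_conj]
      push_cast
      linear_combination (-2 * ((inner ℂ k (T' k)).im : ℂ)) * Complex.I_mul_I
  have hvals : ∀ v : ι → ℂ, qf (rk1 w) v = 2 * (ζ * (star v ⬝ᵥ (A *ᵥ v))).re - μ * qf 1 v ∧
      qf H v = 2 * (ζ * (star v ⬝ᵥ (A *ᵥ v))).im := by
    intro v
    have h1 : star v ⬝ᵥ ((ζ • A) *ᵥ v) = ζ * (star v ⬝ᵥ (A *ᵥ v)) := by
      rw [Matrix.smul_mulVec, dotProduct_smul, smul_eq_mul]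
    have h2 : star v ⬝ᵥ ((ζ • A)ᴴ *ᵥ v) = star (ζ * (star v ⬝ᵥ (A *ᵥ v))) := by
      rw [← h1, ← Matrix.star_dotProduct_star, star_star, Matrix.star_mulVec, dotProduct_comm,
        ← Matrix.dotProduct_mulVec, dotProduct_comm]
    constructor
    · have h3 : rk1 w = ζ • A + (ζ • A)ᴴ - (μ : ℂ) • 1 := by rw [hw]; abel
      unfold qf
      rw [h3, Matrix.sub_mulVec, Matrix.add_mulVec, dotProduct_sub, dotProduct_add, h1, h2,
        Matrix.smul_mulVec, dotProduct_smul, smul_eq_mul, Complex.sub_re, Complex.re_ofReal_mul,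
        Complex.star_def, Complex.add_conj, Complex.ofReal_re]
    · unfold qf
      rw [hHdef, Matrix.smul_mulVec, dotProduct_smul, Matrix.sub_mulVec, dotProduct_sub, h1, h2,
        Complex.star_def, Complex.sub_conj, smul_eq_mul]
      simp
  have hpos : ∀ t x y : ℝ, (t • 1 + x • H + y • rk1 w : Matrix ι ι ℂ).PosSemidef →
      ∀ k, 0 ≤ t * ‖k‖ ^ 2 + x * (inner ℂ k ((Q : K →ₗ[ℂ] K) k)).re +
        y * (inner ℂ k ((P : K →ₗ[ℂ] K) k)).re := by
    intro t x y h k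
    have h1 := hT (2 * ζ * ((y : ℂ) - x * Complex.I)) (t - y * μ) (fun v => by
      have h2 := qf_nonneg_of_posSemidef h v
      rw [qf_add, qf_add, qf_smul, qf_smul, qf_smul, (hvals v).1, (hvals v).2] at h2
      have h3 : (2 * ζ * ((y : ℂ) - x * Complex.I) * (star v ⬝ᵥ (A *ᵥ v))).re =
          2 * y * (ζ * (star v ⬝ᵥ (A *ᵥ v))).re + 2 * x * (ζ * (star v ⬝ᵥ (A *ᵥ v))).im := by
        have : 2 * ζ * ((y : ℂ) - x * Complex.I) * (star v ⬝ᵥ (A *ᵥ v)) =
          (2 * ((y : ℂ) - x * Complex.I)) * (ζ * (star v ⬝ᵥ (A *ᵥ v))) := by ring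
        rw [this, Complex.mul_re]
        simp
      rw [h3]
      linarith) k
    have h4 : (2 * ζ * ((y : ℂ) - x * Complex.I) * inner ℂ k ((T : K →ₗ[ℂ] K) k)).re =
          2 * y * (inner ℂ k (T' k)).re + 2 * x * (inner ℂ k (T' k)).im := by
      have h5 : inner ℂ k (T' k) = ζ * inner ℂ k (T k) := by
        rw [hT', smul_apply, inner_smul_right]
      have : 2 * ζ * ((y : ℂ) - x * Complex.I) * inner ℂ k ((T : K →ₗ[ℂ] K) k) =
          (2 * ((y : ℂ) - x * Complex.I)) * inner ℂ k (T' k) := by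
        rw [h5, ContinuousLinearMap.coe_coe]; ring
      rw [this, Complex.mul_re]
      simp
    rw [h4] at h1
    rw [ContinuousLinearMap.coe_coe, ContinuousLinearMap.coe_coe, (hdiag k).1, (hdiag k).2,
      Complex.ofReal_re, Complex.ofReal_re]
    linarith
  obtain ⟨L, i1, i2, i3, V, hV1, hV2, hV3⟩ := suff hH he hwe (T1 := (Q : K →ₗ[ℂ] K))
    (T2 := (P : K →ₗ[ℂ] K)) hQs hPs hpos
  refine ⟨L, i1, i2, i3, V, hV1, fun x y => ?_⟩
  have hA : ∀ i j, A i j = (2 * ζ)⁻¹ * (rk1 w i j + (μ : ℂ) * (1 : Matrix ι ι ℂ) i j +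
      Complex.I * H i j) := by
    intro i j
    have h1 := congrFun (congrFun hw i) j
    simp only [Matrix.add_apply, Matrix.smul_apply, smul_eq_mul] at h1
    have h2 : H i j = (-Complex.I) * (ζ * A i j - (ζ • A)ᴴ i j) := by
      rw [hHdef]; simp
    rw [h2, ← h1]
    field_simp
    ring_nf
    rw [Complex.I_sq]
    ring
  have h1 : ∑ i, ∑ j, (1 : Matrix ι ι ℂ) i j * inner ℂ (V i x) (V j y) = inner ℂ x y := by
    rw [← hV1 x y]
    refine Finset.sum_congr rfl fun i _ => ?_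
    rw [Finset.sum_eq_single i]
    · simp
    · intro j _ hj
      rw [Matrix.one_apply_ne hj.symm, zero_mul]
    · intro h; exact absurd (Finset.mem_univ i) h
  have h2 : ∑ i, ∑ j, A i j * inner ℂ (V i x) (V j y) = (2 * ζ)⁻¹ *
      (inner ℂ x (P y) + μ * inner ℂ x y + Complex.I * inner ℂ x (Q y)) := by
    have h3 := hV2 x y
    have h4 := hV3 x y
    rw [ContinuousLinearMap.coe_coe] at h3 h4
    rw [← h3, ← h4, ← h1]
    simp only [Finset.mul_sum, ← Finset.sum_add_distrib]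
    refine Finset.sum_congr rfl fun i _ => Finset.sum_congr rfl fun j _ => ?_
    rw [hA]
    ring
  rw [h2]
  simp only [hP, hQ, sub_apply, add_apply,
    smul_apply, one_apply_eq_self, inner_sub_right,
    inner_add_right, inner_smul_right, ContinuousLinearMap.coe_coe]
  have h5 : inner ℂ x (T' y) = ζ * inner ℂ x (T y) := by
    rw [hT', smul_apply, inner_smul_right]
  rw [h5]
  field_simp
  ring_nf
  rw [Complex.I_sq]
  ring

lemma exists_perp {a b : ι} (hab : a ≠ b) (w : ι → ℂ) :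
    ∃ e : ι → ℂ, e ≠ 0 ∧ star w ⬝ᵥ e = 0 := by
  by_cases h : w a = 0
  · refine ⟨Pi.single a 1, by simp, ?_⟩
    simp [h]
  · refine ⟨Pi.single a (star (w b)) - Pi.single b (star (w a)), ?_, ?_⟩
    · intro h2
      have := congrFun h2 b
      simp [hab] at this
      exact h this
    · rw [dotProduct_sub]
      simp
      ring

lemma herm_rank_le_one {M : Matrix ι ι ℂ} (hM : M.IsHermitian) (hr : M.rank ≤ 1) :
    ∃ w, M = rk1 w ∨ M = - rk1 w := by
  by_cases h0 : M = 0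
  · refine ⟨0, Or.inl ?_⟩
    rw [h0]; simp [rk1]
  obtain ⟨v, t, ht, hv, hMv⟩ := hM.exists_eigenvector_of_ne_zero h0
  have hMv' : M *ᵥ v = (t : ℂ) • v := by
    rw [hMv]; ext i; simp
  -- the range is spanned by v
  have hspan : ∀ x, ∃ c : ℂ, M *ᵥ x = c • v := by
    intro x
    obtain ⟨u, hu⟩ := finrank_le_one_iff.mp (show Module.finrank ℂ (LinearMap.range M.mulVecLin) ≤ 1
      from hr)
    obtain ⟨c1, hc1⟩ := hu ⟨M *ᵥ v, ⟨v, rfl⟩⟩
    obtain ⟨c2, hc2⟩ := hu ⟨M *ᵥ x, ⟨x, rfl⟩⟩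
    have e1 : c1 • (u : ι → ℂ) = (t : ℂ) • v := by
      rw [← hMv']; exact congrArg Subtype.val hc1
    have e2 : c2 • (u : ι → ℂ) = M *ᵥ x := congrArg Subtype.val hc2
    have htC : (t : ℂ) ≠ 0 := by exact_mod_cast ht
    have hc1' : c1 ≠ 0 := by
      rintro rfl
      rw [zero_smul] at e1
      rcases smul_eq_zero.mp e1.symm with h | h
      · exact htC h
      · exact hv h
    refine ⟨c2 * c1⁻¹ * t, ?_⟩
    rw [← e2, mul_smul, ← e1, smul_smul, mul_assoc, inv_mul_cancel₀ hc1', mul_one]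
  have hvv : 0 < qf 1 v := qf_one_pos hv
  have hvv' : star v ⬝ᵥ v = ((qf 1 v : ℝ) : ℂ) := by
    have := herm_dot_eq herm_one v
    rwa [Matrix.one_mulVec] at this
  have hvvC : ((qf 1 v : ℝ) : ℂ) ≠ 0 := by exact_mod_cast hvv.ne'
  have hM2 : M = (t / qf 1 v) • rk1 v := by
    apply Matrix.ext_of_mulVec_single
    intro i
    obtain ⟨c, hc⟩ := hspan (Pi.single i 1)
    rw [hc, Matrix.smul_mulVec, rk1_mulVec]
    have h1 : star v ⬝ᵥ (M *ᵥ Pi.single i 1) = t * (star v ⬝ᵥ Pi.single i 1) := by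
      have h2 : star (M *ᵥ v) = star v ᵥ* M := by
        rw [Matrix.star_mulVec, hM.eq]
      rw [Matrix.dotProduct_mulVec, ← h2, hMv', star_smul, smul_dotProduct]
      simp
    rw [hc, dotProduct_smul, hvv', smul_eq_mul] at h1
    have h3 : c = (t / qf 1 v : ℝ) * (star v ⬝ᵥ Pi.single i 1) := by
      push_cast
      rw [div_mul_eq_mul_div, eq_div_iff hvvC, h1]
    rw [h3]
    ext j
    simp
    ring
  -- scale
  have hsc : ∀ r : ℝ, 0 ≤ r → r • rk1 v = rk1 ((√r : ℂ) • v) := by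
    intro r hr
    ext i j
    simp only [rk1, Matrix.smul_apply, Matrix.vecMulVec_apply, Pi.smul_apply, Pi.star_apply,
      smul_eq_mul, star_mul', Complex.star_def, Complex.conj_ofReal, Complex.real_smul]
    have : (r : ℂ) = (√r : ℂ) * (√r : ℂ) := by
      rw [← Complex.ofReal_mul, Real.mul_self_sqrt hr]
    rw [this]
    ring
  rcases le_total 0 (t / qf 1 v) with h | h
  · exact ⟨_, Or.inl (hM2.trans (hsc _ h))⟩
  · refine ⟨(√(-(t / qf 1 v)) : ℂ) • v, Or.inr (hM2.trans ?_)⟩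
    rw [← hsc _ (neg_nonneg.mpr h), neg_smul, neg_neg]

/-- The existence of an element of rank at most one in the pencil. -/
def RankOne (A : Matrix ι ι ℂ) : Prop :=
  ∃ ζ : ℂ, ζ ≠ 0 ∧ ∃ μ : ℝ, (ζ • A + (ζ • A)ᴴ - (μ : ℂ) • 1).rank ≤ 1

lemma exists_rk1 {A : Matrix ι ι ℂ} (h : RankOne A) :
    ∃ ζ : ℂ, ζ ≠ 0 ∧ ∃ (μ : ℝ) (w : ι → ℂ), ζ • A + (ζ • A)ᴴ = rk1 w + (μ : ℂ) • 1 := by
  obtain ⟨ζ, hζ, μ, hr⟩ := h
  have hh : (ζ • A + (ζ • A)ᴴ - (μ : ℂ) • 1).IsHermitian := by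
    rw [Matrix.IsHermitian, Matrix.conjTranspose_sub, Matrix.conjTranspose_add,
      Matrix.conjTranspose_conjTranspose, Matrix.conjTranspose_smul _ (1 : Matrix ι ι ℂ),
      Matrix.conjTranspose_one, Complex.star_def, Complex.conj_ofReal, add_comm]
  obtain ⟨w, hw | hw⟩ := herm_rank_le_one hh hr
  · exact ⟨ζ, hζ, μ, w, by rw [← hw]; abel⟩
  · refine ⟨-ζ, neg_ne_zero.mpr hζ, -μ, w, ?_⟩
    have : rk1 w = -(ζ • A + (ζ • A)ᴴ - (μ : ℂ) • 1) := by rw [hw, neg_neg]
    rw [this, neg_smul, Matrix.conjTranspose_neg, Complex.ofReal_neg, neg_smul]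
    abel

lemma dilV_of_rankOne {A : Matrix ι ι ℂ} {a b : ι} (hab : a ≠ b) (h : RankOne A)
    {T : K →L[ℂ] K} (hT : PosHyp A (T : K →ₗ[ℂ] K)) : DilV A (T : K →ₗ[ℂ] K) := by
  obtain ⟨ζ, hζ, μ, w, hw⟩ := exists_rk1 h
  obtain ⟨e, he, hwe⟩ := exists_perp hab w
  exact dilV_of_rk hζ hw he hwe hT

end

/-- Sufficiency in every dimension. -/
theorem propertyV_of_rankOne {n : ℕ} (hn : 2 ≤ n) {A : Matrix (Fin n) (Fin n) ℂ}
    (h : RankOne A) : PropertyV.{u} A := by
  intro K _ _ _ T hT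
  have hab : (⟨0, by omega⟩ : Fin n) ≠ ⟨1, by omega⟩ := by
    intro h; simp at h
  exact dilV_of_rankOne hab h (posHyp_of_numRange hT)

end Pool.Agent.Lib.P74fcff
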